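import Pool.Agent.Lib.MP_07129f_an.TP.CoreB

/-!
TP-Quar: the boundary inequalities for the numbers `W1`, `W2`.

PROOF.  `t = r e ^ (i ε)`, `y = (t - 1) / (t + 1)`: `normSq y = normSq (t - 1) / normSq (t + 1)`, `1 - normSq y = 4 Re t / normSq (t + 1)`,
`Im y = 2 Im t / normSq (t + 1) = (tan ε / 2) (1 - normSq y)`, `Re y = (r ^ 2 - 1) / normSq (t + 1)`.
`e ^ (i ε) (1 - y ^ 2) = (1 + y) ^ 2 / r` and `e ^ (- i ε) (1 - y ^ 2) = r (1 - y) ^ 2` (as `1 + y = 2 t / (t + 1)`, `1 - y = 2 / (t + 1)`,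
`1 - y ^ 2 = 4 t / (t + 1) ^ 2`), and `e ^ (- i (π/2 - ε)) = - i e ^ (i ε)`, `e ^ (i (π/2 - ε)) = i e ^ (- i ε)`.  So
`e ^ (- i a) W1 k h (i g) y = (g / r) (1 + y) ^ 2 T / (1 + E)`, `e ^ (i a) W1 = - g r (1 - y) ^ 2 T / (1 + E)`,
`e ^ (- i a) W2 = - (g / r) (1 + y) ^ 2 T / (1 + E⁻¹)`, `e ^ (i a) W2 = g r (1 - y) ^ 2 T / (1 + E⁻¹)`.
`Re y ≥ 0`: `core1, .., core4`.  `Re y ≤ 0`: let `y₁ = - conj y` (`Re y₁ ≥ 0`, `Im y₁ = Im y`): `TQ h y = conj (TQ h y₁)`,
`SP k h y = - conj (SP k h y₁)`, `EE k h y = conj ((EE k h y₁)⁻¹)`, `1 + y = conj (1 - y₁)`, `1 - y = conj (1 + y₁)`, and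
`core4, core3, core2, core1` for `y₁`.
`quar_conj`: `W1 k h (- (g i)) (conj y) = conj (W1 k (- h) (g i) y)`, the same for `W2`, `conj t = r e ^ (- i ε)`, and
`quar` for `- h` (`Num.neg`).
-/

namespace Pool.Agent.MP07129f.TP

open Complex Metric Set Filter Topology

private lemma Quar_t {ε r : ℝ} {t : ℂ} (ht : t = r * exp (ε * I)) :
    t.re = r * Real.cos ε ∧ t.im = r * Real.sin ε := by
  rw [ht]
  constructor
  · rw [re_ofReal_mul, exp_ofReal_mul_I_re]
  · rw [im_ofReal_mul, exp_ofReal_mul_I_im]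

private lemma Quar_ne {t : ℂ} (h : 0 < t.re) : t + 1 ≠ 0 := by
  intro h0
  have := congrArg Complex.re h0
  rw [add_re, one_re, zero_re] at this
  linarith

/-- a point of the upper boundary of the lens -/
theorem lens_up {ε r : ℝ} (hε : 0 < ε) (hε2 : ε < Real.pi / 2) (hr : 0 < r) {t y : ℂ}
    (ht : t = r * exp (ε * I)) (hy : y = (t - 1) / (t + 1)) :
    normSq y < 1 ∧ y.im = Real.tan ε / 2 * (1 - normSq y) := by
  have hcos : 0 < Real.cos ε := Real.cos_pos_of_mem_Ioo ⟨by linarith, hε2⟩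
  obtain ⟨hre, him⟩ := Quar_t ht
  have htre : 0 < t.re := by
    rw [hre]
    positivity
  have hne := Quar_ne htre
  have hN : 0 < normSq (t + 1) := normSq_pos.2 hne
  have h1 : normSq y = normSq (t - 1) / normSq (t + 1) := by
    rw [hy, map_div₀]
  have h2 : 1 - normSq y = 4 * t.re / normSq (t + 1) := by
    rw [h1, eq_div_iff hN.ne', sub_mul, div_mul_cancel₀ _ hN.ne', normSq_apply, normSq_apply]
    simp only [add_re, add_im, sub_re, sub_im, one_re, one_im]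
    ring
  have h3 : y.im = 2 * t.im / normSq (t + 1) := by
    rw [hy, div_im]
    simp only [add_re, add_im, sub_re, sub_im, one_re, one_im]
    ring
  refine ⟨?_, ?_⟩
  · have h4 : 0 < 4 * t.re / normSq (t + 1) := by positivity
    linarith
  · rw [h2, h3, hre, him, Real.tan_eq_sin_div_cos]
    field_simp
    ring

private lemma Quar_conj_aux (k h : ℝ) (y : ℂ) :
    TQ h y = (starRingEnd ℂ) (TQ h (-(starRingEnd ℂ) y)) ∧
    EE k h y = (starRingEnd ℂ) ((EE k h (-(starRingEnd ℂ) y))⁻¹) := by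
  constructor
  · unfold TQ
    simp only [map_add, map_sub, map_mul, map_one, map_pow, map_neg, conj_conj, conj_I, conj_ofReal,
      map_ofNat]
    ring
  · unfold EE
    rw [← exp_neg, ← exp_conj]
    congr 1
    unfold SP
    simp only [map_add, map_sub, map_mul, map_one, map_pow, map_neg, conj_conj, conj_I, conj_ofReal,
      map_ofNat]
    ring

private lemma Quar_conj_aux2 (k h : ℝ) (y : ℂ) :
    TQ h y = (starRingEnd ℂ) (TQ (-h) ((starRingEnd ℂ) y)) ∧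
    EE k h y = (starRingEnd ℂ) (EE k (-h) ((starRingEnd ℂ) y)) := by
  constructor
  · unfold TQ
    simp only [map_add, map_sub, map_mul, map_one, map_pow, map_neg, conj_conj, conj_I, conj_ofReal,
      map_ofNat, ofReal_neg]
    ring
  · unfold EE
    rw [← exp_conj]
    congr 1
    unfold SP
    simp only [map_add, map_sub, map_mul, map_one, map_pow, map_neg, conj_conj, conj_I, conj_ofReal,
      map_ofNat, ofReal_neg]
    ring

/-- the four inequalities in the whole lens -/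
private lemma Quar_core {k b lam h : ℝ} (hN : Num k b lam h) {y : ℂ} (h1 : normSq y < 1)
    (hv : y.im = lam * (1 - normSq y)) :
    (-(1 / (6 * k)) ≤ y.re → ((1 + y) ^ 2 * TQ h y / (1 + EE k h y)).im ≤ 0) ∧
    ((1 - y) ^ 2 * TQ h y / (1 + EE k h y)).im ≤ 0 ∧
    0 ≤ ((1 + y) ^ 2 * TQ h y / (1 + (EE k h y)⁻¹)).im ∧
    (y.re ≤ 1 / (6 * k) → 0 ≤ ((1 - y) ^ 2 * TQ h y / (1 + (EE k h y)⁻¹)).im) := by
  rcases le_total 0 y.re with hu | hu
  · exact ⟨fun _ => core1 hN hu h1 hv, core2 hN hu h1 hv, core3 hN hu h1 hv, fun h => core4 hN hu h1 hv h⟩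
  · obtain ⟨y₁, hy₁⟩ : ∃ y₁ : ℂ, y₁ = -(starRingEnd ℂ) y := ⟨_, rfl⟩
    have hre : y₁.re = -y.re := by rw [hy₁, neg_re, conj_re]
    have him : y₁.im = y.im := by rw [hy₁, neg_im, conj_im, neg_neg]
    have hns : normSq y₁ = normSq y := by rw [hy₁, normSq_neg, normSq_conj]
    have hu' : 0 ≤ y₁.re := by rw [hre]; linarith
    have h1' : normSq y₁ < 1 := by rw [hns]; exact h1
    have hv' : y₁.im = lam * (1 - normSq y₁) := by rw [hns, him]; exact hv
    obtain ⟨a1, a2⟩ := Quar_conj_aux k h y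
    rw [← hy₁] at a1 a2
    have hc : (starRingEnd ℂ) y₁ = -y := by rw [hy₁, map_neg, conj_conj]
    have b1 : (1 + y) ^ 2 * TQ h y / (1 + EE k h y) =
        (starRingEnd ℂ) ((1 - y₁) ^ 2 * TQ h y₁ / (1 + (EE k h y₁)⁻¹)) := by
      rw [map_div₀, map_mul, map_pow, map_sub, map_add, map_one, ← a1, ← a2, hc, sub_neg_eq_add]
    have b2 : (1 - y) ^ 2 * TQ h y / (1 + EE k h y) =
        (starRingEnd ℂ) ((1 + y₁) ^ 2 * TQ h y₁ / (1 + (EE k h y₁)⁻¹)) := by
      rw [map_div₀, map_mul, map_pow, map_add, map_add, map_one, ← a1, ← a2, hc, ← sub_eq_add_neg]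
    have a3 : (EE k h y)⁻¹ = (starRingEnd ℂ) (EE k h y₁) := by
      rw [a2, map_inv₀, inv_inv]
    have b3 : (1 + y) ^ 2 * TQ h y / (1 + (EE k h y)⁻¹) =
        (starRingEnd ℂ) ((1 - y₁) ^ 2 * TQ h y₁ / (1 + EE k h y₁)) := by
      rw [map_div₀, map_mul, map_pow, map_sub, map_add, map_one, ← a1, ← a3, hc, sub_neg_eq_add]
    have b4 : (1 - y) ^ 2 * TQ h y / (1 + (EE k h y)⁻¹) =
        (starRingEnd ℂ) ((1 + y₁) ^ 2 * TQ h y₁ / (1 + EE k h y₁)) := by
      rw [map_div₀, map_mul, map_pow, map_add, map_add, map_one, ← a1, ← a3, hc, ← sub_eq_add_neg]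
    rw [b1, b2, b3, b4]
    simp only [conj_im]
    refine ⟨fun h2 => ?_, ?_, ?_, fun h2 => ?_⟩
    · have := core4 hN hu' h1' hv' (by rw [hre]; linarith)
      linarith
    · have := core3 hN hu' h1' hv'
      linarith
    · have := core2 hN hu' h1' hv'
      linarith
    · have := core1 hN hu' h1' hv'
      linarith

private lemma Quar_exp {ε a : ℝ} (ha : a = Real.pi / 2 - ε) :
    exp (-(a * I)) = -I * exp (ε * I) ∧ exp (a * I) = I * exp (-(ε * I)) := by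
  constructor
  · have h1 : -((a : ℂ) * I) = -((Real.pi : ℂ) / 2 * I) + ε * I := by
      rw [ha]
      push_cast
      ring
    rw [h1, exp_add, exp_neg, exp_pi_div_two_mul_I, inv_I]
  · have h1 : (a : ℂ) * I = (Real.pi : ℂ) / 2 * I + -(ε * I) := by
      rw [ha]
      push_cast
      ring
    rw [h1, exp_add, exp_pi_div_two_mul_I]

theorem quar {k b lam h ε r g : ℝ} (hN : Num k b lam h) (hε : 0 < ε) (hε2 : ε < Real.pi / 2)
    (hlam : lam = Real.tan ε / 2) (hr : 0 < r) (hg : 0 < g) {t y : ℂ} (ht : t = r * exp (ε * I))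
    (hy : y = (t - 1) / (t + 1)) {a : ℝ} (ha : a = Real.pi / 2 - ε) :
    (-(1 / (6 * k)) ≤ y.re → (exp (-(a * I)) * W1 k h (g * I) y).im ≤ 0) ∧
    0 ≤ (exp (a * I) * W1 k h (g * I) y).im ∧
    (exp (-(a * I)) * W2 k h (g * I) y).im ≤ 0 ∧
    (y.re ≤ 1 / (6 * k) → 0 ≤ (exp (a * I) * W2 k h (g * I) y).im) := by
  obtain ⟨h1, h2⟩ := lens_up hε hε2 hr ht hy
  rw [← hlam] at h2
  obtain ⟨c1, c2, c3, c4⟩ := Quar_core hN h1 h2
  obtain ⟨e1, e2⟩ := Quar_exp ha
  have hcos : 0 < Real.cos ε := Real.cos_pos_of_mem_Ioo ⟨by linarith, hε2⟩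
  have htre : 0 < t.re := by
    rw [(Quar_t ht).1]
    positivity
  have hne := Quar_ne htre
  have hrc : (r : ℂ) ≠ 0 := by exact_mod_cast hr.ne'
  have hI : I * I = -1 := I_mul_I
  have hexp : exp (ε * I) * exp (-(ε * I)) = 1 := by
    rw [← exp_add, add_neg_cancel, exp_zero]
  -- the two identities
  have d1 : exp (ε * I) * (1 - y ^ 2) = ((r⁻¹ : ℝ) : ℂ) * (1 + y) ^ 2 := by
    have h3 : (1 + y) = 2 * t / (t + 1) := by
      rw [hy]
      field_simp
      ring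
    have h4 : 1 - y ^ 2 = 4 * t / (t + 1) ^ 2 := by
      rw [hy]
      field_simp
      ring
    rw [h3, h4, ofReal_inv]
    field_simp
    rw [ht]
    ring
  have d2 : exp (-(ε * I)) * (1 - y ^ 2) = (r : ℂ) * (1 - y) ^ 2 := by
    have h3 : (1 - y) = 2 / (t + 1) := by
      rw [hy]
      field_simp
      ring
    have h4 : 1 - y ^ 2 = 4 * t / (t + 1) ^ 2 := by
      rw [hy]
      field_simp
      ring
    rw [h3, h4]
    have h5 : exp (-(ε * I)) * t = r := by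
      rw [ht]
      linear_combination (r : ℂ) * hexp
    field_simp
    linear_combination 4 * h5
  have w1 : exp (-(a * I)) * W1 k h (g * I) y =
      ((g * r⁻¹ : ℝ) : ℂ) * ((1 + y) ^ 2 * TQ h y / (1 + EE k h y)) := by
    rw [e1]
    unfold W1
    rw [ofReal_mul, div_eq_mul_inv, div_eq_mul_inv]
    linear_combination (g : ℂ) * TQ h y * (1 + EE k h y)⁻¹ * d1 -
      exp (ε * I) * g * (1 - y ^ 2) * TQ h y * (1 + EE k h y)⁻¹ * hI
  have w2 : exp (a * I) * W1 k h (g * I) y =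
      -(((g * r : ℝ) : ℂ) * ((1 - y) ^ 2 * TQ h y / (1 + EE k h y))) := by
    rw [e2]
    unfold W1
    rw [ofReal_mul, div_eq_mul_inv, div_eq_mul_inv]
    linear_combination -(g : ℂ) * TQ h y * (1 + EE k h y)⁻¹ * d2 +
      exp (-(ε * I)) * g * (1 - y ^ 2) * TQ h y * (1 + EE k h y)⁻¹ * hI
  have w3 : exp (-(a * I)) * W2 k h (g * I) y =
      -(((g * r⁻¹ : ℝ) : ℂ) * ((1 + y) ^ 2 * TQ h y / (1 + (EE k h y)⁻¹))) := by
    rw [e1]
    unfold W2
    rw [ofReal_mul, div_eq_mul_inv, div_eq_mul_inv]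
    linear_combination -(g : ℂ) * TQ h y * (1 + (EE k h y)⁻¹)⁻¹ * d1 +
      exp (ε * I) * g * (1 - y ^ 2) * TQ h y * (1 + (EE k h y)⁻¹)⁻¹ * hI
  have w4 : exp (a * I) * W2 k h (g * I) y =
      ((g * r : ℝ) : ℂ) * ((1 - y) ^ 2 * TQ h y / (1 + (EE k h y)⁻¹)) := by
    rw [e2]
    unfold W2
    rw [ofReal_mul, div_eq_mul_inv, div_eq_mul_inv]
    linear_combination (g : ℂ) * TQ h y * (1 + (EE k h y)⁻¹)⁻¹ * d2 -
      exp (-(ε * I)) * g * (1 - y ^ 2) * TQ h y * (1 + (EE k h y)⁻¹)⁻¹ * hI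
  have hgr : 0 ≤ g * r⁻¹ := by positivity
  have hgr' : 0 ≤ g * r := by positivity
  rw [w1, w2, w3, w4]
  simp only [neg_im, im_ofReal_mul]
  refine ⟨fun h3 => mul_nonpos_of_nonneg_of_nonpos hgr (c1 h3), ?_, ?_, fun h3 => mul_nonneg hgr' (c4 h3)⟩
  · have := mul_nonpos_of_nonneg_of_nonpos hgr' c2
    linarith
  · have := mul_nonneg hgr c3
    linarith

theorem quar_conj {k b lam h ε r g : ℝ} (hN : Num k b lam h) (hε : 0 < ε) (hε2 : ε < Real.pi / 2)
    (hlam : lam = Real.tan ε / 2) (hr : 0 < r) (hg : 0 < g) {t y : ℂ} (ht : t = r * exp (-(ε * I)))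
    (hy : y = (t - 1) / (t + 1)) {a : ℝ} (ha : a = Real.pi / 2 - ε) :
    (-(1 / (6 * k)) ≤ y.re → 0 ≤ (exp (a * I) * W1 k h (-(g * I)) y).im) ∧
    (exp (-(a * I)) * W1 k h (-(g * I)) y).im ≤ 0 ∧
    0 ≤ (exp (a * I) * W2 k h (-(g * I)) y).im ∧
    (y.re ≤ 1 / (6 * k) → (exp (-(a * I)) * W2 k h (-(g * I)) y).im ≤ 0) := by
  obtain ⟨t', ht'⟩ : ∃ t' : ℂ, t' = (starRingEnd ℂ) t := ⟨_, rfl⟩
  obtain ⟨y', hy'⟩ : ∃ y' : ℂ, y' = (starRingEnd ℂ) y := ⟨_, rfl⟩
  have h1 : t' = r * exp (ε * I) := by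
    rw [ht', ht, map_mul, conj_ofReal, ← exp_conj]
    congr 2
    rw [map_neg, map_mul, conj_ofReal, conj_I]
    ring
  have h2 : y' = (t' - 1) / (t' + 1) := by
    rw [hy', hy, ht', map_div₀, map_sub, map_add, map_one]
  obtain ⟨c1, c2, c3, c4⟩ := quar hN.neg hε hε2 hlam hr hg h1 h2 ha
  have hre : y'.re = y.re := by rw [hy', conj_re]
  rw [hre] at c1 c4
  obtain ⟨a1, a2⟩ := Quar_conj_aux2 k h y
  rw [← hy'] at a1 a2
  have hc : (starRingEnd ℂ) y' = y := by rw [hy', conj_conj]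
  have hw1 : W1 k h (-(g * I)) y = (starRingEnd ℂ) (W1 k (-h) (g * I) y') := by
    unfold W1
    rw [map_div₀, map_mul, map_mul, map_sub, map_add, map_mul, map_one, map_pow, conj_ofReal, conj_I,
      ← a1, ← a2, hc]
    ring
  have hw2 : W2 k h (-(g * I)) y = (starRingEnd ℂ) (W2 k (-h) (g * I) y') := by
    unfold W2
    rw [map_neg, map_div₀, map_mul, map_mul, map_sub, map_add, map_mul, map_one, map_pow, map_inv₀,
      conj_ofReal, conj_I, ← a1, ← a2, hc]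
    ring
  have he1 : exp (a * I) = (starRingEnd ℂ) (exp (-(a * I))) := by
    rw [← exp_conj]
    congr 1
    rw [map_neg, map_mul, conj_ofReal, conj_I]
    ring
  have he2 : exp (-(a * I)) = (starRingEnd ℂ) (exp (a * I)) := by
    rw [← exp_conj]
    congr 1
    rw [map_mul, conj_ofReal, conj_I]
    ring
  have f1 : exp (a * I) * W1 k h (-(g * I)) y =
      (starRingEnd ℂ) (exp (-(a * I)) * W1 k (-h) (g * I) y') := by
    rw [map_mul, ← he1, ← hw1]
  have f2 : exp (-(a * I)) * W1 k h (-(g * I)) y =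
      (starRingEnd ℂ) (exp (a * I) * W1 k (-h) (g * I) y') := by
    rw [map_mul, ← he2, ← hw1]
  have f3 : exp (a * I) * W2 k h (-(g * I)) y =
      (starRingEnd ℂ) (exp (-(a * I)) * W2 k (-h) (g * I) y') := by
    rw [map_mul, ← he1, ← hw2]
  have f4 : exp (-(a * I)) * W2 k h (-(g * I)) y =
      (starRingEnd ℂ) (exp (a * I) * W2 k (-h) (g * I) y') := by
    rw [map_mul, ← he2, ← hw2]
  rw [f1, f2, f3, f4]
  simp only [conj_im]
  refine ⟨fun h3 => ?_, ?_, ?_, fun h3 => ?_⟩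
  · have := c1 h3
    linarith
  · linarith
  · linarith
  · have := c4 h3
    linarith

end Pool.Agent.MP07129f.TP
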