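import Pool.Agent.Lib.MP_07129f_an.TP.FunB
import Pool.Agent.Lib.MP_07129f_an.TP.Quar

/-!
TP-BdyV: the boundary inequalities for `V1`, `V2`.

PROOF.  At a point `z` of the circle, `z ≠ 1`, `z ≠ pt`: `NN σ c z = i n`, `n ≠ 0` real (`NN_bdy`, `NN_ne`), `z (2 σ / (1 - z) ^ 2)` is the
negative number `- 2 σ / ‖z - 1‖ ^ 2`, so `gg = δ k (- 2 σ / ‖z - 1‖ ^ 2) / (i n) = i g`, `g = 2 σ δ k / (‖z - 1‖ ^ 2 n)`.  `n > 0`: `quar` with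
`ε = δ π / 2`, `r = n ^ δ` (`tt_bdy`); `n < 0`: `quar_conj` with `r = (- n) ^ δ` and `- g > 0`.  `(1 - δ) π / 2 = π / 2 - δ π / 2`.
`near_pt`: `yy_re` with `x = 1 / (6 k)`: `‖N‖ ^ (2 δ) > 1 + x`, so `‖N‖ > (1 + x) ^ (1 / (2 δ))`, and `‖N‖ = ‖z - pt‖ / ‖z - 1‖ ≤ 2 / ‖z - 1‖`
(`NN_norm`); in the other case `‖N‖ ^ (2 δ) (1 + x) < 1`, `‖N‖ (1 + x) ^ (1 / (2 δ)) < 1`, `‖z - pt‖ = ‖N‖ ‖z - 1‖ ≤ 2 ‖N‖`.
-/

namespace Pool.Agent.MP07129f.TP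

open Complex Metric Set Filter Topology

variable {σ c δ k b h : ℝ} {z : ℂ}

private lemma BdyV_gg (h1 : ‖z‖ = 1) (hz : z ≠ 1) (hn : (NN σ c z).im ≠ 0) :
    gg σ c δ k z = ((δ * k * (2 * σ / ‖z - 1‖ ^ 2) / (NN σ c z).im : ℝ) : ℂ) * I := by
  obtain ⟨e1, e2⟩ := NN_bdy (σ := σ) (c := c) h1 hz
  have hn' : (((NN σ c z).im : ℝ) : ℂ) ≠ 0 := by exact_mod_cast hn
  unfold gg
  rw [e2]
  nth_rewrite 1 [e1]
  have e3 : ((-(2 * σ / ‖z - 1‖ ^ 2) : ℝ) : ℂ) / ((((NN σ c z).im : ℝ) : ℂ) * I) =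
      ((2 * σ / ‖z - 1‖ ^ 2 : ℝ) : ℂ) * I / (((NN σ c z).im : ℝ) : ℂ) := by
    rw [div_eq_div_iff (mul_ne_zero hn' I_ne_zero) hn', ofReal_neg]
    linear_combination (-(((2 * σ / ‖z - 1‖ ^ 2 : ℝ) : ℂ)) * (((NN σ c z).im : ℝ) : ℂ)) * I_mul_I
  rw [e3]
  push_cast
  ring

private lemma BdyV_k (hP : Par σ c δ k b h) : 0 < k := by
  have := hP.num.k_ge
  linarith

private lemma BdyV_A (hP : Par σ c δ k b h) (hz : z ≠ 1) : 0 < δ * k * (2 * σ / ‖z - 1‖ ^ 2) := by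
  have h1 : 0 < ‖z - 1‖ := norm_pos_iff.2 (sub_ne_zero.2 hz)
  have h2 := hP.δ0
  have h3 := hP.σ0
  have h4 := BdyV_k hP
  positivity

private lemma BdyV_eps (hP : Par σ c δ k b h) :
    0 < δ * Real.pi / 2 ∧ δ * Real.pi / 2 < Real.pi / 2 := by
  have h2 := hP.δ0
  have h3 := hP.δ1
  have h4 := Real.pi_pos
  constructor
  · positivity
  · nlinarith

theorem bdy_pos (hP : Par σ c δ k b h) (h1 : ‖z‖ = 1) (hz : z ≠ 1) (hn : 0 < (NN σ c z).im) {a : ℝ}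
    (ha : a = (1 - δ) * Real.pi / 2) :
    (-(1 / (6 * k)) ≤ (yy σ c δ z).re → (exp (-(a * I)) * V1 σ c δ k h z).im ≤ 0) ∧
    0 ≤ (exp (a * I) * V1 σ c δ k h z).im ∧
    (exp (-(a * I)) * V2 σ c δ k h z).im ≤ 0 ∧
    ((yy σ c δ z).re ≤ 1 / (6 * k) → 0 ≤ (exp (a * I) * V2 σ c δ k h z).im) := by
  obtain ⟨e1, -⟩ := NN_bdy (σ := σ) (c := c) h1 hz
  obtain ⟨hε, hε2⟩ := BdyV_eps hP
  have ht := (tt_bdy (δ := δ) e1).1 hn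
  have hg : 0 < δ * k * (2 * σ / ‖z - 1‖ ^ 2) / (NN σ c z).im := div_pos (BdyV_A hP hz) hn
  have key := quar hP.num hε hε2 rfl (Real.rpow_pos_of_pos hn δ) hg ht (y := yy σ c δ z) rfl
    (a := a) (by rw [ha]; ring)
  rw [← BdyV_gg h1 hz hn.ne'] at key
  exact key

theorem bdy_neg (hP : Par σ c δ k b h) (h1 : ‖z‖ = 1) (hz : z ≠ 1) (hn : (NN σ c z).im < 0) {a : ℝ}
    (ha : a = (1 - δ) * Real.pi / 2) :
    (-(1 / (6 * k)) ≤ (yy σ c δ z).re → 0 ≤ (exp (a * I) * V1 σ c δ k h z).im) ∧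
    (exp (-(a * I)) * V1 σ c δ k h z).im ≤ 0 ∧
    0 ≤ (exp (a * I) * V2 σ c δ k h z).im ∧
    ((yy σ c δ z).re ≤ 1 / (6 * k) → (exp (-(a * I)) * V2 σ c δ k h z).im ≤ 0) := by
  obtain ⟨e1, -⟩ := NN_bdy (σ := σ) (c := c) h1 hz
  obtain ⟨hε, hε2⟩ := BdyV_eps hP
  have ht := (tt_bdy (δ := δ) e1).2 hn
  have hn' : 0 < -(NN σ c z).im := by linarith
  have hg : 0 < δ * k * (2 * σ / ‖z - 1‖ ^ 2) / (-(NN σ c z).im) := div_pos (BdyV_A hP hz) hn'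
  have key := quar_conj hP.num hε hε2 rfl (Real.rpow_pos_of_pos hn' δ) hg ht (y := yy σ c δ z) rfl
    (a := a) (by rw [ha]; ring)
  have e2 : -(((δ * k * (2 * σ / ‖z - 1‖ ^ 2) / (-(NN σ c z).im) : ℝ) : ℂ) * I) = gg σ c δ k z := by
    rw [BdyV_gg h1 hz hn.ne, div_neg, ofReal_neg]
    ring
  rw [e2] at key
  exact key

/-- if one of the conditions on `Re yy` fails then `z` is very near to one of the two points -/
theorem near_pt (hP : Par σ c δ k b h) (h1 : ‖z‖ = 1) (hz : z ≠ 1) (hz2 : z ≠ pt σ c) {ρ : ℝ} (hρ : 0 < ρ)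
    (hδ : 2 < ρ * (1 + 1 / (6 * k)) ^ (1 / (2 * δ))) :
    (1 / (6 * k) < (yy σ c δ z).re → ‖z - 1‖ < ρ) ∧
    ((yy σ c δ z).re < -(1 / (6 * k)) → ‖z - pt σ c‖ < ρ) := by
  have hk := BdyV_k hP
  have hδ0 := hP.δ0
  have hx : 0 ≤ 1 / (6 * k) := by positivity
  generalize 1 / (6 * k) = x at hx hδ ⊢
  have hx1 : 0 < 1 + x := by linarith
  have hN := NN_ne hP.σ0 hP.σc hz hz2
  have hNn := NN_norm (σ := σ) (c := c) hP.σc hz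
  have hre : 0 ≤ (NN σ c z).re := by
    rw [NN_re hz]
    have e1 : normSq z = 1 := by rw [normSq_eq_norm_sq, h1]; norm_num
    rw [e1]
    simp
  obtain ⟨k1, k2⟩ := yy_re hP.δ0 hP.δ1 hN hre hx
  have hBd : 0 < (1 + x) ^ (1 / (2 * δ)) := Real.rpow_pos_of_pos hx1 _
  have hB : (((1 + x) ^ (1 / (2 * δ))) ^ δ) ^ 2 = 1 + x := by
    rw [← Real.rpow_natCast, ← Real.rpow_mul hx1.le, ← Real.rpow_mul hx1.le]
    have : 1 / (2 * δ) * δ * ((2 : ℕ) : ℝ) = 1 := by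
      push_cast
      field_simp
    rw [this, Real.rpow_one]
  generalize (1 + x) ^ (1 / (2 * δ)) = B at hBd hB hδ
  have hd1 : 0 < ‖z - 1‖ := norm_pos_iff.2 (sub_ne_zero.2 hz)
  have hd2 : 0 < ‖z - pt σ c‖ := norm_pos_iff.2 (sub_ne_zero.2 hz2)
  have hm1 : ‖z - 1‖ ≤ 2 := by
    refine (norm_sub_le _ _).trans ?_
    rw [h1, norm_one]
    norm_num
  have hm2 : ‖z - pt σ c‖ ≤ 2 := by
    refine (norm_sub_le _ _).trans ?_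
    rw [h1, pt_norm hP.σc]
    norm_num
  have hNpos : 0 < ‖NN σ c z‖ := norm_pos_iff.2 hN
  constructor
  · intro hy
    have h3 := k1 hy
    by_contra hcon
    rw [not_lt] at hcon
    have h4 : ‖NN σ c z‖ ≤ B := by
      rw [hNn, div_le_iff₀ hd1]
      nlinarith
    have h5 : ‖NN σ c z‖ ^ δ ≤ B ^ δ := Real.rpow_le_rpow hNpos.le h4 hδ0.le
    have h6 : (‖NN σ c z‖ ^ δ) ^ 2 ≤ (B ^ δ) ^ 2 :=
      pow_le_pow_left₀ (Real.rpow_nonneg hNpos.le δ) h5 2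
    rw [hB] at h6
    linarith
  · intro hy
    have h3 := k2 hy
    by_contra hcon
    rw [not_lt] at hcon
    have h4 : 1 ≤ ‖NN σ c z‖ * B := by
      rw [hNn, div_mul_eq_mul_div, le_div_iff₀ hd1]
      nlinarith
    have h5 : (1 : ℝ) ≤ (‖NN σ c z‖ * B) ^ δ := Real.one_le_rpow h4 hδ0.le
    rw [Real.mul_rpow hNpos.le hBd.le] at h5
    have h6 : 1 ≤ (‖NN σ c z‖ ^ δ * B ^ δ) ^ 2 := one_le_pow₀ h5
    rw [mul_pow, hB] at h6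
    linarith

end Pool.Agent.MP07129f.TP
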