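import Pool.Agent.Lib.MP_07129f_an.TP.LocA

/-!
TP-Blas: a finite Blaschke product with `ω 0 = 0`, not a rotation, takes the value `1` at two points of the circle.

PROOF.  `p = (1 + ω) / (1 - ω)`; `Re p > 0` in the disc, `p 0 = 1`.  At a point `ζ` of the circle with `ω ζ ≠ 1`, `p` is continuous and `Re p ζ = 0` (`‖ω ζ‖ = 1`).
(1) If `ω ≠ 1` on the circle: `Re p → 0` at all points of the circle, so `Re p ≤ 0` in the disc (`im_le_of_bdy` for `h = i p`, `F = ∅`; bounded:
`exists_tube` and compactness, or `p` is continuous on the closed disc), but `p 0 = 1`.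
(2) If `ω = 1` only at `w`: `a = w ω'(w) ≥ 1` real (`ang_deriv`), `g z = p z - a⁻¹ (w + z) / (w - z)`.  Near `w`, with `x = z / w - 1`, `ω z - 1 = a x + O(x ^ 2)`:
`p = - 1 + 2 / (1 - ω)`, `(w + z) / (w - z) = - 1 + 2 / (- x)`, `g = - 1 + a⁻¹ + 2 (1 / (1 - ω) + 1 / (a x))
= - 1 + a⁻¹ + 2 (a x + 1 - ω) / ((1 - ω) a x) = O(1)`.  So `g` is bounded near `w`; at the other points of the circle `g` is continuous with real part `0`
(`Re ((w + z) / (w - z)) = 0` on the circle), so `g` is bounded in the disc, and `Re g = 0` in the disc by `im_le_of_bdy` for `± i g`, `F = {w}`.  Hence `g` is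
constant, `g 0 = 1 - a⁻¹` is real with real part `0`, so `a = 1` and `g = 0`, `p = (w + z) / (w - z)`, `ω z = z / w`.
-/

namespace Pool.Agent.MP07129f.TP

open Complex Metric Set Filter Topology

private lemma blas_re {u v : ℂ} (h : ‖u‖ = ‖v‖) (hne : u ≠ v) : ((v + u) / (v - u)).re = 0 := by
  have hsub : v - u ≠ 0 := sub_ne_zero.2 hne.symm
  have h2 : normSq u = normSq v := by simp [Complex.normSq_eq_norm_sq, h]
  rw [normSq_apply, normSq_apply] at h2
  have h3 : normSq (v - u) ≠ 0 := fun h0 => hsub (normSq_eq_zero.1 h0)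
  rw [Complex.div_re, ← add_div, div_eq_zero_iff]
  left
  simp only [add_re, sub_re, add_im, sub_im]
  linarith

private lemma blas_max {g G : ℂ → ℂ} {F : Set ℂ} (hF : F.Finite)
    (hg : DifferentiableOn ℂ g (ball 0 1)) (hG : ContinuousOn G (closedBall 0 1))
    (hFs : ∀ z ∈ F, ‖z‖ = 1) (hgG : ∀ z, z ∉ F → g z = G z)
    (hre : ∀ ζ : ℂ, ‖ζ‖ = 1 → ζ ∉ F → (g ζ).re = 0) :
    ∀ z ∈ ball (0 : ℂ) 1, (g z).re = 0 := by
  obtain ⟨C, hC⟩ := (isCompact_closedBall (0 : ℂ) 1).exists_bound_of_continuousOn hG
  have hball : ∀ z ∈ ball (0 : ℂ) 1, g z = G z := by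
    intro z hz
    apply hgG
    intro hzF
    have := hFs z hzF
    rw [mem_ball_zero_iff] at hz
    linarith
  have key : ∀ s : ℝ, |s| = 1 → ∀ z ∈ ball (0 : ℂ) 1, s * (g z).re ≤ 0 := by
    intro s hs z hz
    have him : ∀ z : ℂ, ((s : ℂ) * (I * g z)).im = s * (g z).re := by
      intro z
      simp
    have := im_le_of_bdy (h := fun z => (s : ℂ) * (I * g z)) (B := C) (c := 0) (F := F)
      ((hg.const_mul I).const_mul (s : ℂ)) ?_ hF ?_ hz
    · rwa [him] at this
    · intro z hz
      rw [him]
      have h1 : |(g z).re| ≤ C := by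
        rw [hball z hz]
        exact (abs_re_le_norm _).trans (hC z (ball_subset_closedBall hz))
      calc s * (g z).re ≤ |s * (g z).re| := le_abs_self _
        _ = |(g z).re| := by rw [abs_mul, hs, one_mul]
        _ ≤ C := h1
    · intro ζ hζ κ hκ
      have hζ1 : ‖ζ‖ = 1 := by simpa using hζ.1
      have hζc : ζ ∈ closedBall (0 : ℂ) 1 := by simp [hζ1]
      have t1 : Tendsto G (𝓝[ball 0 1] ζ) (𝓝 (G ζ)) :=
        ((hG ζ hζc).mono ball_subset_closedBall)
      have t2 : Tendsto (fun z => s * (G z).re) (𝓝[ball 0 1] ζ) (𝓝 (s * (G ζ).re)) :=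
        ((continuous_re.tendsto _).comp t1).const_mul s
      have h0 : (G ζ).re = 0 := by
        rw [← hgG ζ hζ.2]
        exact hre ζ hζ1 hζ.2
      rw [h0, mul_zero] at t2
      filter_upwards [t2.eventually (gt_mem_nhds hκ), self_mem_nhdsWithin] with z h1 h2
      rw [him, hball z h2, zero_add]
      exact h1.le
  intro z hz
  have h1 := key 1 (by simp) z hz
  have h2 := key (-1) (by simp) z hz
  linarith

theorem two_points {ω : ℂ → ℂ} (hω : IsSchwarz ω) {R : ℝ} (hR : 1 < R)
    (hd : DifferentiableOn ℂ ω (ball 0 R)) (h1 : ∀ ζ : ℂ, ‖ζ‖ = 1 → ‖ω ζ‖ = 1)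
    (hc : ¬ ∃ c : ℂ, ∀ z ∈ ball (0 : ℂ) 1, ω z = c * z) :
    ∃ w₁ w₂ : ℂ, ‖w₁‖ = 1 ∧ ‖w₂‖ = 1 ∧ w₁ ≠ w₂ ∧ ω w₁ = 1 ∧ ω w₂ = 1 := by
  have han : ∀ z ∈ closedBall (0 : ℂ) 1, AnalyticAt ℂ ω z := by
    intro z hz
    rw [mem_closedBall_zero_iff] at hz
    apply hd.analyticAt
    apply isOpen_ball.mem_nhds
    rw [mem_ball_zero_iff]
    linarith
  have hlt : ∀ z ∈ ball (0 : ℂ) 1, ω z ≠ 1 := by
    intro z hz h
    have := hω.2.2 z hz
    rw [h] at this
    simp at this
  have hre : ∀ ζ : ℂ, ‖ζ‖ = 1 → ω ζ ≠ 1 → ((1 + ω ζ) / (1 - ω ζ)).re = 0 := by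
    intro ζ hζ hne
    exact blas_re (by rw [h1 ζ hζ]; simp) hne
  have hpd : DifferentiableOn ℂ (fun z => (1 + ω z) / (1 - ω z)) (ball 0 1) := by
    apply DifferentiableOn.div
    · exact (differentiableOn_const _).add hω.1
    · exact (differentiableOn_const _).sub hω.1
    · intro z hz h
      exact hlt z hz (sub_eq_zero.1 h).symm
  by_contra hcon
  push Not at hcon
  by_cases hex : ∃ w : ℂ, ‖w‖ = 1 ∧ ω w = 1
  · obtain ⟨w, hw, hw1⟩ := hex
    have hw0 : w ≠ 0 := by
      intro h
      rw [h] at hw
      simp at hw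
    have hwc : w ∈ closedBall (0 : ℂ) 1 := by simp [hw]
    have hne : ∀ z ∈ closedBall (0 : ℂ) 1, z ≠ w → ω z ≠ 1 := by
      intro z hz hzw
      rw [mem_closedBall_zero_iff] at hz
      rcases hz.lt_or_eq with h | h
      · exact hlt z (by simpa using h)
      · exact hcon w z hw h hzw.symm hw1
    obtain ⟨ha1, ha2⟩ := ang_deriv hω hw (han w hwc) hw1
    set a : ℂ := w * deriv ω w with ha
    have har : a = (a.re : ℂ) := by
      apply Complex.ext <;> simp [ha2]
    have ha0 : a ≠ 0 := by
      intro h
      rw [h] at ha1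
      simp at ha1
      linarith
    have hq0 : deriv ω w ≠ 0 := by
      intro h
      exact ha0 (by rw [ha, h, mul_zero])
    have hqan : AnalyticAt ℂ (dslope ω w) w := by
      obtain ⟨p, hp⟩ := han w hwc
      exact hp.has_fpower_series_dslope_fslope.analyticAt
    have hran : AnalyticAt ℂ (fun z => (dslope ω w z)⁻¹) w :=
      hqan.inv (by rw [dslope_same]; exact hq0)
    set r : ℂ → ℂ := fun z => (dslope ω w z)⁻¹ with hr
    have hrw : r w = w * a⁻¹ := by
      rw [hr]
      simp only [dslope_same]
      rw [ha]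
      field_simp
    set g : ℂ → ℂ := fun z => (1 + ω z) / (1 - ω z) - a⁻¹ * ((w + z) / (w - z)) with hg
    set G : ℂ → ℂ := Function.update g w (-1 + a⁻¹ - 2 * dslope r w w) with hG
    have hform : ∀ z ∈ closedBall (0 : ℂ) 1, z ≠ w → g z = -1 + a⁻¹ - 2 * dslope r w z := by
      intro z hz hzw
      have e1 : (z - w) * dslope ω w z = ω z - 1 := by
        have := sub_smul_dslope ω w z
        rw [smul_eq_mul, hw1] at this
        exact this
      have e2 : (z - w) * dslope r w z = r z - r w := by
        have := sub_smul_dslope r w z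
        rw [smul_eq_mul] at this
        exact this
      have hzw' : z - w ≠ 0 := sub_ne_zero.2 hzw
      have hwz' : w - z ≠ 0 := sub_ne_zero.2 hzw.symm
      have hω1 : 1 - ω z ≠ 0 := sub_ne_zero.2 (hne z hz hzw).symm
      have hq : dslope ω w z ≠ 0 := by
        intro h
        rw [h, mul_zero] at e1
        apply hω1
        linear_combination e1
      have hrz : r z = (dslope ω w z)⁻¹ := rfl
      have e3 : dslope r w z = (r z - w * a⁻¹) / (z - w) := by
        rw [eq_div_iff hzw', mul_comm, e2, hrw]
      have e4 : ω z = 1 + (z - w) * dslope ω w z := by linear_combination -e1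
      have e5 : (1 - ω z) = (w - z) * dslope ω w z := by rw [e4]; ring
      have e6 : (1 + ω z) / (1 - ω z) = -1 + 2 * r z / (w - z) := by
        rw [e5, hrz, e4]
        field_simp
        ring
      have e7 : (w + z) / (w - z) = -1 + 2 * w / (w - z) := by
        field_simp
        ring
      rw [hg]
      simp only
      rw [e6, e7, e3]
      have e8 : z - w = -(w - z) := by ring
      rw [e8, div_neg]
      field_simp
      ring
    have hGc : ContinuousOn G (closedBall 0 1) := by
      intro z hz
      by_cases hzw : z = w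
      · subst hzw
        have hcd : ContinuousAt (fun y => -1 + a⁻¹ - 2 * dslope r z y) z := by
          have : ContinuousAt (dslope r z) z :=
            continuousAt_dslope_same.2 hran.differentiableAt
          exact continuousAt_const.sub (continuousAt_const.mul this)
        apply hcd.continuousWithinAt.congr
        · intro y hy
          by_cases hyz : y = z
          · rw [hyz, hG, Function.update_self]
          · rw [hG, Function.update_of_ne hyz]
            exact hform y hy hyz
        · rw [hG, Function.update_self]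
      · have hgc : ContinuousAt g z := by
          have c1 : ContinuousAt ω z := (han z hz).continuousAt
          have c2 : ContinuousAt (fun y => (1 + ω y) / (1 - ω y)) z :=
            (continuousAt_const.add c1).div (continuousAt_const.sub c1)
              (sub_ne_zero.2 (hne z hz hzw).symm)
          have c3 : ContinuousAt (fun y => (w + y) / (w - y)) z :=
            (continuousAt_const.add continuousAt_id).div
              (continuousAt_const.sub continuousAt_id) (sub_ne_zero.2 (Ne.symm hzw))
          exact c2.sub (continuousAt_const.mul c3)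
        have : G =ᶠ[𝓝 z] g := by
          filter_upwards [isOpen_ne.mem_nhds hzw] with y hy
          rw [hG, Function.update_of_ne hy]
        exact (hgc.congr this.symm).continuousWithinAt
    have hgd : DifferentiableOn ℂ g (ball 0 1) := by
      apply hpd.sub
      apply DifferentiableOn.const_mul
      apply DifferentiableOn.div
      · exact (differentiableOn_const _).add differentiableOn_id
      · exact (differentiableOn_const _).sub differentiableOn_id
      · intro z hz h
        rw [mem_ball_zero_iff] at hz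
        have : w = z := sub_eq_zero.1 h
        rw [← this, hw] at hz
        exact lt_irrefl _ hz
    have hRe := blas_max (g := g) (G := G) (F := {w}) (finite_singleton w) hgd hGc
      (by intro z hz; rw [mem_singleton_iff.1 hz]; exact hw)
      (by
        intro z hz
        rw [hG, Function.update_of_ne (by simpa using hz)])
      (by
        intro ζ hζ hζw
        have hζw' : ζ ≠ w := by simpa using hζw
        have hζc : ζ ∈ closedBall (0 : ℂ) 1 := by simp [hζ]
        have r1 := hre ζ hζ (hne ζ hζc hζw')
        have r2 : ((w + ζ) / (w - ζ)).re = 0 := blas_re (by rw [hζ, hw]) hζw'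
        rw [hg]
        simp only
        rw [sub_re, r1, har, ← ofReal_inv, re_ofReal_mul, r2]
        simp)
    have hgan : AnalyticOnNhd ℂ g (ball 0 1) := hgd.analyticOnNhd isOpen_ball
    obtain ⟨c, hcst⟩ := AnalyticOnNhd.eq_const_of_re_eq_const hgan hRe isOpen_ball
      ((convex_ball (0 : ℂ) 1).isConnected ⟨0, by simp⟩)
    have h0m : (0 : ℂ) ∈ ball (0 : ℂ) 1 := by simp
    have hg0 : g 0 = 1 - a⁻¹ := by
      rw [hg]
      simp only [hω.2.1, add_zero, sub_zero, div_one, div_self hw0, mul_one]
    have hre0 := hRe 0 h0m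
    have har1 : a.re = 1 := by
      rw [hg0, sub_re, har, ← ofReal_inv, ofReal_re, one_re] at hre0
      have hpos : a.re ≠ 0 := by linarith
      have : (a.re)⁻¹ = 1 := by linarith
      rwa [inv_eq_one] at this
    have ha11 : a = 1 := by rw [har, har1]; simp
    have hc0 : c = 0 := by
      rw [← hcst 0 h0m, hg0, ha11]
      simp
    apply hc
    refine ⟨w⁻¹, ?_⟩
    intro z hz
    have e := hcst z hz
    rw [hc0, hg] at e
    simp only [ha11, inv_one, one_mul] at e
    have d1 : 1 - ω z ≠ 0 := sub_ne_zero.2 (hlt z hz).symm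
    have d2 : w - z ≠ 0 := by
      intro h
      rw [mem_ball_zero_iff] at hz
      have : w = z := sub_eq_zero.1 h
      rw [← this, hw] at hz
      exact lt_irrefl _ hz
    rw [sub_eq_zero, div_eq_div_iff d1 d2] at e
    rw [eq_comm, inv_mul_eq_iff_eq_mul₀ hw0]
    linear_combination -e / 2
  · push Not at hex
    have hRe := blas_max (g := fun z => (1 + ω z) / (1 - ω z))
      (G := fun z => (1 + ω z) / (1 - ω z)) (F := ∅) finite_empty hpd
      (by
        intro z hz
        have c1 : ContinuousAt ω z := (han z hz).continuousAt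
        apply ContinuousAt.continuousWithinAt
        apply (continuousAt_const.add c1).div (continuousAt_const.sub c1)
        apply sub_ne_zero.2
        rw [mem_closedBall_zero_iff] at hz
        rcases hz.lt_or_eq with h | h
        · exact (hlt z (by simpa using h)).symm
        · exact (hex z h).symm)
      (by simp) (by simp)
      (by
        intro ζ hζ _
        exact hre ζ hζ (hex ζ hζ))
    have := hRe 0 (by simp)
    simp [hω.2.1] at this

end Pool.Agent.MP07129f.TP
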