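import Pool.Agent.Lib.MP_07129f_an.TP.Defs

/-!
TP-CoreA: bounds for the polynomials `TQ`, `SP`.

PROOF.  `y = u + i v`, `q = 1 - u ^ 2 - v ^ 2` (`normSq y = u ^ 2 + v ^ 2`), `v = lam * q`, so `0 < v ≤ lam ≤ 1 / 16000`, and
`lam ≤ (1 - b) / 16000` (from `hk`, `klam`).  Real and imaginary parts (expand with `Complex.ext_iff`-type simp, `pow_two`, `pow_three`):
`Re T = 1 + 3 u ^ 2 - 3 v ^ 2 + 4 h v (1 - 3 u ^ 2 + v ^ 2)`, `Im T = 6 u v - 4 h u (1 - u ^ 2 + 3 v ^ 2)`,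
`Re S = k (u + u ^ 3 - 3 u v ^ 2 + 4 h u v (1 - u ^ 2 + v ^ 2))`, `Im S = k (v (1 + 3 u ^ 2 - v ^ 2) + h ((1 - u ^ 2 + v ^ 2) ^ 2 - 4 u ^ 2 v ^ 2))`.
`TQ_re`: `‖y‖ ≤ 1`, `|v| ≤ lam`, `|h| ≤ lam`, `|1 - 3 u ^ 2 + v ^ 2| ≤ 4`.
`TQ_im`: `1 - u ^ 2 + 3 v ^ 2 = q + 4 v ^ 2`, and `|h| (q + 4 v ^ 2) ≤ b lam q + 4 b lam v ^ 2 ≤ v + 4 lam v ^ 2 ≤ (5 / 4) v`, so
`u v ≤ Im T ≤ 11 u v`.
`SP_im`: `|(1 - u ^ 2 + v ^ 2) ^ 2 - 4 u ^ 2 v ^ 2| ≤ (q + 2 v ^ 2) ^ 2 + 4 u ^ 2 v ^ 2 ≤ q (1 + 8 lam ^ 2)`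
(`4 v ^ 4 = 4 q lam v ^ 3`, `4 u ^ 2 v ^ 2 = 4 u ^ 2 v lam q`, `q ≤ 1`), so `|h| |..| ≤ b lam q (1 + 8 lam ^ 2) = b v (1 + 8 lam ^ 2)` and
`Im S ≥ k v (1 - lam ^ 2 - b (1 + 8 lam ^ 2)) ≥ k v (1 - b) / 2 = 500 v`; `SP_im_abs`: `|Im (y + y ^ 3)| ≤ 4 |v|`, `|h| ‖1 - y ^ 2‖ ^ 2 ≤ 4 lam`, so `|Im S| ≤ 8 k lam ≤ 1 / 2`.
`EE_re`: `Re E = e ^ (2 s) cos (2 m)`, `E⁻¹ = exp (- 2 S)`, `|2 m| ≤ 1 < π / 2`.
-/

namespace Pool.Agent.MP07129f.TP

open Complex Metric Set Filter Topology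

variable {k b lam h : ℝ} {y : ℂ}

private theorem CoreA_TQ_re (h : ℝ) (y : ℂ) :
    (TQ h y).re = 1 + 3 * y.re ^ 2 - 3 * y.im ^ 2 +
      4 * h * y.im * (1 - 3 * y.re ^ 2 + y.im ^ 2) := by
  simp only [TQ, pow_succ, pow_zero, one_mul, Complex.add_re, Complex.sub_re, Complex.mul_re,
    Complex.one_re, Complex.mul_im, Complex.sub_im, Complex.one_im, Complex.ofReal_re,
    Complex.ofReal_im, Complex.I_re, Complex.I_im, Complex.re_ofNat, Complex.im_ofNat]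
  ring

private theorem CoreA_TQ_im (h : ℝ) (y : ℂ) :
    (TQ h y).im = 6 * y.re * y.im - 4 * h * y.re * (1 - y.re ^ 2 + 3 * y.im ^ 2) := by
  simp only [TQ, pow_succ, pow_zero, one_mul, Complex.add_im, Complex.sub_re, Complex.mul_re,
    Complex.one_re, Complex.mul_im, Complex.sub_im, Complex.one_im, Complex.ofReal_re,
    Complex.ofReal_im, Complex.I_re, Complex.I_im, Complex.re_ofNat, Complex.im_ofNat]
  ring

private theorem CoreA_SP_re (k h : ℝ) (y : ℂ) :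
    (SP k h y).re = k * y.re * (1 + y.re ^ 2 - 3 * y.im ^ 2 +
      4 * h * y.im * (1 - y.re ^ 2 + y.im ^ 2)) := by
  simp only [SP, pow_succ, pow_zero, one_mul, Complex.add_re, Complex.add_im, Complex.sub_re,
    Complex.mul_re, Complex.one_re, Complex.mul_im, Complex.sub_im, Complex.one_im,
    Complex.ofReal_re, Complex.ofReal_im, Complex.I_re, Complex.I_im]
  ring

private theorem CoreA_SP_im (k h : ℝ) (y : ℂ) :
    (SP k h y).im = k * (y.im * (1 + 3 * y.re ^ 2 - y.im ^ 2) +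
      h * ((1 - y.re ^ 2 + y.im ^ 2) ^ 2 - 4 * y.re ^ 2 * y.im ^ 2)) := by
  simp only [SP, pow_succ, pow_zero, one_mul, Complex.add_re, Complex.add_im, Complex.sub_re,
    Complex.mul_re, Complex.one_re, Complex.mul_im, Complex.sub_im, Complex.one_im,
    Complex.ofReal_re, Complex.ofReal_im, Complex.I_re, Complex.I_im]
  ring

private theorem CoreA_normSq (y : ℂ) : normSq y = y.re ^ 2 + y.im ^ 2 := by
  rw [normSq_apply]; ring

private theorem CoreA_le_one (h1 : ‖y‖ ≤ 1) : y.re ^ 2 + y.im ^ 2 ≤ 1 := by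
  rw [← CoreA_normSq, normSq_eq_norm_sq]
  nlinarith [norm_nonneg y]

theorem Num.k_ge (hN : Num k b lam h) : 1000 ≤ k := by
  have h1 := hN.hk
  have h2 := hN.b0
  have h3 := hN.b1
  have h4 : 0 < k := by
    by_contra hc
    push Not at hc
    nlinarith
  nlinarith

theorem Num.lam_le (hN : Num k b lam h) : lam ≤ (1 - b) / 16000 := by
  have h1 := hN.hk
  have h2 := hN.b0
  have h3 := hN.b1
  have h4 := hN.klam
  have h5 := hN.k_ge
  have h6 : 0 < 1 - b := by linarith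
  have h7 : k * lam * (1 - b) ≤ 1 / 16 * (1 - b) := mul_le_mul_of_nonneg_right h4 h6.le
  have h8 : k * lam * (1 - b) = 1000 * lam := by
    rw [← h1]; ring
  linarith

theorem Num.h_le (hN : Num k b lam h) : |h| ≤ lam := by
  have h1 := hN.hh
  have h2 := hN.b0
  have h3 := hN.b1
  have h4 := hN.lam0
  nlinarith

theorem Num.neg (hN : Num k b lam h) : Num k b lam (-h) :=
  ⟨hN.b0, hN.b1, hN.hk, hN.lam0, hN.klam, by rw [abs_neg]; exact hN.hh⟩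

private theorem Num.lam_small (hN : Num k b lam h) : lam ≤ 1 / 16000 := by
  have h1 := hN.lam_le
  have h2 := hN.b0
  linarith

theorem lens_bd (hN : Num k b lam h) (h1 : normSq y < 1) (hv : y.im = lam * (1 - normSq y)) :
    ‖y‖ ≤ 1 ∧ 0 < y.im ∧ y.im ≤ lam := by
  have h2 := hN.lam0
  have h3 := normSq_nonneg y
  refine ⟨?_, ?_, ?_⟩
  · rw [normSq_eq_norm_sq] at h1
    nlinarith [norm_nonneg y]
  · rw [hv]
    exact mul_pos h2 (by linarith)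
  · rw [hv]
    nlinarith

theorem TQ_norm (hN : Num k b lam h) (h1 : ‖y‖ ≤ 1) : ‖TQ h y‖ ≤ 5 := by
  have h2 := hN.h_le
  have h3 := hN.lam_small
  have h0 := norm_nonneg y
  have e1 : ‖(1 : ℂ) + 3 * y ^ 2‖ ≤ 4 := by
    refine (norm_add_le _ _).trans ?_
    rw [norm_one, norm_mul, norm_pow]
    have : ‖(3 : ℂ)‖ = 3 := by simp
    rw [this]
    nlinarith
  have e2 : ‖1 - y ^ 2‖ ≤ 2 := by
    refine (norm_sub_le _ _).trans ?_
    rw [norm_one, norm_pow]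
    nlinarith
  have e3 : ‖4 * (h : ℂ) * I * (y * (1 - y ^ 2))‖ ≤ 8 * |h| := by
    rw [norm_mul, norm_mul, norm_mul, norm_mul, Complex.norm_I, Complex.norm_real, Real.norm_eq_abs]
    have : ‖(4 : ℂ)‖ = 4 := by simp
    rw [this]
    have e4 : ‖y‖ * ‖1 - y ^ 2‖ ≤ 1 * 2 := mul_le_mul h1 e2 (norm_nonneg _) (by norm_num)
    nlinarith [abs_nonneg h]
  unfold TQ
  refine (norm_sub_le _ _).trans ?_
  linarith

private theorem CoreA_hv (hN : Num k b lam h) {w A : ℝ} (hw : |w| ≤ lam) (hA : |A| ≤ 4) :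
    |4 * h * w * A| ≤ 1 / 1000 := by
  have h2 := hN.h_le
  have h3 := hN.lam_small
  have h4 := hN.lam0
  rw [abs_mul, abs_mul, abs_mul]
  have e : |(4 : ℝ)| = 4 := by norm_num
  rw [e]
  have e1 : 4 * |h| * |w| ≤ 4 * lam * lam := by
    have := mul_le_mul h2 hw (abs_nonneg _) h4.le
    nlinarith
  have e2 : 4 * |h| * |w| * |A| ≤ 4 * lam * lam * 4 :=
    mul_le_mul e1 hA (abs_nonneg _) (by positivity)
  have e3 : lam * lam ≤ 1 / 16000 * (1 / 16000) := mul_le_mul h3 h3 h4.le (by norm_num)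
  nlinarith

private theorem CoreA_vsq (hN : Num k b lam h) {w : ℝ} (hw : |w| ≤ lam) : w ^ 2 ≤ 1 / 16000 := by
  have h3 := hN.lam_small
  have h4 := hN.lam0
  rw [← sq_abs]
  have := abs_nonneg w
  nlinarith

theorem TQ_re (hN : Num k b lam h) (h1 : ‖y‖ ≤ 1) (hv : |y.im| ≤ lam) : 4 / 5 ≤ (TQ h y).re := by
  rw [CoreA_TQ_re]
  have h2 := CoreA_le_one h1
  have h3 := sq_nonneg y.re
  have h4 := sq_nonneg y.im
  have h5 : |1 - 3 * y.re ^ 2 + y.im ^ 2| ≤ 4 := by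
    rw [abs_le]; constructor <;> linarith
  have h6 := (abs_le.1 (CoreA_hv hN hv h5)).1
  have h7 := CoreA_vsq hN hv
  linarith

theorem TQ_im (hN : Num k b lam h) (hu : 0 ≤ y.re) (h1 : normSq y < 1)
    (hv : y.im = lam * (1 - normSq y)) : 0 ≤ (TQ h y).im ∧ (TQ h y).im ≤ 11 * y.im := by
  obtain ⟨g1, g2, g3⟩ := lens_bd hN h1 hv
  rw [CoreA_TQ_im]
  have h2 := CoreA_le_one g1
  have hb0 := hN.b0
  have hb1 := hN.b1
  have hl := hN.lam0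
  have hls := hN.lam_small
  have hh := hN.hh
  rw [CoreA_normSq] at h1 hv
  have e1 : |h| * (1 - y.re ^ 2 + 3 * y.im ^ 2) ≤ 5 / 4 * y.im := by
    have f1 : 0 ≤ 1 - y.re ^ 2 + 3 * y.im ^ 2 := by nlinarith [sq_nonneg y.im]
    have f2 : |h| * (1 - y.re ^ 2 + 3 * y.im ^ 2) ≤ (b * lam) * (1 - y.re ^ 2 + 3 * y.im ^ 2) :=
      mul_le_mul_of_nonneg_right hh f1
    have f3 : (b * lam) * (1 - y.re ^ 2 + 3 * y.im ^ 2) ≤ (1 * lam) * (1 - y.re ^ 2 + 3 * y.im ^ 2) := by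
      refine mul_le_mul_of_nonneg_right ?_ f1
      exact mul_le_mul_of_nonneg_right hb1.le hl.le
    have f4 : (1 * lam) * (1 - y.re ^ 2 + 3 * y.im ^ 2) = y.im + 4 * lam * y.im * y.im := by
      have : (1 * lam) * (1 - y.re ^ 2 + 3 * y.im ^ 2) =
        lam * (1 - (y.re ^ 2 + y.im ^ 2)) + 4 * lam * y.im * y.im := by ring
      rw [this, ← hv]
    have f5 : 4 * lam * y.im * y.im ≤ 1 / 4 * y.im := by
      refine mul_le_mul_of_nonneg_right ?_ g2.le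
      nlinarith
    linarith
  have e2 : |h * (1 - y.re ^ 2 + 3 * y.im ^ 2)| ≤ 5 / 4 * y.im := by
    rw [abs_mul, abs_of_nonneg (a := 1 - y.re ^ 2 + 3 * y.im ^ 2)]
    · exact e1
    · nlinarith [sq_nonneg y.im]
  have e3 := abs_le.1 e2
  have e4 : 4 * h * y.re * (1 - y.re ^ 2 + 3 * y.im ^ 2) =
      4 * y.re * (h * (1 - y.re ^ 2 + 3 * y.im ^ 2)) := by ring
  rw [e4]
  have hu1 : y.re ≤ 1 := by nlinarith [sq_nonneg y.im]
  have e5 : 4 * y.re * (h * (1 - y.re ^ 2 + 3 * y.im ^ 2)) ≤ 4 * y.re * (5 / 4 * y.im) :=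
    mul_le_mul_of_nonneg_left e3.2 (by positivity)
  have e6 : 4 * y.re * -(5 / 4 * y.im) ≤ 4 * y.re * (h * (1 - y.re ^ 2 + 3 * y.im ^ 2)) :=
    mul_le_mul_of_nonneg_left e3.1 (by positivity)
  have e7 : 0 ≤ y.re * y.im := mul_nonneg hu g2.le
  have e8 : y.re * y.im ≤ 1 * y.im := mul_le_mul_of_nonneg_right hu1 g2.le
  constructor <;> nlinarith

theorem SP_im_abs (hN : Num k b lam h) (h1 : ‖y‖ ≤ 1) (hv : |y.im| ≤ lam) :
    |(SP k h y).im| ≤ 1 / 2 := by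
  rw [CoreA_SP_im]
  have h2 := CoreA_le_one h1
  have h3 := sq_nonneg y.re
  have h4 := sq_nonneg y.im
  have hk := hN.k_ge
  have hkl := hN.klam
  have hh := hN.h_le
  have hl := hN.lam0
  have e1 : |y.im * (1 + 3 * y.re ^ 2 - y.im ^ 2)| ≤ lam * 4 := by
    rw [abs_mul]
    refine mul_le_mul hv ?_ (abs_nonneg _) hl.le
    rw [abs_le]; constructor <;> linarith
  have e2 : |h * ((1 - y.re ^ 2 + y.im ^ 2) ^ 2 - 4 * y.re ^ 2 * y.im ^ 2)| ≤ lam * 4 := by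
    rw [abs_mul]
    refine mul_le_mul hh ?_ (abs_nonneg _) hl.le
    rw [abs_le]; constructor
    · have : 4 * y.re ^ 2 * y.im ^ 2 ≤ (y.re ^ 2 + y.im ^ 2) ^ 2 := by
        nlinarith [sq_nonneg (y.re ^ 2 - y.im ^ 2)]
      have : (y.re ^ 2 + y.im ^ 2) ^ 2 ≤ 1 := by nlinarith
      nlinarith [sq_nonneg (1 - y.re ^ 2 + y.im ^ 2)]
    · have f1 : 0 ≤ 1 - y.re ^ 2 + y.im ^ 2 := by linarith
      have f2 : 1 - y.re ^ 2 + y.im ^ 2 ≤ 2 := by linarith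
      have f3 : (1 - y.re ^ 2 + y.im ^ 2) ^ 2 ≤ 4 := by nlinarith
      nlinarith [mul_nonneg h3 h4]
  rw [abs_mul, abs_of_nonneg (a := k) (by linarith)]
  have e3 := (abs_add_le (y.im * (1 + 3 * y.re ^ 2 - y.im ^ 2))
    (h * ((1 - y.re ^ 2 + y.im ^ 2) ^ 2 - 4 * y.re ^ 2 * y.im ^ 2)))
  have e4 : k * |y.im * (1 + 3 * y.re ^ 2 - y.im ^ 2) +
    h * ((1 - y.re ^ 2 + y.im ^ 2) ^ 2 - 4 * y.re ^ 2 * y.im ^ 2)| ≤ k * (lam * 4 + lam * 4) :=
    mul_le_mul_of_nonneg_left (by linarith) (by linarith)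
  nlinarith

theorem SP_im (hN : Num k b lam h) (h1 : normSq y < 1) (hv : y.im = lam * (1 - normSq y)) :
    500 * y.im ≤ (SP k h y).im := by
  obtain ⟨g1, g2, g3⟩ := lens_bd hN h1 hv
  rw [CoreA_SP_im]
  have h2 := CoreA_le_one g1
  have h3 := sq_nonneg y.re
  have h4 := sq_nonneg y.im
  have hb0 := hN.b0
  have hb1 := hN.b1
  have hl := hN.lam0
  have hls := hN.lam_small
  have hll := hN.lam_le
  have hk := hN.k_ge
  have hhk := hN.hk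
  have hh := hN.hh
  rw [CoreA_normSq] at h1 hv
  set q : ℝ := 1 - (y.re ^ 2 + y.im ^ 2) with hq
  have hq0 : 0 < q := by rw [hq]; linarith
  have hq1 : q ≤ 1 := by rw [hq]; linarith
  have e0 : |(1 - y.re ^ 2 + y.im ^ 2) ^ 2 - 4 * y.re ^ 2 * y.im ^ 2| ≤ q ^ 2 + 4 * y.im ^ 2 := by
    have f1 : (1 - y.re ^ 2 + y.im ^ 2) ^ 2 + 4 * y.re ^ 2 * y.im ^ 2 = q ^ 2 + 4 * y.im ^ 2 := by
      rw [hq]; ring
    rw [← f1, abs_le]
    constructor
    · nlinarith [sq_nonneg (1 - y.re ^ 2 + y.im ^ 2), mul_nonneg h3 h4]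
    · nlinarith [sq_nonneg (1 - y.re ^ 2 + y.im ^ 2), mul_nonneg h3 h4]
  have e1 : q ^ 2 + 4 * y.im ^ 2 ≤ q * (1 + 4 * lam ^ 2) := by
    rw [hv]
    have : q ^ 2 + 4 * (lam * q) ^ 2 = q * (1 + 4 * lam ^ 2) * q := by ring
    rw [this]
    have : q * (1 + 4 * lam ^ 2) * q ≤ q * (1 + 4 * lam ^ 2) * 1 :=
      mul_le_mul_of_nonneg_left hq1 (by positivity)
    linarith
  have e2 : |h * ((1 - y.re ^ 2 + y.im ^ 2) ^ 2 - 4 * y.re ^ 2 * y.im ^ 2)| ≤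
      b * y.im * (1 + 4 * lam ^ 2) := by
    rw [abs_mul]
    have : |h| * |(1 - y.re ^ 2 + y.im ^ 2) ^ 2 - 4 * y.re ^ 2 * y.im ^ 2| ≤
        (b * lam) * (q * (1 + 4 * lam ^ 2)) :=
      mul_le_mul hh (e0.trans e1) (abs_nonneg _) (by positivity)
    refine this.trans (le_of_eq ?_)
    rw [hv]; ring
  have e3 := (abs_le.1 e2).1
  have hlam2 : lam ^ 2 ≤ (1 - b) / 16000 := by nlinarith
  have hv2 : y.im ^ 2 ≤ lam ^ 2 := by nlinarith
  have hbl : b * (4 * lam ^ 2) ≤ 4 * lam ^ 2 := by nlinarith [sq_nonneg lam]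
  have e4 : y.im * ((1 - b) / 2) ≤ y.im * (1 + 3 * y.re ^ 2 - y.im ^ 2) - b * y.im * (1 + 4 * lam ^ 2) := by
    have f1 : y.im * (1 + 3 * y.re ^ 2 - y.im ^ 2) - b * y.im * (1 + 4 * lam ^ 2) =
      y.im * (1 + 3 * y.re ^ 2 - y.im ^ 2 - b - b * (4 * lam ^ 2)) := by ring
    rw [f1]
    refine mul_le_mul_of_nonneg_left ?_ g2.le
    linarith
  have e5 : k * (y.im * ((1 - b) / 2)) ≤ k * (y.im * (1 + 3 * y.re ^ 2 - y.im ^ 2) +
      h * ((1 - y.re ^ 2 + y.im ^ 2) ^ 2 - 4 * y.re ^ 2 * y.im ^ 2)) :=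
    mul_le_mul_of_nonneg_left (by linarith) (by linarith)
  have e6 : k * (y.im * ((1 - b) / 2)) = 500 * y.im := by
    have : k * (y.im * ((1 - b) / 2)) = (k * (1 - b)) * y.im / 2 := by ring
    rw [this, hhk]; ring
  linarith

theorem SP_re (hN : Num k b lam h) (hu : 0 ≤ y.re) (h1 : normSq y < 1)
    (hv : y.im = lam * (1 - normSq y)) : 0 ≤ (SP k h y).re ∧ (SP k h y).re ≤ 3 * k * y.re := by
  obtain ⟨g1, g2, g3⟩ := lens_bd hN h1 hv
  rw [CoreA_SP_re]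
  have h2 := CoreA_le_one g1
  have h3 := sq_nonneg y.re
  have h4 := sq_nonneg y.im
  have hk := hN.k_ge
  have hw : |y.im| ≤ lam := by rw [abs_of_pos g2]; exact g3
  have h5 : |1 - y.re ^ 2 + y.im ^ 2| ≤ 4 := by
    rw [abs_le]; constructor <;> linarith
  have h6 := abs_le.1 (CoreA_hv hN hw h5)
  have h7 := CoreA_vsq hN hw
  have hku : 0 ≤ k * y.re := mul_nonneg (by linarith) hu
  constructor
  · exact mul_nonneg hku (by linarith)
  · have : k * y.re * (1 + y.re ^ 2 - 3 * y.im ^ 2 + 4 * h * y.im * (1 - y.re ^ 2 + y.im ^ 2)) ≤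
        k * y.re * 3 := mul_le_mul_of_nonneg_left (by linarith) hku
    linarith

/-- `Re e ^ (2 S) > 0`, `Re e ^ (- 2 S) > 0` -/
theorem EE_re (hN : Num k b lam h) (h1 : ‖y‖ ≤ 1) (hv : |y.im| ≤ lam) :
    0 < (EE k h y).re ∧ 0 < ((EE k h y)⁻¹).re := by
  have h2 := abs_le.1 (SP_im_abs hN h1 hv)
  have hpi := Real.pi_gt_three
  have hcos : ∀ t : ℝ, |t| ≤ 1 → 0 < Real.cos t := by
    intro t ht
    have := abs_le.1 ht
    exact Real.cos_pos_of_mem_Ioo ⟨by linarith, by linarith⟩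
  have e1 : (2 * SP k h y).im = 2 * (SP k h y).im := by
    simp [Complex.mul_im]
  constructor
  · unfold EE
    rw [Complex.exp_re]
    refine mul_pos (Real.exp_pos _) (hcos _ ?_)
    rw [e1, abs_le]; constructor <;> linarith
  · unfold EE
    rw [← Complex.exp_neg, Complex.exp_re]
    refine mul_pos (Real.exp_pos _) (hcos _ ?_)
    rw [Complex.neg_im, e1, abs_neg, abs_le]; constructor <;> linarith

end Pool.Agent.MP07129f.TP
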