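import Pool.Agent.Lib.MP_07129f_an.TP.CoreA

/-!
TP-CoreB: the four inequalities in the right half of the lens.

PROOF.  `y = u + i v`, `0 < v = lam (1 - u ^ 2 - v ^ 2)`, `v ≤ lam ≤ 1 / 16000`, `S = s + i m`, `s ≥ 0`, `500 v ≤ m ≤ 1 / 2`,
`E = e ^ (2 s) (cos 2 m + i sin 2 m)`, `D = 1 + E`, `D' = 1 + E⁻¹`, both with positive real part.
For `w`, `D` with `Re D > 0`: `Im (w / D)` has the sign of `Im w Re D - Re w Im D` (`Complex.div_im`).
(a) `Im D ≥ m Re D`: `Im D cos m - Re D sin m = (e ^ (2 s) - 1) sin m ≥ 0` and `sin m ≥ m cos m` (`m ≤ tan m`).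
`core1`: `w = (1 + y) ^ 2 T`: `Re w ≥ 1 / 2` and `Im w ≤ 64 v`, so `Im w Re D ≤ 64 v Re D ≤ m Re w Re D ≤ Re w Im D`.
`core2`: `w = (1 - y) ^ 2 T`, `v ≤ 2 lam (1 - u)`: `Re w ≥ (1 - u) ^ 2 / 2`, `Im w ≤ 11 v (1 - u) ^ 2`; the same.
`core3`: `Im w ≥ 0`, `Re w ≥ 0`, `Re D' > 0`, `Im D' = - e ^ (- 2 s) sin 2 m ≤ 0`.
`core4`: `u ≤ 1 / (6 k)`: `s ≤ 1 / 2`, `e ^ (- 2 s) ≥ 1 / 3`, `sin 2 m ≥ m` (`Real.mul_le_sin`), `- Im D' ≥ m / 3`, `Re D' ≤ 2`,
`Re w ≥ (1 - u) ^ 2 / 2 ≥ 1 / 8`, `Im w ≥ - 2 (1 - u) v Re T ≥ - 10 v`, `Im w Re D' - Re w Im D' ≥ - 20 v + m / 24 ≥ 0`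
(`Re T ≤ ‖T‖ ≤ 5`).
-/

namespace Pool.Agent.MP07129f.TP

open Complex Metric Set Filter Topology

variable {k b lam h : ℝ} {y : ℂ}

private lemma cb_div (w D : ℂ) : (w / D).im = (w.im * D.re - w.re * D.im) / normSq D := by
  rw [Complex.div_im]; ring

private lemma cb_im_nonpos (w D : ℂ) (h : w.im * D.re - w.re * D.im ≤ 0) : (w / D).im ≤ 0 := by
  rw [cb_div]
  exact div_nonpos_of_nonpos_of_nonneg h (normSq_nonneg _)

private lemma cb_im_nonneg (w D : ℂ) (h : 0 ≤ w.im * D.re - w.re * D.im) : 0 ≤ (w / D).im := by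
  rw [cb_div]
  exact div_nonneg h (normSq_nonneg _)

private lemma cb_E (k h : ℝ) (y : ℂ) :
    (EE k h y).re = Real.exp (2 * (SP k h y).re) * Real.cos (2 * (SP k h y).im) ∧
    (EE k h y).im = Real.exp (2 * (SP k h y).re) * Real.sin (2 * (SP k h y).im) ∧
    ((EE k h y)⁻¹).re = Real.exp (-(2 * (SP k h y).re)) * Real.cos (2 * (SP k h y).im) ∧
    ((EE k h y)⁻¹).im = -(Real.exp (-(2 * (SP k h y).re)) * Real.sin (2 * (SP k h y).im)) := by
  have h1 : (2 * SP k h y).re = 2 * (SP k h y).re := by simp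
  have h2 : (2 * SP k h y).im = 2 * (SP k h y).im := by simp
  unfold EE
  rw [← Complex.exp_neg]
  refine ⟨?_, ?_, ?_, ?_⟩
  · rw [Complex.exp_re, h1, h2]
  · rw [Complex.exp_im, h1, h2]
  · rw [Complex.exp_re, Complex.neg_re, Complex.neg_im, h1, h2, Real.cos_neg]
  · rw [Complex.exp_im, Complex.neg_re, Complex.neg_im, h1, h2, Real.sin_neg]; ring

/-- all the bounds -/
private lemma cb_all (hN : Num k b lam h) (hu : 0 ≤ y.re) (h1 : normSq y < 1)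
    (hv : y.im = lam * (1 - normSq y)) :
    0 < y.im ∧ y.im ≤ lam ∧ lam ≤ 1 / 16000 ∧ y.re < 1 ∧ y.im ≤ 2 * lam * (1 - y.re) ∧
    4 / 5 ≤ (TQ h y).re ∧ (TQ h y).re ≤ 5 ∧ 0 ≤ (TQ h y).im ∧ (TQ h y).im ≤ 11 * y.im ∧
    500 * y.im ≤ (SP k h y).im ∧ (SP k h y).im ≤ 1 / 2 ∧ 0 ≤ (SP k h y).re := by
  obtain ⟨a1, a2, a3⟩ := lens_bd hN h1 hv
  have a4 : |y.im| ≤ lam := by rw [abs_of_pos a2]; exact a3
  have hl : lam ≤ 1 / 16000 := by
    have := hN.lam_le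
    have := hN.b0
    linarith
  have hns : normSq y = y.re ^ 2 + y.im ^ 2 := by rw [normSq_apply]; ring
  have hu1 : y.re < 1 := by
    rw [hns] at h1
    nlinarith [sq_nonneg y.im]
  have hv2 : y.im ≤ 2 * lam * (1 - y.re) := by
    have h3 : 1 - normSq y ≤ 2 * (1 - y.re) := by
      rw [hns]
      nlinarith [sq_nonneg y.im, sq_nonneg (1 - y.re)]
    calc y.im = lam * (1 - normSq y) := hv
      _ ≤ lam * (2 * (1 - y.re)) := mul_le_mul_of_nonneg_left h3 hN.lam0.le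
      _ = 2 * lam * (1 - y.re) := by ring
  have hT5 : (TQ h y).re ≤ 5 := (Complex.re_le_norm _).trans (TQ_norm hN a1)
  have hTi := TQ_im hN hu h1 hv
  have hS := SP_im_abs hN a1 a4
  have hS1 := SP_re hN hu h1 hv
  exact ⟨a2, a3, hl, hu1, hv2, TQ_re hN a1 a4, hT5, hTi.1, hTi.2, SP_im hN h1 hv,
    (le_abs_self _).trans hS, hS1.1⟩

/-- `m Re D ≤ Im D` -/
private lemma cb_D (hN : Num k b lam h) (hu : 0 ≤ y.re) (h1 : normSq y < 1)
    (hv : y.im = lam * (1 - normSq y)) :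
    0 < (1 + EE k h y).re ∧ (SP k h y).im * (1 + EE k h y).re ≤ (1 + EE k h y).im := by
  obtain ⟨a2, a3, hl, hu1, hv2, hT1, hT5, hTi0, hTi1, hm1, hm2, hs⟩ := cb_all hN hu h1 hv
  obtain ⟨b1, b2, b3⟩ := lens_bd hN h1 hv
  have a4 : |y.im| ≤ lam := by rw [abs_of_pos a2]; exact a3
  have hE := (EE_re (y := y) hN b1 a4).1
  have hre : (1 + EE k h y).re = 1 + (EE k h y).re := by simp
  have him : (1 + EE k h y).im = (EE k h y).im := by simp
  obtain ⟨e1, e2, _, _⟩ := cb_E k h y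
  set s := (SP k h y).re with hsdef
  set m := (SP k h y).im with hmdef
  have hm0 : 0 < m := by nlinarith
  have hpi := Real.pi_gt_three
  have hcos : 0 < Real.cos m := Real.cos_pos_of_mem_Ioo ⟨by linarith, by linarith⟩
  have hsin : 0 ≤ Real.sin m := (Real.sin_pos_of_pos_of_lt_pi hm0 (by linarith)).le
  have htan : m * Real.cos m ≤ Real.sin m := by
    have h3 := (Real.lt_tan hm0 (by linarith)).le
    rw [Real.tan_eq_sin_div_cos, le_div_iff₀ hcos] at h3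
    exact h3
  refine ⟨by rw [hre]; linarith, ?_⟩
  have hDpos : 0 < 1 + (EE k h y).re := by linarith
  rw [hre, him]
  have hkey : Real.sin m * (1 + (EE k h y).re) ≤ (EE k h y).im * Real.cos m := by
    rw [e1, e2]
    have h4 : Real.sin (2 * m) * Real.cos m - Real.cos (2 * m) * Real.sin m = Real.sin m := by
      rw [← Real.sin_sub]
      congr 1
      ring
    have h5 : 1 ≤ Real.exp (2 * s) := Real.one_le_exp (by linarith)
    have h6 : Real.sin m * 1 ≤ Real.sin m * Real.exp (2 * s) := mul_le_mul_of_nonneg_left h5 hsin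
    have h7 : Real.exp (2 * s) * (Real.sin (2 * m) * Real.cos m - Real.cos (2 * m) * Real.sin m) =
      Real.exp (2 * s) * Real.sin m := by rw [h4]
    nlinarith
  have h8 : m * Real.cos m * (1 + (EE k h y).re) ≤ Real.sin m * (1 + (EE k h y).re) :=
    mul_le_mul_of_nonneg_right htan hDpos.le
  have h9 : (m * (1 + (EE k h y).re)) * Real.cos m ≤ (EE k h y).im * Real.cos m := by
    calc (m * (1 + (EE k h y).re)) * Real.cos m = m * Real.cos m * (1 + (EE k h y).re) := by ring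
      _ ≤ _ := h8.trans hkey
  exact le_of_mul_le_mul_right h9 hcos

/-- bounds for `D' = 1 + E⁻¹` -/
private lemma cb_D' (hN : Num k b lam h) (hu : 0 ≤ y.re) (h1 : normSq y < 1)
    (hv : y.im = lam * (1 - normSq y)) :
    0 < (1 + (EE k h y)⁻¹).re ∧ (1 + (EE k h y)⁻¹).re ≤ 2 ∧
    (1 + (EE k h y)⁻¹).im = -(Real.exp (-(2 * (SP k h y).re)) * Real.sin (2 * (SP k h y).im)) ∧
    (SP k h y).im ≤ Real.sin (2 * (SP k h y).im) := by
  obtain ⟨a2, a3, hl, hu1, hv2, hT1, hT5, hTi0, hTi1, hm1, hm2, hs⟩ := cb_all hN hu h1 hv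
  obtain ⟨b1, b2, b3⟩ := lens_bd hN h1 hv
  have a4 : |y.im| ≤ lam := by rw [abs_of_pos a2]; exact a3
  have hE := (EE_re (y := y) hN b1 a4).2
  have hre : (1 + (EE k h y)⁻¹).re = 1 + ((EE k h y)⁻¹).re := by
    rw [Complex.add_re, Complex.one_re]
  have him : (1 + (EE k h y)⁻¹).im = ((EE k h y)⁻¹).im := by
    rw [Complex.add_im, Complex.one_im, zero_add]
  obtain ⟨_, _, e3, e4⟩ := cb_E k h y
  set s := (SP k h y).re with hsdef
  set m := (SP k h y).im with hmdef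
  have hm0 : 0 < m := by nlinarith
  have hpi := Real.pi_gt_three
  have hpi4 := Real.pi_le_four
  refine ⟨by rw [hre]; linarith, ?_, ?_, ?_⟩
  · rw [hre, e3]
    have h5 : Real.exp (-(2 * s)) ≤ 1 := Real.exp_le_one_iff.mpr (by linarith)
    have h6 : Real.cos (2 * m) ≤ 1 := Real.cos_le_one _
    have h7 : 0 < Real.exp (-(2 * s)) := Real.exp_pos _
    nlinarith
  · rw [him, e4]
  · have h3 := Real.mul_le_sin (x := 2 * m) (by linarith) (by linarith)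
    have h4 : m ≤ 2 / Real.pi * (2 * m) := by
      have h5 : 2 / Real.pi * (2 * m) = 4 * m / Real.pi := by ring
      rw [h5, le_div_iff₀ Real.pi_pos]
      nlinarith
    linarith

private lemma cb_w1 (y T : ℂ) : ((1 + y) ^ 2 * T).re =
      ((1 + y.re) ^ 2 - y.im ^ 2) * T.re - 2 * (1 + y.re) * y.im * T.im ∧
    ((1 + y) ^ 2 * T).im =
      ((1 + y.re) ^ 2 - y.im ^ 2) * T.im + 2 * (1 + y.re) * y.im * T.re := by
  constructor
  · rw [pow_two]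
    simp only [Complex.mul_re, Complex.mul_im, Complex.add_re, Complex.add_im, Complex.one_re,
      Complex.one_im]
    ring
  · rw [pow_two]
    simp only [Complex.mul_re, Complex.mul_im, Complex.add_re, Complex.add_im, Complex.one_re,
      Complex.one_im]
    ring

private lemma cb_w2 (y T : ℂ) : ((1 - y) ^ 2 * T).re =
      ((1 - y.re) ^ 2 - y.im ^ 2) * T.re + 2 * (1 - y.re) * y.im * T.im ∧
    ((1 - y) ^ 2 * T).im =
      ((1 - y.re) ^ 2 - y.im ^ 2) * T.im - 2 * (1 - y.re) * y.im * T.re := by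
  constructor
  · rw [pow_two]
    simp only [Complex.mul_re, Complex.mul_im, Complex.sub_re, Complex.sub_im, Complex.one_re,
      Complex.one_im]
    ring
  · rw [pow_two]
    simp only [Complex.mul_re, Complex.mul_im, Complex.sub_re, Complex.sub_im, Complex.one_re,
      Complex.one_im]
    ring

/-- bounds for `w = (1 + y) ^ 2 T` -/
private lemma cb_wa (hN : Num k b lam h) (hu : 0 ≤ y.re) (h1 : normSq y < 1)
    (hv : y.im = lam * (1 - normSq y)) :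
    1 / 2 ≤ ((1 + y) ^ 2 * TQ h y).re ∧ 0 ≤ ((1 + y) ^ 2 * TQ h y).im ∧
      ((1 + y) ^ 2 * TQ h y).im ≤ 64 * y.im := by
  obtain ⟨a2, a3, hl, hu1, hv2, hT1, hT5, hTi0, hTi1, hm1, hm2, hs⟩ := cb_all hN hu h1 hv
  obtain ⟨w1, w2⟩ := cb_w1 y (TQ h y)
  rw [w1, w2]
  set u := y.re
  set v := y.im
  set A := (TQ h y).re
  set B := (TQ h y).im
  have hv1 : v ≤ 1 / 16000 := a3.trans hl
  have hvv : v ^ 2 ≤ 1 / 16000 * v := by nlinarith
  have c1 : 1 - 1 / 16000 * v ≤ (1 + u) ^ 2 - v ^ 2 := by nlinarith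
  have c2 : (1 + u) ^ 2 - v ^ 2 ≤ 4 := by nlinarith
  have c3 : 0 ≤ 2 * (1 + u) * v := by positivity
  have c4 : 2 * (1 + u) * v ≤ 4 * v := by nlinarith
  have c0 : 0 ≤ (1 + u) ^ 2 - v ^ 2 := by nlinarith
  refine ⟨?_, ?_, ?_⟩
  · have d1 : (1 - 1 / 16000 * v) * A ≤ ((1 + u) ^ 2 - v ^ 2) * A :=
      mul_le_mul_of_nonneg_right c1 (by linarith)
    have d2 : 2 * (1 + u) * v * B ≤ 4 * v * (11 * v) :=
      mul_le_mul c4 hTi1 hTi0 (by positivity)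
    nlinarith
  · have d1 : 0 ≤ ((1 + u) ^ 2 - v ^ 2) * B := mul_nonneg c0 hTi0
    have d2 : 0 ≤ 2 * (1 + u) * v * A := mul_nonneg c3 (by linarith)
    linarith
  · have d1 : ((1 + u) ^ 2 - v ^ 2) * B ≤ 4 * (11 * v) := mul_le_mul c2 hTi1 hTi0 (by norm_num)
    have d2 : 2 * (1 + u) * v * A ≤ 4 * v * 5 :=
      mul_le_mul c4 hT5 (by linarith) (by positivity)
    linarith

/-- bounds for `w = (1 - y) ^ 2 T` -/
private lemma cb_wb (hN : Num k b lam h) (hu : 0 ≤ y.re) (h1 : normSq y < 1)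
    (hv : y.im = lam * (1 - normSq y)) :
    (1 - y.re) ^ 2 / 2 ≤ ((1 - y) ^ 2 * TQ h y).re ∧ -(10 * y.im) ≤ ((1 - y) ^ 2 * TQ h y).im ∧
      ((1 - y) ^ 2 * TQ h y).im ≤ 11 * y.im * (1 - y.re) ^ 2 := by
  obtain ⟨a2, a3, hl, hu1, hv2, hT1, hT5, hTi0, hTi1, hm1, hm2, hs⟩ := cb_all hN hu h1 hv
  obtain ⟨w1, w2⟩ := cb_w2 y (TQ h y)
  rw [w1, w2]
  have hlam := hN.lam0
  set u := y.re
  set v := y.im
  set A := (TQ h y).re
  set B := (TQ h y).im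
  have hx : 0 < 1 - u := by linarith
  have hv3 : v ≤ 1 / 8000 * (1 - u) := by
    refine hv2.trans ?_
    nlinarith
  have hvv : v ^ 2 ≤ (1 / 8000 * (1 - u)) ^ 2 := pow_le_pow_left₀ a2.le hv3 2
  have c1 : 9 / 10 * (1 - u) ^ 2 ≤ (1 - u) ^ 2 - v ^ 2 := by nlinarith
  have c2 : (1 - u) ^ 2 - v ^ 2 ≤ (1 - u) ^ 2 := by nlinarith
  have c3 : 0 ≤ 2 * (1 - u) * v := by positivity
  have c4 : 2 * (1 - u) * v ≤ 2 * v := by nlinarith
  have c0 : 0 ≤ (1 - u) ^ 2 - v ^ 2 := by nlinarith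
  refine ⟨?_, ?_, ?_⟩
  · have d1 : 9 / 10 * (1 - u) ^ 2 * (4 / 5) ≤ ((1 - u) ^ 2 - v ^ 2) * A :=
      mul_le_mul c1 hT1 (by norm_num) c0
    have d2 : 0 ≤ 2 * (1 - u) * v * B := mul_nonneg c3 hTi0
    nlinarith
  · have d1 : 0 ≤ ((1 - u) ^ 2 - v ^ 2) * B := mul_nonneg c0 hTi0
    have d2 : 2 * (1 - u) * v * A ≤ 2 * v * 5 := mul_le_mul c4 hT5 (by linarith) (by positivity)
    linarith
  · have d1 : ((1 - u) ^ 2 - v ^ 2) * B ≤ (1 - u) ^ 2 * (11 * v) :=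
      mul_le_mul c2 hTi1 hTi0 (by positivity)
    have d2 : 0 ≤ 2 * (1 - u) * v * A := mul_nonneg c3 (by linarith)
    linarith

theorem core1 (hN : Num k b lam h) (hu : 0 ≤ y.re) (h1 : normSq y < 1)
    (hv : y.im = lam * (1 - normSq y)) : ((1 + y) ^ 2 * TQ h y / (1 + EE k h y)).im ≤ 0 := by
  obtain ⟨a2, a3, hl, hu1, hv2, hT1, hT5, hTi0, hTi1, hm1, hm2, hs⟩ := cb_all hN hu h1 hv
  obtain ⟨D0, D1⟩ := cb_D hN hu h1 hv
  obtain ⟨r1, r2, r3⟩ := cb_wa hN hu h1 hv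
  apply cb_im_nonpos
  set w := (1 + y) ^ 2 * TQ h y
  set D := 1 + EE k h y
  set m := (SP k h y).im
  have h3 : w.im * D.re ≤ 64 * y.im * D.re := mul_le_mul_of_nonneg_right r3 D0.le
  have h4 : 0 ≤ m * D.re := mul_nonneg (by linarith) D0.le
  have h5 : 1 / 2 * (m * D.re) ≤ w.re * D.im := mul_le_mul r1 D1 h4 (by linarith)
  have h6 : 500 * y.im * D.re ≤ m * D.re := mul_le_mul_of_nonneg_right hm1 D0.le
  have h7 : 0 ≤ y.im * D.re := mul_nonneg a2.le D0.le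
  nlinarith

theorem core2 (hN : Num k b lam h) (hu : 0 ≤ y.re) (h1 : normSq y < 1)
    (hv : y.im = lam * (1 - normSq y)) : ((1 - y) ^ 2 * TQ h y / (1 + EE k h y)).im ≤ 0 := by
  obtain ⟨a2, a3, hl, hu1, hv2, hT1, hT5, hTi0, hTi1, hm1, hm2, hs⟩ := cb_all hN hu h1 hv
  obtain ⟨D0, D1⟩ := cb_D hN hu h1 hv
  obtain ⟨r1, r2, r3⟩ := cb_wb hN hu h1 hv
  apply cb_im_nonpos
  set w := (1 - y) ^ 2 * TQ h y
  set D := 1 + EE k h y
  set m := (SP k h y).im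
  set x := (1 - y.re) ^ 2
  have hx : 0 ≤ x := sq_nonneg _
  have h3 : w.im * D.re ≤ 11 * y.im * x * D.re := mul_le_mul_of_nonneg_right r3 D0.le
  have h4 : 0 ≤ m * D.re := mul_nonneg (by linarith) D0.le
  have h5 : x / 2 * (m * D.re) ≤ w.re * D.im := mul_le_mul r1 D1 h4 (by linarith)
  have h6 : 500 * y.im * D.re ≤ m * D.re := mul_le_mul_of_nonneg_right hm1 D0.le
  have h7 : 0 ≤ x * (y.im * D.re) := mul_nonneg hx (mul_nonneg a2.le D0.le)
  have h8 : x / 2 * (500 * y.im * D.re) ≤ x / 2 * (m * D.re) :=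
    mul_le_mul_of_nonneg_left h6 (by linarith)
  nlinarith

theorem core3 (hN : Num k b lam h) (hu : 0 ≤ y.re) (h1 : normSq y < 1)
    (hv : y.im = lam * (1 - normSq y)) : 0 ≤ ((1 + y) ^ 2 * TQ h y / (1 + (EE k h y)⁻¹)).im := by
  obtain ⟨a2, a3, hl, hu1, hv2, hT1, hT5, hTi0, hTi1, hm1, hm2, hs⟩ := cb_all hN hu h1 hv
  obtain ⟨D0, D2, D3, D4⟩ := cb_D' hN hu h1 hv
  obtain ⟨r1, r2, r3⟩ := cb_wa hN hu h1 hv
  apply cb_im_nonneg
  have h3 : (1 + (EE k h y)⁻¹).im ≤ 0 := by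
    rw [D3]
    have h4 : 0 ≤ Real.sin (2 * (SP k h y).im) := le_trans (by linarith) D4
    have h5 : 0 ≤ Real.exp (-(2 * (SP k h y).re)) := (Real.exp_pos _).le
    have := mul_nonneg h5 h4
    linarith
  have h6 : 0 ≤ ((1 + y) ^ 2 * TQ h y).im * (1 + (EE k h y)⁻¹).re := mul_nonneg r2 D0.le
  have h7 : ((1 + y) ^ 2 * TQ h y).re * (1 + (EE k h y)⁻¹).im ≤ 0 :=
    mul_nonpos_of_nonneg_of_nonpos (by linarith) h3
  linarith

theorem core4 (hN : Num k b lam h) (hu : 0 ≤ y.re) (h1 : normSq y < 1)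
    (hv : y.im = lam * (1 - normSq y)) (hs : y.re ≤ 1 / (6 * k)) :
    0 ≤ ((1 - y) ^ 2 * TQ h y / (1 + (EE k h y)⁻¹)).im := by
  obtain ⟨a2, a3, hl, hu1, hv2, hT1, hT5, hTi0, hTi1, hm1, hm2, hs0⟩ := cb_all hN hu h1 hv
  obtain ⟨D0, D2, D3, D4⟩ := cb_D' hN hu h1 hv
  obtain ⟨r1, r2, r3⟩ := cb_wb hN hu h1 hv
  have hk := hN.k_ge
  have hS := (SP_re hN hu h1 hv).2
  have hs1 : (SP k h y).re ≤ 1 / 2 := by
    have h3 : 3 * k * y.re ≤ 3 * k * (1 / (6 * k)) := mul_le_mul_of_nonneg_left hs (by positivity)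
    have h4 : 3 * k * (1 / (6 * k)) = 1 / 2 := by
      field_simp
      norm_num
    linarith
  have hexp : 1 / 3 ≤ Real.exp (-(2 * (SP k h y).re)) := by
    have h3 : Real.exp (-1) ≤ Real.exp (-(2 * (SP k h y).re)) :=
      Real.exp_le_exp.mpr (by linarith)
    have h4 : (1 : ℝ) / 3 ≤ Real.exp (-1) := by
      rw [Real.exp_neg, ← one_div]
      apply one_div_le_one_div_of_le (Real.exp_pos _)
      have := Real.exp_one_lt_d9
      linarith
    linarith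
  have hu2 : y.re ≤ 1 / 2 := by
    refine hs.trans ?_
    apply one_div_le_one_div_of_le (by norm_num)
    linarith
  apply cb_im_nonneg
  have h3 : (SP k h y).im / 3 ≤ -(1 + (EE k h y)⁻¹).im := by
    rw [D3, neg_neg]
    have h4 : 1 / 3 * (SP k h y).im ≤
      Real.exp (-(2 * (SP k h y).re)) * Real.sin (2 * (SP k h y).im) :=
      mul_le_mul hexp D4 (by linarith) (Real.exp_pos _).le
    linarith
  have hw8 : 1 / 8 ≤ ((1 - y) ^ 2 * TQ h y).re := by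
    refine le_trans ?_ r1
    nlinarith
  have h5 : 1 / 8 * ((SP k h y).im / 3) ≤ ((1 - y) ^ 2 * TQ h y).re * -(1 + (EE k h y)⁻¹).im :=
    mul_le_mul hw8 h3 (by linarith) (by linarith)
  have h6 : -(10 * y.im) * (1 + (EE k h y)⁻¹).re ≤
      ((1 - y) ^ 2 * TQ h y).im * (1 + (EE k h y)⁻¹).re := mul_le_mul_of_nonneg_right r2 D0.le
  have h7 : -(10 * y.im) * 2 ≤ -(10 * y.im) * (1 + (EE k h y)⁻¹).re := by
    nlinarith
  nlinarith

end Pool.Agent.MP07129f.TP
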