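import Pool.Agent.Lib.MP_07129f_an.XP.Main

/-!
Strongly starlike functions generated by a Schwarz function which takes the value `1` at two points of
the circle: definitions.

`NN σ c` (`σ > 0`, `σ ^ 2 + c ^ 2 = 1`) maps the disc onto the right half plane, `1` to `∞` and
`pt σ c = (c + i σ) ^ 2` to `0`; `tt = NN ^ δ`, `yy = (tt - 1) / (tt + 1)` (values in a thin lens between
`-1` and `1`), `S = SP k h (yy z)` with the polynomial `SP`, whose derivative is `k * TQ`, `EE = exp (2 S)`.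
The given function is multiplied by `A1 = 2 E / (1 + E)` and by `A2 = 2 / (1 + E)`, `A1 + A2 = 2`;
`V1 = z A1' / A1`, `V2 = z A2' / A2`.
-/

namespace Pool.Agent.MP07129f.TP

open Complex Metric Set Filter Topology

/-- a Möbius map of the disc onto the right half plane -/
noncomputable def NN (σ c : ℝ) (z : ℂ) : ℂ := σ * ((1 + z) / (1 - z)) - c * I

/-- the point of the circle where `NN σ c` vanishes -/
noncomputable def pt (σ c : ℝ) : ℂ := (c + σ * I) ^ 2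

noncomputable def tt (σ c δ : ℝ) (z : ℂ) : ℂ := exp (δ * log (NN σ c z))

noncomputable def yy (σ c δ : ℝ) (z : ℂ) : ℂ := (tt σ c δ z - 1) / (tt σ c δ z + 1)

noncomputable def SP (k h : ℝ) (y : ℂ) : ℂ := k * (y + y ^ 3 + h * I * (1 - y ^ 2) ^ 2)

noncomputable def TQ (h : ℝ) (y : ℂ) : ℂ := 1 + 3 * y ^ 2 - 4 * h * I * (y * (1 - y ^ 2))

noncomputable def EE (k h : ℝ) (y : ℂ) : ℂ := exp (2 * SP k h y)

noncomputable def W1 (k h : ℝ) (g y : ℂ) : ℂ := g * (1 - y ^ 2) * TQ h y / (1 + EE k h y)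

noncomputable def W2 (k h : ℝ) (g y : ℂ) : ℂ := -(g * (1 - y ^ 2) * TQ h y / (1 + (EE k h y)⁻¹))

/-- `δ k z N' / N` -/
noncomputable def gg (σ c δ k : ℝ) (z : ℂ) : ℂ := δ * k * (z * (2 * σ / (1 - z) ^ 2) / NN σ c z)

noncomputable def V1 (σ c δ k h : ℝ) (z : ℂ) : ℂ := W1 k h (gg σ c δ k z) (yy σ c δ z)

noncomputable def V2 (σ c δ k h : ℝ) (z : ℂ) : ℂ := W2 k h (gg σ c δ k z) (yy σ c δ z)

noncomputable def A1 (σ c δ k h : ℝ) (z : ℂ) : ℂ := 2 / (1 + (EE k h (yy σ c δ z))⁻¹)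

noncomputable def A2 (σ c δ k h : ℝ) (z : ℂ) : ℂ := 2 / (1 + EE k h (yy σ c δ z))

/-- the conditions on the numbers -/
structure Num (k b lam h : ℝ) : Prop where
  b0 : 0 ≤ b
  b1 : b < 1
  hk : k * (1 - b) = 1000
  lam0 : 0 < lam
  klam : k * lam ≤ 1 / 16
  hh : |h| ≤ b * lam

/-- all the conditions -/
structure Par (σ c δ k b h : ℝ) : Prop where
  σ0 : 0 < σ
  σc : σ ^ 2 + c ^ 2 = 1
  δ0 : 0 < δ
  δ1 : δ ≤ 1 / 4
  num : Num k b (Real.tan (δ * Real.pi / 2) / 2) h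
  zero : SP k h (yy σ c δ 0) = 0

/-- `l = log ((1 + ω) / (1 - ω))` in the disc -/
structure Lg (ω l : ℂ → ℂ) : Prop where
  schwarz : IsSchwarz ω
  diff : DifferentiableOn ℂ l (ball 0 1)
  zero : l 0 = 0
  im_lt : ∀ z ∈ ball (0 : ℂ) 1, |(l z).im| < Real.pi / 2
  exp : ∀ z ∈ ball (0 : ℂ) 1, exp (l z) = (1 + ω z) / (1 - ω z)

end Pool.Agent.MP07129f.TP
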