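import Pool.Agent.Lib.MP_07129f_an.TP.Defs

/-!
TP-GeoB: `tt` and `yy`.

PROOF.  `tt_norm`: `‖exp (δ log N)‖ = exp (δ log ‖N‖)`.
`tt_arg`: `log N = log ‖N‖ + i arg N`, `|arg N| ≤ π / 2` as `Re N ≥ 0` (`Complex.abs_arg_le_pi_div_two_iff`), so `t = r e ^ (i φ)`, `|φ| ≤ δ π / 2 ≤ π / 8`,
`|sin φ| ≤ tan (δ π / 2) cos φ` (`|sin φ| / cos φ = tan |φ|`, `tan` is increasing).
`tt_bdy`: `log (i n) = log |n| ± i π / 2` (`Complex.arg_of_re_zero_of_im_pos`-type lemmas; for instance `Complex.log_ofReal_mul` and `Complex.log_I`).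
`yy_lens`: `t = tt ..`, `Re t > 0`, `y = (t - 1) / (t + 1)`: `1 - normSq y = 4 Re t / normSq (t + 1) > 0` and `≤ 1`,
`|Im y| = 2 |Im t| / normSq (t + 1) ≤ (tan (δ π / 2) / 2) (1 - normSq y)`.
`one_sub_yy`: `1 - y ^ 2 = 4 t / (t + 1) ^ 2`, `‖t + 1‖ ≥ max ‖t‖ 1` as `Re t ≥ 0`.
`yy_re`: `Re y = (‖t‖ ^ 2 - 1) / ‖t + 1‖ ^ 2`, `‖t + 1‖ ^ 2 ≥ ‖t‖ ^ 2 + 1`, so `Re y > x ≥ 0` gives `‖t‖ ^ 2 - 1 > x`, and
`Re y < - x` gives `1 - ‖t‖ ^ 2 > x (‖t‖ ^ 2 + 1) ≥ x ‖t‖ ^ 2`.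
-/

namespace Pool.Agent.MP07129f.TP

open Complex Metric Set Filter Topology

variable {σ c δ : ℝ} {z : ℂ}

private theorem geob_re (σ c δ : ℝ) (z : ℂ) (hN : NN σ c z ≠ 0) : (tt σ c δ z).re =
    ‖NN σ c z‖ ^ δ * Real.cos (δ * arg (NN σ c z)) := by
  have hp : 0 < ‖NN σ c z‖ := norm_pos_iff.2 hN
  unfold tt
  rw [Complex.exp_re, Complex.re_ofReal_mul, Complex.im_ofReal_mul, Complex.log_re,
    Complex.log_im, Real.rpow_def_of_pos hp, mul_comm δ (Real.log _)]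

private theorem geob_im (σ c δ : ℝ) (z : ℂ) (hN : NN σ c z ≠ 0) : (tt σ c δ z).im =
    ‖NN σ c z‖ ^ δ * Real.sin (δ * arg (NN σ c z)) := by
  have hp : 0 < ‖NN σ c z‖ := norm_pos_iff.2 hN
  unfold tt
  rw [Complex.exp_im, Complex.re_ofReal_mul, Complex.im_ofReal_mul, Complex.log_re,
    Complex.log_im, Real.rpow_def_of_pos hp, mul_comm δ (Real.log _)]

theorem tt_norm (hN : NN σ c z ≠ 0) : ‖tt σ c δ z‖ = ‖NN σ c z‖ ^ δ := by
  have hp : 0 < ‖NN σ c z‖ := norm_pos_iff.2 hN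
  unfold tt
  rw [Complex.norm_exp, Complex.re_ofReal_mul, Complex.log_re, Real.rpow_def_of_pos hp,
    mul_comm δ (Real.log _)]

theorem tt_arg (hδ : 0 < δ) (hδ1 : δ ≤ 1 / 4) (hN : NN σ c z ≠ 0) (hre : 0 ≤ (NN σ c z).re) :
    0 < (tt σ c δ z).re ∧ |(tt σ c δ z).im| ≤ Real.tan (δ * Real.pi / 2) * (tt σ c δ z).re := by
  have hp : 0 < ‖NN σ c z‖ := norm_pos_iff.2 hN
  have hr : 0 < ‖NN σ c z‖ ^ δ := Real.rpow_pos_of_pos hp δ
  have hpi := Real.pi_pos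
  have harg : |arg (NN σ c z)| ≤ Real.pi / 2 := Complex.abs_arg_le_pi_div_two_iff.2 hre
  set φ : ℝ := δ * arg (NN σ c z) with hφ
  have hφ1 : |φ| ≤ δ * Real.pi / 2 := by
    rw [hφ, abs_mul, abs_of_pos hδ]
    have := mul_le_mul_of_nonneg_left harg hδ.le
    linarith
  have hφ2 : δ * Real.pi / 2 < Real.pi / 2 := by nlinarith
  have hφ3 : |φ| < Real.pi / 2 := lt_of_le_of_lt hφ1 hφ2
  have hcos : 0 < Real.cos φ :=
    Real.cos_pos_of_mem_Ioo ⟨by linarith [(abs_lt.1 hφ3).1], (abs_lt.1 hφ3).2⟩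
  rw [geob_re σ c δ z hN, geob_im σ c δ z hN]
  refine ⟨mul_pos hr hcos, ?_⟩
  have htan : Real.tan |φ| ≤ Real.tan (δ * Real.pi / 2) := by
    rcases eq_or_lt_of_le hφ1 with h | h
    · rw [h]
    · exact (Real.tan_lt_tan_of_nonneg_of_lt_pi_div_two (abs_nonneg _) hφ2 h).le
  have hsin : |Real.sin φ| = Real.tan |φ| * Real.cos φ := by
    have h1 : Real.tan |φ| * Real.cos |φ| = Real.sin |φ| :=
      Real.tan_mul_cos (by rw [Real.cos_abs]; exact hcos.ne')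
    rw [Real.cos_abs] at h1
    rw [h1]
    have h2 : 0 ≤ Real.sin |φ| :=
      Real.sin_nonneg_of_nonneg_of_le_pi (abs_nonneg _) (by linarith)
    rcases abs_cases φ with h | h
    · rw [h.1] at h2 ⊢
      exact abs_of_nonneg h2
    · rw [h.1, Real.sin_neg] at h2 ⊢
      exact abs_of_nonpos (by linarith)
  rw [abs_mul, abs_of_pos hr, hsin]
  have h3 : Real.tan |φ| * Real.cos φ ≤ Real.tan (δ * Real.pi / 2) * Real.cos φ :=
    mul_le_mul_of_nonneg_right htan hcos.le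
  calc ‖NN σ c z‖ ^ δ * (Real.tan |φ| * Real.cos φ)
      ≤ ‖NN σ c z‖ ^ δ * (Real.tan (δ * Real.pi / 2) * Real.cos φ) :=
        mul_le_mul_of_nonneg_left h3 hr.le
    _ = _ := by ring

theorem tt_bdy (hn : NN σ c z = ((NN σ c z).im : ℂ) * I) :
    (0 < (NN σ c z).im → tt σ c δ z = (((NN σ c z).im ^ δ : ℝ) : ℂ) * exp ((δ * Real.pi / 2 : ℝ) * I)) ∧
    ((NN σ c z).im < 0 →
      tt σ c δ z = (((-(NN σ c z).im) ^ δ : ℝ) : ℂ) * exp (-((δ * Real.pi / 2 : ℝ) * I))) := by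
  have hre : (NN σ c z).re = 0 := by
    rw [hn]
    simp
  have hnorm : ‖NN σ c z‖ = |(NN σ c z).im| := by
    conv_lhs => rw [hn]
    rw [norm_mul, Complex.norm_I, mul_one, Complex.norm_real, Real.norm_eq_abs]
  constructor
  · intro h
    have hN : NN σ c z ≠ 0 := by
      intro h0
      rw [h0] at h
      simp at h
    have harg : arg (NN σ c z) = Real.pi / 2 := Complex.arg_eq_pi_div_two_iff.2 ⟨hre, h⟩
    rw [abs_of_pos h] at hnorm
    have e1 : δ * (Real.pi / 2) = δ * Real.pi / 2 := by ring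
    apply Complex.ext
    · rw [geob_re σ c δ z hN, harg, hnorm, e1, Complex.re_ofReal_mul, Complex.exp_ofReal_mul_I_re]
    · rw [geob_im σ c δ z hN, harg, hnorm, e1, Complex.im_ofReal_mul, Complex.exp_ofReal_mul_I_im]
  · intro h
    have hN : NN σ c z ≠ 0 := by
      intro h0
      rw [h0] at h
      simp at h
    have harg : arg (NN σ c z) = -(Real.pi / 2) := Complex.arg_eq_neg_pi_div_two_iff.2 ⟨hre, h⟩
    rw [abs_of_neg h] at hnorm
    have e1 : δ * (-(Real.pi / 2)) = -(δ * Real.pi / 2) := by ring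
    have e2 : -((δ * Real.pi / 2 : ℝ) * I) = ((-(δ * Real.pi / 2) : ℝ) : ℂ) * I := by
      push_cast
      ring
    rw [e2]
    apply Complex.ext
    · rw [geob_re σ c δ z hN, harg, hnorm, e1, Complex.re_ofReal_mul, Complex.exp_ofReal_mul_I_re]
    · rw [geob_im σ c δ z hN, harg, hnorm, e1, Complex.im_ofReal_mul, Complex.exp_ofReal_mul_I_im]

private theorem geob_t1 {t : ℂ} (ht : 0 < t.re) : t + 1 ≠ 0 := by
  intro h
  have := congrArg Complex.re h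
  rw [Complex.add_re, Complex.one_re, Complex.zero_re] at this
  linarith

private theorem geob_sq (t : ℂ) : Complex.normSq (t + 1) = Complex.normSq t + 2 * t.re + 1 := by
  rw [Complex.normSq_apply, Complex.normSq_apply, Complex.add_re, Complex.add_im, Complex.one_re,
    Complex.one_im]
  ring

private theorem geob_yim (t : ℂ) (ht : 0 < t.re) :
    ((t - 1) / (t + 1)).im = 2 * t.im / Complex.normSq (t + 1) ∧
    ((t - 1) / (t + 1)).re = (Complex.normSq t - 1) / Complex.normSq (t + 1) := by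
  have h1 : Complex.normSq (t + 1) ≠ 0 := by
    rw [Ne, Complex.normSq_eq_zero]
    exact geob_t1 ht
  constructor
  · rw [Complex.div_im, Complex.add_re, Complex.add_im, Complex.sub_re, Complex.sub_im,
      Complex.one_re, Complex.one_im]
    field_simp
    ring
  · rw [Complex.div_re, Complex.add_re, Complex.add_im, Complex.sub_re, Complex.sub_im,
      Complex.one_re, Complex.one_im]
    rw [Complex.normSq_apply t]
    field_simp
    ring

theorem yy_lens (hδ : 0 < δ) (hδ1 : δ ≤ 1 / 4) (hN : NN σ c z ≠ 0) (hre : 0 ≤ (NN σ c z).re) :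
    ‖yy σ c δ z‖ < 1 ∧ |(yy σ c δ z).im| ≤ Real.tan (δ * Real.pi / 2) / 2 := by
  obtain ⟨h1, h2⟩ := tt_arg hδ hδ1 hN hre
  set t := tt σ c δ z with ht
  have hy : yy σ c δ z = (t - 1) / (t + 1) := rfl
  have h3 := geob_t1 h1
  have h4 : 0 < Complex.normSq (t + 1) := Complex.normSq_pos.2 h3
  have h0 := Complex.normSq_nonneg t
  rw [hy]
  constructor
  · rw [norm_div, div_lt_one (norm_pos_iff.2 h3)]
    refine lt_of_pow_lt_pow_left₀ 2 (norm_nonneg _) ?_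
    rw [← Complex.normSq_eq_norm_sq, ← Complex.normSq_eq_norm_sq, Complex.normSq_apply,
      Complex.normSq_apply, Complex.add_re, Complex.add_im, Complex.sub_re, Complex.sub_im,
      Complex.one_re, Complex.one_im]
    nlinarith
  · rw [(geob_yim t h1).1, abs_div, abs_of_pos h4, abs_mul, abs_two, div_le_iff₀ h4, geob_sq]
    have h5 : t.re ^ 2 ≤ Complex.normSq t := by
      rw [Complex.normSq_apply]
      nlinarith [sq_nonneg t.im]
    have h6 : 0 ≤ Real.tan (δ * Real.pi / 2) := by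
      have h7 := (abs_nonneg _).trans h2
      exact nonneg_of_mul_nonneg_left h7 h1
    have h8 : 4 * t.re ≤ Complex.normSq t + 2 * t.re + 1 := by
      nlinarith [sq_nonneg (t.re - 1)]
    have h9 := mul_le_mul_of_nonneg_left h8 h6
    linarith

theorem one_sub_yy (hδ : 0 < δ) (hδ1 : δ ≤ 1 / 4) (hN : NN σ c z ≠ 0) (hre : 0 ≤ (NN σ c z).re) :
    ‖1 - yy σ c δ z ^ 2‖ ≤ 4 * ‖NN σ c z‖ ^ δ ∧ ‖1 - yy σ c δ z ^ 2‖ ≤ 4 * (‖NN σ c z‖ ^ δ)⁻¹ := by
  obtain ⟨h1, h2⟩ := tt_arg hδ hδ1 hN hre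
  have hn := tt_norm (δ := δ) hN
  rw [← hn]
  set t := tt σ c δ z with ht
  have hy : yy σ c δ z = (t - 1) / (t + 1) := rfl
  have h3 := geob_t1 h1
  have h4 : 0 < ‖t + 1‖ := norm_pos_iff.2 h3
  have ht0 : 0 < ‖t‖ := by
    rw [norm_pos_iff]
    intro h
    rw [h] at h1
    simp at h1
  have e1 : 1 - yy σ c δ z ^ 2 = 4 * t / (t + 1) ^ 2 := by
    rw [hy]
    field_simp
    ring
  have h5 : ‖1 - yy σ c δ z ^ 2‖ = 4 * ‖t‖ / ‖t + 1‖ ^ 2 := by
    rw [e1, norm_div, norm_mul, norm_pow]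
    norm_num
  have h6 : ‖t + 1‖ ^ 2 = ‖t‖ ^ 2 + 2 * t.re + 1 := by
    rw [← Complex.normSq_eq_norm_sq, ← Complex.normSq_eq_norm_sq, geob_sq]
  rw [h5]
  constructor
  · rw [div_le_iff₀ (by positivity), h6]
    nlinarith [sq_nonneg ‖t‖, mul_pos ht0 h1, pow_pos ht0 3]
  · rw [div_le_iff₀ (by positivity), h6]
    have h7 : 4 * ‖t‖⁻¹ * (‖t‖ ^ 2 + 2 * t.re + 1) = 4 * ‖t‖ + 4 * ‖t‖⁻¹ * (2 * t.re + 1) := by
      field_simp
      ring
    rw [h7]
    have h8 : 0 ≤ 4 * ‖t‖⁻¹ * (2 * t.re + 1) := by positivity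
    linarith

theorem yy_re (hδ : 0 < δ) (hδ1 : δ ≤ 1 / 4) (hN : NN σ c z ≠ 0) (hre : 0 ≤ (NN σ c z).re) {x : ℝ}
    (hx : 0 ≤ x) :
    (x < (yy σ c δ z).re → 1 + x < (‖NN σ c z‖ ^ δ) ^ 2) ∧
    ((yy σ c δ z).re < -x → (‖NN σ c z‖ ^ δ) ^ 2 * (1 + x) < 1) := by
  obtain ⟨h1, h2⟩ := tt_arg hδ hδ1 hN hre
  have hn := tt_norm (δ := δ) hN
  rw [← hn]
  set t := tt σ c δ z with ht
  have hy : yy σ c δ z = (t - 1) / (t + 1) := rfl
  have h3 := geob_t1 h1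
  have h4 : 0 < Complex.normSq (t + 1) := Complex.normSq_pos.2 h3
  have h0 := Complex.normSq_nonneg t
  rw [hy, (geob_yim t h1).2, ← Complex.normSq_eq_norm_sq]
  have h5 := geob_sq t
  constructor
  · intro h
    rw [lt_div_iff₀ h4] at h
    have h6 : x * 1 ≤ x * Complex.normSq (t + 1) := by
      refine mul_le_mul_of_nonneg_left ?_ hx
      rw [h5]
      linarith
    linarith
  · intro h
    rw [div_lt_iff₀ h4] at h
    have h6 : x * Complex.normSq t ≤ x * Complex.normSq (t + 1) := by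
      refine mul_le_mul_of_nonneg_left ?_ hx
      rw [h5]
      linarith
    nlinarith

end Pool.Agent.MP07129f.TP
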