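import Pool.Agent.Lib.MP_07129f_an.TP.GeoA
import Pool.Agent.Lib.MP_07129f_an.TP.GeoB
import Pool.Agent.Lib.MP_07129f_an.TP.CoreA

/-!
TP-FunA: the functions `V1`, `V2`: differentiability and bounds.

PROOF.  `lens`: `yy_lens` (`NN ≠ 0` by `NN_ne`, `Re NN ≥ 0` by `NN_re`).  Differentiability at `z`, `‖z‖ ≤ 1`,
`z ≠ 1`, `z ≠ pt`: `NN z` is in the slit plane (`Re ≥ 0`, `≠ 0`), `NN_deriv`, `t + 1 ≠ 0` (`tt_arg`), `1 + E ≠ 0`, `1 + E⁻¹ ≠ 0` (`EE_re`), the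
rest are polynomials and exponentials.
`V_norm`: `‖gg‖ ≤ δ k (2 σ / ‖z - 1‖ ^ 2) ‖z - 1‖ / ‖z - pt‖` (`NN_norm`), `‖1 - y ^ 2‖ ≤ 4 min (..)` (`one_sub_yy`), `‖TQ‖ ≤ 5` (`TQ_norm`), `‖1 + E‖ ≥ 1`,
`‖1 + E⁻¹‖ ≥ 1` (`EE_re`).
With `m₁ = ‖z - 1‖ ≤ m₂ = ‖z - pt‖`: `m₂ ≥ σ` (`m₁ + m₂ ≥ ‖pt - 1‖ = 2 σ`), `‖N‖ = m₂ / m₁`, so
`‖V‖ ≤ 40 σ δ k (m₁ / m₂) ^ δ / (m₁ m₂) = 40 σ δ k m₁ ^ (δ - 1) m₂ ^ (- 1 - δ) ≤ 40 δ k σ ^ (-δ) m₁ ^ (δ - 1) ≤ (40 δ k / σ) m₁ ^ (δ - 1)`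
(`σ ≤ 1`, `δ ≤ 1`; `m₂ ^ (-1-δ) ≤ σ ^ (-1-δ) ≤ σ ^ (-2)`); the same for `m₂ ≤ m₁` with `(m₂ / m₁) ^ δ`.
-/

namespace Pool.Agent.MP07129f.TP

open Complex Metric Set Filter Topology

variable {σ c δ k b h : ℝ} {z : ℂ}

private theorem FunA_re (hP : Par σ c δ k b h) (h1 : ‖z‖ ≤ 1) (hz : z ≠ 1) :
    0 ≤ (NN σ c z).re := by
  rw [NN_re hz]
  have h2 : normSq z ≤ 1 := by
    rw [normSq_eq_norm_sq]
    exact pow_le_one₀ (norm_nonneg _) h1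
  have h3 : 0 ≤ normSq (1 - z) := normSq_nonneg _
  have h4 := hP.σ0
  apply div_nonneg _ h3
  apply mul_nonneg h4.le
  linarith

private theorem FunA_ne (hP : Par σ c δ k b h) (hz : z ≠ 1) (hz2 : z ≠ pt σ c) :
    NN σ c z ≠ 0 := NN_ne hP.σ0 hP.σc hz hz2

/-- the values of `yy` are in the lens -/
theorem Par.lens (hP : Par σ c δ k b h) (h1 : ‖z‖ ≤ 1) (hz : z ≠ 1) (hz2 : z ≠ pt σ c) :
    ‖yy σ c δ z‖ ≤ 1 ∧ |(yy σ c δ z).im| ≤ Real.tan (δ * Real.pi / 2) / 2 := by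
  have h2 := yy_lens hP.δ0 hP.δ1 (FunA_ne hP hz hz2) (FunA_re hP h1 hz)
  exact ⟨h2.1.le, h2.2⟩

private theorem FunA_yy (hP : Par σ c δ k b h) (h1 : ‖z‖ ≤ 1) (hz : z ≠ 1) (hz2 : z ≠ pt σ c) :
    DifferentiableAt ℂ (yy σ c δ) z := by
  have hre := FunA_re hP h1 hz
  have hne := FunA_ne hP hz hz2
  have hsl : NN σ c z ∈ slitPlane := by
    rw [mem_slitPlane_iff]
    rcases hre.eq_or_lt with h0 | h0
    · right
      intro him
      apply hne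
      apply Complex.ext
      · rw [← h0]
        rfl
      · rw [him]
        rfl
    · exact Or.inl h0
  have hN : DifferentiableAt ℂ (NN σ c) z := (NN_deriv hz).differentiableAt
  have ht : DifferentiableAt ℂ (tt σ c δ) z := by
    unfold tt
    exact ((hN.clog hsl).const_mul _).cexp
  have hte := (tt_arg hP.δ0 hP.δ1 hne hre).1
  have ht1 : tt σ c δ z + 1 ≠ 0 := by
    intro h0
    have h2 := congrArg Complex.re h0
    rw [add_re, one_re, zero_re] at h2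
    linarith
  unfold yy
  exact (ht.sub_const 1).div (ht.add_const 1) ht1

private theorem FunA_gg (hP : Par σ c δ k b h) (hz : z ≠ 1) (hz2 : z ≠ pt σ c) :
    DifferentiableAt ℂ (gg σ c δ k) z := by
  have hne := FunA_ne hP hz hz2
  have hN : DifferentiableAt ℂ (NN σ c) z := (NN_deriv hz).differentiableAt
  have h1 : (1 - z) ^ 2 ≠ 0 := pow_ne_zero _ (sub_ne_zero.mpr hz.symm)
  have h3 : DifferentiableAt ℂ (fun z : ℂ => (1 - z) ^ 2) z :=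
    ((differentiableAt_const (1 : ℂ)).sub differentiableAt_id).pow 2
  have h2 : DifferentiableAt ℂ (fun z : ℂ => 2 * (σ : ℂ) / (1 - z) ^ 2) z :=
    (differentiableAt_const (2 * (σ : ℂ))).div h3 h1
  unfold gg
  exact ((differentiableAt_id.mul h2).div hN hne).const_mul _

private theorem FunA_TQ (h : ℝ) (y : ℂ) : DifferentiableAt ℂ (TQ h) y := by
  unfold TQ
  fun_prop

private theorem FunA_SP (k h : ℝ) (y : ℂ) : DifferentiableAt ℂ (SP k h) y := by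
  unfold SP
  fun_prop

private theorem FunA_EE (k h : ℝ) (y : ℂ) : DifferentiableAt ℂ (EE k h) y := by
  unfold EE
  exact ((FunA_SP k h y).const_mul 2).cexp

private theorem FunA_one {w : ℂ} (hw : 0 < w.re) : 1 + w ≠ 0 ∧ 1 ≤ ‖1 + w‖ := by
  have h1 : 1 ≤ (1 + w).re := by
    rw [add_re, one_re]
    linarith
  constructor
  · intro h0
    rw [h0, zero_re] at h1
    linarith
  · exact h1.trans (re_le_norm _)

theorem V1_diff (hP : Par σ c δ k b h) (h1 : ‖z‖ ≤ 1) (hz : z ≠ 1) (hz2 : z ≠ pt σ c) :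
    DifferentiableAt ℂ (V1 σ c δ k h) z := by
  have hy := FunA_yy hP h1 hz hz2
  have hg := FunA_gg hP hz hz2
  have hl := hP.lens h1 hz hz2
  have hE := EE_re hP.num hl.1 hl.2
  have hT : DifferentiableAt ℂ (fun z => TQ h (yy σ c δ z)) z :=
    (FunA_TQ h (yy σ c δ z)).comp z hy
  have hEE : DifferentiableAt ℂ (fun z => EE k h (yy σ c δ z)) z :=
    (FunA_EE k h (yy σ c δ z)).comp z hy
  unfold V1 W1
  exact ((hg.mul ((differentiableAt_const (1 : ℂ)).sub (hy.pow 2))).mul hT).div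
    ((differentiableAt_const (1 : ℂ)).add hEE) (FunA_one hE.1).1

theorem V2_diff (hP : Par σ c δ k b h) (h1 : ‖z‖ ≤ 1) (hz : z ≠ 1) (hz2 : z ≠ pt σ c) :
    DifferentiableAt ℂ (V2 σ c δ k h) z := by
  have hy := FunA_yy hP h1 hz hz2
  have hg := FunA_gg hP hz hz2
  have hl := hP.lens h1 hz hz2
  have hE := EE_re hP.num hl.1 hl.2
  have hT : DifferentiableAt ℂ (fun z => TQ h (yy σ c δ z)) z :=
    (FunA_TQ h (yy σ c δ z)).comp z hy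
  have hEE : DifferentiableAt ℂ (fun z => EE k h (yy σ c δ z)) z :=
    (FunA_EE k h (yy σ c δ z)).comp z hy
  have hE0 : EE k h (yy σ c δ z) ≠ 0 := Complex.exp_ne_zero _
  unfold V2 W2
  exact (((hg.mul ((differentiableAt_const (1 : ℂ)).sub (hy.pow 2))).mul hT).div
    ((differentiableAt_const (1 : ℂ)).add (hEE.inv hE0)) (FunA_one hE.2).1).neg

private theorem FunA_num {s d p q : ℝ} (hs : 0 < s) (hs1 : s ≤ 1) (hd1 : d ≤ 1 / 4)
    (hp : 0 < p) (hq : s ≤ q) (hd : 0 < d) :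
    s / (p * q) * ((q / p) ^ d)⁻¹ ≤ 1 / s * p ^ (-(1 - d)) := by
  have hq0 : 0 < q := lt_of_lt_of_le hs hq
  have h1 : (q / p) ^ d = q ^ d / p ^ d := Real.div_rpow hq0.le hp.le d
  have h2 : p ^ (-(1 - d)) = p ^ d / p := by
    rw [show -(1 - d) = d - 1 by ring, Real.rpow_sub hp, Real.rpow_one]
  have h3 : s ≤ q ^ d := by
    calc s = s ^ (1 : ℝ) := (Real.rpow_one s).symm
      _ ≤ s ^ d := Real.rpow_le_rpow_of_exponent_ge hs hs1 (by linarith)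
      _ ≤ q ^ d := Real.rpow_le_rpow hs.le hq hd.le
  have hpd : 0 < p ^ d := Real.rpow_pos_of_pos hp d
  have hqd : 0 < q ^ d := Real.rpow_pos_of_pos hq0 d
  have h4 : s * s ≤ q * q ^ d := mul_le_mul hq h3 hs.le hq0.le
  rw [h1, h2, inv_div]
  have h5 : s / (p * q) * (p ^ d / q ^ d) = (s / (q * q ^ d)) * (p ^ d / p) := by
    field_simp
  rw [h5]
  apply mul_le_mul_of_nonneg_right _ (by positivity)
  rw [div_le_div_iff₀ (by positivity) hs]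
  linarith

private theorem FunA_g (hP : Par σ c δ k b h) (h1 : ‖z‖ ≤ 1) (hz : z ≠ 1) (hz2 : z ≠ pt σ c) :
    ‖gg σ c δ k z‖ * ‖1 - yy σ c δ z ^ 2‖ * ‖TQ h (yy σ c δ z)‖ ≤
      40 * δ * k / σ * (min ‖z - 1‖ ‖z - pt σ c‖) ^ (-(1 - δ)) := by
  have hσ0 := hP.σ0
  have hσ1 : σ ≤ 1 := by nlinarith [hP.σc, sq_nonneg c]
  have hδ0 := hP.δ0
  have hδ1 := hP.δ1
  have hk := hP.num.k_ge
  have hk0 : 0 < k := by linarith
  have hne := FunA_ne hP hz hz2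
  have hre := FunA_re hP h1 hz
  have hl := hP.lens h1 hz hz2
  have hT := TQ_norm hP.num hl.1
  have hy := one_sub_yy hP.δ0 hP.δ1 hne hre
  have hN := NN_norm (z := z) hP.σc hz
  have hp : 0 < ‖z - 1‖ := norm_pos_iff.mpr (sub_ne_zero.mpr hz)
  have hq : 0 < ‖z - pt σ c‖ := norm_pos_iff.mpr (sub_ne_zero.mpr hz2)
  have hd : 2 * σ ≤ ‖z - 1‖ + ‖z - pt σ c‖ := by
    rw [← pt_dist hP.σ0 hP.σc]
    calc ‖pt σ c - 1‖ = ‖(z - 1) - (z - pt σ c)‖ := by congr 1; ring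
      _ ≤ _ := norm_sub_le _ _
  have hsw : ‖1 - z‖ = ‖z - 1‖ := norm_sub_rev _ _
  have hg : ‖gg σ c δ k z‖ ≤ 2 * δ * k * (σ / (‖z - 1‖ * ‖z - pt σ c‖)) := by
    unfold gg
    rw [norm_mul, norm_mul, norm_div, norm_mul, norm_div, norm_mul, norm_pow, hN, hsw,
      Complex.norm_real, Complex.norm_real, Complex.norm_real, Complex.norm_two,
      Real.norm_of_nonneg hδ0.le, Real.norm_of_nonneg hk0.le, Real.norm_of_nonneg hσ0.le]
    have h5 : δ * k * (‖z‖ * (2 * σ / ‖z - 1‖ ^ 2) / (‖z - pt σ c‖ / ‖z - 1‖)) =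
        ‖z‖ * (2 * δ * k * (σ / (‖z - 1‖ * ‖z - pt σ c‖))) := by
      field_simp
    rw [h5]
    have h6 : 0 ≤ 2 * δ * k * (σ / (‖z - 1‖ * ‖z - pt σ c‖)) := by positivity
    calc ‖z‖ * (2 * δ * k * (σ / (‖z - 1‖ * ‖z - pt σ c‖))) ≤
        1 * (2 * δ * k * (σ / (‖z - 1‖ * ‖z - pt σ c‖))) := mul_le_mul_of_nonneg_right h1 h6
      _ = _ := one_mul _
  have hg0 : 0 ≤ 2 * δ * k * (σ / (‖z - 1‖ * ‖z - pt σ c‖)) := by positivity
  rw [hN] at hy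
  rcases le_total ‖z - 1‖ ‖z - pt σ c‖ with hle | hle
  · rw [min_eq_left hle]
    have hnum := FunA_num hσ0 hσ1 hδ1 hp (show σ ≤ ‖z - pt σ c‖ by linarith) hδ0
    have hpos : 0 ≤ ((‖z - pt σ c‖ / ‖z - 1‖) ^ δ)⁻¹ := by positivity
    calc ‖gg σ c δ k z‖ * ‖1 - yy σ c δ z ^ 2‖ * ‖TQ h (yy σ c δ z)‖
        ≤ (2 * δ * k * (σ / (‖z - 1‖ * ‖z - pt σ c‖))) *
          (4 * ((‖z - pt σ c‖ / ‖z - 1‖) ^ δ)⁻¹) * 5 := by
          apply mul_le_mul _ hT (norm_nonneg _) (by positivity)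
          exact mul_le_mul hg hy.2 (norm_nonneg _) hg0
      _ = 40 * δ * k * (σ / (‖z - 1‖ * ‖z - pt σ c‖) * ((‖z - pt σ c‖ / ‖z - 1‖) ^ δ)⁻¹) := by
          ring
      _ ≤ 40 * δ * k * (1 / σ * ‖z - 1‖ ^ (-(1 - δ))) :=
          mul_le_mul_of_nonneg_left hnum (by positivity)
      _ = _ := by ring
  · rw [min_eq_right hle]
    have hnum := FunA_num hσ0 hσ1 hδ1 hq (show σ ≤ ‖z - 1‖ by linarith) hδ0
    have hsym : ((‖z - 1‖ / ‖z - pt σ c‖) ^ δ)⁻¹ = (‖z - pt σ c‖ / ‖z - 1‖) ^ δ := by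
      rw [← Real.inv_rpow (by positivity), inv_div]
    rw [hsym] at hnum
    calc ‖gg σ c δ k z‖ * ‖1 - yy σ c δ z ^ 2‖ * ‖TQ h (yy σ c δ z)‖
        ≤ (2 * δ * k * (σ / (‖z - 1‖ * ‖z - pt σ c‖))) *
          (4 * (‖z - pt σ c‖ / ‖z - 1‖) ^ δ) * 5 := by
          apply mul_le_mul _ hT (norm_nonneg _) (by positivity)
          exact mul_le_mul hg hy.1 (norm_nonneg _) hg0
      _ = 40 * δ * k * (σ / (‖z - pt σ c‖ * ‖z - 1‖) * (‖z - pt σ c‖ / ‖z - 1‖) ^ δ) := by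
          rw [mul_comm ‖z - pt σ c‖ ‖z - 1‖]
          ring
      _ ≤ 40 * δ * k * (1 / σ * ‖z - pt σ c‖ ^ (-(1 - δ))) :=
          mul_le_mul_of_nonneg_left hnum (by positivity)
      _ = _ := by ring

theorem V_norm (hP : Par σ c δ k b h) (h1 : ‖z‖ ≤ 1) (hz : z ≠ 1) (hz2 : z ≠ pt σ c) :
    ‖V1 σ c δ k h z‖ ≤ 40 * δ * k / σ * (min ‖z - 1‖ ‖z - pt σ c‖) ^ (-(1 - δ)) ∧
    ‖V2 σ c δ k h z‖ ≤ 40 * δ * k / σ * (min ‖z - 1‖ ‖z - pt σ c‖) ^ (-(1 - δ)) := by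
  have hl := hP.lens h1 hz hz2
  have hE := EE_re hP.num hl.1 hl.2
  have hg := FunA_g hP h1 hz hz2
  constructor
  · refine le_trans ?_ hg
    unfold V1 W1
    rw [norm_div, norm_mul, norm_mul]
    exact div_le_self (by positivity) (FunA_one hE.1).2
  · refine le_trans ?_ hg
    unfold V2 W2
    rw [norm_neg, norm_div, norm_mul, norm_mul]
    exact div_le_self (by positivity) (FunA_one hE.2).2

end Pool.Agent.MP07129f.TP
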