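import Pool.Agent.Lib.MP_07129f_an.TP.FunA

/-!
TP-FunB: the factors `A1`, `A2`.

PROOF.  `SP k h` has the derivative `k * TQ h y`; `y = (t - 1) / (t + 1)` has the derivative `2 t' / (t + 1) ^ 2`, `t' = δ (N' / N) t`
(`NN_deriv`), and
`4 t / (t + 1) ^ 2 = 1 - y ^ 2`; so `2 z (S (y z))' = gg * (1 - y ^ 2) * TQ h y`, and with `E = exp (2 S)`, `E' = 2 S' E`:
`A2' = - 2 E' / (1 + E) ^ 2`, `z A2' / A2 = - 2 z S' E / (1 + E) = - 2 z S' / (1 + E⁻¹)`;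
`A1 = 2 / (1 + E⁻¹)`, `z A1' / A1 = 2 z S' E⁻¹ / (1 + E⁻¹) = 2 z S' / (1 + E)`.
`Re E > 0`, `Re E⁻¹ > 0` (`EE_re`, `Par.lens`), so `Re (2 / (1 + E)) > 0`.
`A_zero`: `Par.zero`.  `A1 + A2 = 2`: `E⁻¹ = 1 / E`.
`A_ne`: otherwise `A1 = A2 = 1` on the disc (`A_add`), the derivatives are zero and `V1 = 0` on the disc (`V1 A1 = z A1'`), but `V1 z ≠ 0` for `z ≠ 0`:
`gg z ≠ 0`, `1 - y ^ 2 = 4 t / (t + 1) ^ 2 ≠ 0`, `TQ h y ≠ 0` (`TQ_re`, `Par.lens`).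
-/

namespace Pool.Agent.MP07129f.TP

open Complex Metric Set Filter Topology

variable {σ c δ k b h : ℝ} {z : ℂ}

private theorem FunB_basic (hP : Par σ c δ k b h) (hz : z ∈ ball (0 : ℂ) 1) :
    ‖z‖ ≤ 1 ∧ z ≠ 1 ∧ z ≠ pt σ c ∧ 0 < (NN σ c z).re := by
  have hz1 : ‖z‖ < 1 := by simpa using hz
  have h1 : z ≠ 1 := by
    rintro rfl
    simp at hz1
  have h2 : z ≠ pt σ c := by
    intro h
    have := pt_norm hP.σc
    rw [← h] at this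
    linarith
  refine ⟨hz1.le, h1, h2, ?_⟩
  rw [NN_re h1]
  have h3 : normSq z < 1 := by
    rw [normSq_eq_norm_sq]
    nlinarith [norm_nonneg z]
  have h4 : 0 < normSq (1 - z) := by
    rw [normSq_pos]
    exact sub_ne_zero.2 (Ne.symm h1)
  have h5 := hP.σ0
  apply div_pos (mul_pos h5 (by linarith)) h4

private theorem FunB_tt (hP : Par σ c δ k b h) (hz : z ∈ ball (0 : ℂ) 1) :
    HasDerivAt (tt σ c δ) (tt σ c δ z * (δ * ((2 * σ / (1 - z) ^ 2) / NN σ c z))) z ∧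
      tt σ c δ z ≠ 0 ∧ tt σ c δ z + 1 ≠ 0 ∧ NN σ c z ≠ 0 := by
  obtain ⟨h1, h2, h3, h4⟩ := FunB_basic hP hz
  have hN : NN σ c z ≠ 0 := by
    intro h
    rw [h] at h4
    simp at h4
  have hslit : NN σ c z ∈ slitPlane := Or.inl h4
  have hd := (NN_deriv (σ := σ) (c := c) h2).clog hslit
  have hd2 := (hd.const_mul (δ : ℂ)).cexp
  refine ⟨hd2, exp_ne_zero _, ?_, hN⟩
  obtain ⟨h5, -⟩ := tt_arg (σ := σ) (c := c) hP.δ0 hP.δ1 hN h4.le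
  intro h
  have h6 : (tt σ c δ z + 1).re = 0 := by rw [h]; simp
  simp at h6
  linarith

private theorem FunB_yy (hP : Par σ c δ k b h) (hz : z ∈ ball (0 : ℂ) 1) :
    ∃ y' : ℂ, HasDerivAt (yy σ c δ) y' z ∧
      z * (2 * (k * y')) = gg σ c δ k z * (1 - yy σ c δ z ^ 2) ∧ 1 - yy σ c δ z ^ 2 ≠ 0 := by
  obtain ⟨ht, ht0, ht1, hN⟩ := FunB_tt hP hz
  obtain ⟨-, h2, -, -⟩ := FunB_basic hP hz
  have hz' : (1 - z) ≠ 0 := sub_ne_zero.2 (Ne.symm h2)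
  have hd := (ht.sub_const 1).div (ht.add_const 1) ht1
  refine ⟨_, hd, ?_, ?_⟩
  · unfold yy gg
    field_simp
    ring
  · unfold yy
    have : 1 - ((tt σ c δ z - 1) / (tt σ c δ z + 1)) ^ 2 = 4 * tt σ c δ z / (tt σ c δ z + 1) ^ 2 := by
      field_simp
      ring
    rw [this]
    exact div_ne_zero (mul_ne_zero (by norm_num) ht0) (pow_ne_zero _ ht1)

private theorem FunB_SP (y : ℂ) : HasDerivAt (SP k h) (k * TQ h y) y := by
  have h1 : HasDerivAt (fun y : ℂ => y) 1 y := hasDerivAt_id y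
  have h2 := (((h1.add (h1.pow 3)).add (((((h1.pow 2).const_sub 1).pow 2)).const_mul
    ((h : ℂ) * I)))).const_mul (k : ℂ)
  refine (h2.congr_deriv ?_).congr_of_eventuallyEq ?_
  · unfold TQ
    simp only [Pi.pow_apply]
    push_cast
    ring
  · exact Filter.Eventually.of_forall (fun w => by unfold SP; simp)

private theorem FunB_EE (hP : Par σ c δ k b h) (hz : z ∈ ball (0 : ℂ) 1) :
    ∃ E' : ℂ, HasDerivAt (fun w => EE k h (yy σ c δ w)) (EE k h (yy σ c δ z) * E') z ∧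
      z * E' = gg σ c δ k z * (1 - yy σ c δ z ^ 2) * TQ h (yy σ c δ z) := by
  obtain ⟨y', hy, hy2, -⟩ := FunB_yy hP hz
  have h1 : HasDerivAt (fun w => SP k h (yy σ c δ w)) (k * TQ h (yy σ c δ z) * y') z :=
    (FunB_SP (k := k) (h := h) (yy σ c δ z)).comp z hy
  have h2 := (h1.const_mul (2 : ℂ)).cexp
  refine ⟨_, h2, ?_⟩
  rw [← hy2]
  ring

private theorem FunB_re (hP : Par σ c δ k b h) (hz : z ∈ ball (0 : ℂ) 1) :
    0 < (EE k h (yy σ c δ z)).re ∧ 0 < ((EE k h (yy σ c δ z))⁻¹).re := by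
  obtain ⟨h1, h2, h3, -⟩ := FunB_basic hP hz
  obtain ⟨h4, h5⟩ := hP.lens h1 h2 h3
  exact EE_re hP.num h4 h5

private theorem FunB_one_add {w : ℂ} (hw : 0 < w.re) : 1 + w ≠ 0 ∧ 0 < (2 / (1 + w)).re := by
  have h0 : 1 + w ≠ 0 := by
    intro h
    have h6 : (1 + w).re = 0 := by rw [h]; simp
    simp at h6
    linarith
  refine ⟨h0, ?_⟩
  have h1 : 0 < normSq (1 + w) := normSq_pos.2 h0
  rw [div_re]
  have h2 : (2 : ℂ).re = 2 := rfl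
  have h3 : (2 : ℂ).im = 0 := rfl
  rw [h2, h3]
  have h4 : (1 + w).re = 1 + w.re := by simp
  rw [h4]
  have : 0 < 2 * (1 + w.re) / normSq (1 + w) := div_pos (by linarith) h1
  simpa using this

theorem A1_diff (hP : Par σ c δ k b h) (hz : z ∈ ball (0 : ℂ) 1) :
    DifferentiableAt ℂ (A1 σ c δ k h) z ∧ V1 σ c δ k h z * A1 σ c δ k h z = z * deriv (A1 σ c δ k h) z ∧
      0 < (A1 σ c δ k h z).re := by
  obtain ⟨E', hE, hE2⟩ := FunB_EE hP hz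
  obtain ⟨hr1, hr2⟩ := FunB_re hP hz
  obtain ⟨hn1, -⟩ := FunB_one_add hr1
  obtain ⟨hn2, hp⟩ := FunB_one_add hr2
  have hE0 : EE k h (yy σ c δ z) ≠ 0 := exp_ne_zero _
  have hd : HasDerivAt (A1 σ c δ k h) _ z :=
    (hasDerivAt_const z (2 : ℂ)).div ((hE.inv hE0).const_add 1) hn2
  refine ⟨hd.differentiableAt, ?_, hp⟩
  rw [hd.deriv]
  unfold V1 W1 A1
  rw [← hE2]
  revert hE0 hn1 hn2
  generalize EE k h (yy σ c δ z) = E
  intro hE0 hn1 hn2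
  have h3 : E + 1 ≠ 0 := by rwa [add_comm]
  have h4 : 1 + E⁻¹ = (E + 1) / E := by
    field_simp
  rw [h4]
  field_simp
  ring

theorem A2_diff (hP : Par σ c δ k b h) (hz : z ∈ ball (0 : ℂ) 1) :
    DifferentiableAt ℂ (A2 σ c δ k h) z ∧ V2 σ c δ k h z * A2 σ c δ k h z = z * deriv (A2 σ c δ k h) z ∧
      0 < (A2 σ c δ k h z).re := by
  obtain ⟨E', hE, hE2⟩ := FunB_EE hP hz
  obtain ⟨hr1, hr2⟩ := FunB_re hP hz
  obtain ⟨hn1, hp⟩ := FunB_one_add hr1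
  obtain ⟨hn2, -⟩ := FunB_one_add hr2
  have hE0 : EE k h (yy σ c δ z) ≠ 0 := exp_ne_zero _
  have hd : HasDerivAt (A2 σ c δ k h) _ z :=
    (hasDerivAt_const z (2 : ℂ)).div (hE.const_add 1) hn1
  refine ⟨hd.differentiableAt, ?_, hp⟩
  rw [hd.deriv]
  unfold V2 W2 A2
  rw [← hE2]
  revert hE0 hn1 hn2
  generalize EE k h (yy σ c δ z) = E
  intro hE0 hn1 hn2
  have h3 : E + 1 ≠ 0 := by rwa [add_comm]
  have h4 : 1 + E⁻¹ = (E + 1) / E := by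
    field_simp
  rw [h4]
  field_simp
  ring

theorem A_zero (hP : Par σ c δ k b h) : A1 σ c δ k h 0 = 1 ∧ A2 σ c δ k h 0 = 1 := by
  have h1 : EE k h (yy σ c δ 0) = 1 := by
    unfold EE
    rw [hP.zero]
    simp
  unfold A1 A2
  rw [h1]
  norm_num

theorem A_add (hP : Par σ c δ k b h) (hz : z ∈ ball (0 : ℂ) 1) :
    A1 σ c δ k h z + A2 σ c δ k h z = 2 := by
  obtain ⟨hr1, hr2⟩ := FunB_re hP hz
  obtain ⟨hn1, -⟩ := FunB_one_add hr1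
  obtain ⟨hn2, -⟩ := FunB_one_add hr2
  have hE0 : EE k h (yy σ c δ z) ≠ 0 := exp_ne_zero _
  unfold A1 A2
  have h3 : EE k h (yy σ c δ z) + 1 ≠ 0 := by rwa [add_comm]
  field_simp
  ring

/-- the two factors are different -/
theorem A_ne (hP : Par σ c δ k b h) : ∃ z ∈ ball (0 : ℂ) 1, A1 σ c δ k h z ≠ A2 σ c δ k h z := by
  by_contra hcon
  push Not at hcon
  have hA1 : ∀ z ∈ ball (0 : ℂ) 1, A1 σ c δ k h z = 1 := by
    intro z hz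
    have h1 := hcon z hz
    have h2 := A_add hP hz
    rw [← h1] at h2
    linear_combination h2 / 2
  have hz : ((1 / 2 : ℝ) : ℂ) ∈ ball (0 : ℂ) 1 := by
    simp
    norm_num
  obtain ⟨hd, hV, -⟩ := A1_diff hP hz
  have hder : deriv (A1 σ c δ k h) ((1 / 2 : ℝ) : ℂ) = 0 := by
    have h1 : A1 σ c δ k h =ᶠ[𝓝 (((1 / 2 : ℝ) : ℂ))] fun _ => (1 : ℂ) := by
      filter_upwards [isOpen_ball.mem_nhds hz] with w hw
      exact hA1 w hw
    rw [h1.deriv_eq]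
    simp
  rw [hder, hA1 _ hz, mul_one, mul_zero] at hV
  obtain ⟨hr1, hr2⟩ := FunB_re hP hz
  obtain ⟨hn1, -⟩ := FunB_one_add hr1
  obtain ⟨-, -, -, hN⟩ := FunB_tt hP hz
  obtain ⟨y', -, -, hy⟩ := FunB_yy hP hz
  obtain ⟨h1, h2, h3, -⟩ := FunB_basic hP hz
  obtain ⟨h4, h5⟩ := hP.lens h1 h2 h3
  have hTQ := TQ_re hP.num h4 h5
  have hTQ0 : TQ h (yy σ c δ ((1 / 2 : ℝ) : ℂ)) ≠ 0 := by
    intro h
    rw [h] at hTQ
    simp at hTQ
    linarith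
  have hk : (0 : ℝ) < k := by
    have := Num.k_ge hP.num
    linarith
  have hgg : gg σ c δ k ((1 / 2 : ℝ) : ℂ) ≠ 0 := by
    unfold gg
    have hσ : (σ : ℂ) ≠ 0 := by exact_mod_cast hP.σ0.ne'
    have hδ : (δ : ℂ) ≠ 0 := by exact_mod_cast hP.δ0.ne'
    have hk' : (k : ℂ) ≠ 0 := by exact_mod_cast hk.ne'
    have h6 : (1 : ℂ) - ((1 / 2 : ℝ) : ℂ) ≠ 0 := sub_ne_zero.2 (Ne.symm h2)
    have h7 : ((1 / 2 : ℝ) : ℂ) ≠ 0 := by norm_num
    exact mul_ne_zero (mul_ne_zero hδ hk') (div_ne_zero (mul_ne_zero h7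
      (div_ne_zero (mul_ne_zero two_ne_zero hσ) (pow_ne_zero _ h6))) hN)
  have h8 : V1 σ c δ k h ((1 / 2 : ℝ) : ℂ) ≠ 0 := by
    unfold V1 W1
    exact div_ne_zero (mul_ne_zero (mul_ne_zero hgg hy) hTQ0) hn1
  exact h8 hV

end Pool.Agent.MP07129f.TP
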