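import Pool.Agent.Lib.MP_07129f_an.TP.Defs

/-!
TP-GeoA: the Möbius map `NN`.

PROOF.  `NN σ c z = (σ - i c) (1 - z conj (pt σ c)) / (1 - z)` for `z ≠ 1` (`(σ - i c) conj (pt σ c) = - (σ + i c)`, from
`σ ^ 2 + c ^ 2 = 1`; `conj (pt σ c) = (c - i σ) ^ 2`), `‖pt‖ = 1`, `‖1 - z conj pt‖ = ‖z - pt‖`, `‖σ - i c‖ = 1`; `pt - 1 = - 2 σ (σ - i c)`.
`NN_re`: `Re ((1 + z) / (1 - z)) = (1 - normSq z) / normSq (1 - z)`.
`NN_deriv`: `(1 + z) / (1 - z)` has the derivative `2 / (1 - z) ^ 2`.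
`NN_bdy`: `NN_re` for `‖z‖ = 1`, and `z / (1 - z) ^ 2 = - 1 / normSq (1 - z)` (`1 - z = - z conj (1 - z)`).
`NN_im_near`: `Im NN = 2 σ Im z / ‖z - 1‖ ^ 2 - c` and `|Im z| = ‖z - 1‖ √(1 - ‖z - 1‖ ^ 2 / 4)` on the circle, so for `‖z - 1‖ < σ ≤ 1`
`2 σ |Im z| / ‖z - 1‖ ^ 2 > √3 > 1 ≥ |c|` (if `Im z = 0` then `z = ± 1`, `z = -1` has `‖z - 1‖ = 2`); for the second point:
`(NN σ c z)⁻¹ = NN σ (-c) (z * conj (pt σ c))` (direct, from the first formula), `‖z - pt‖ = ‖z conj pt - 1‖`, and the first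
part for `z conj pt` (the inverse of `i n` is `- i / n`).
-/

namespace Pool.Agent.MP07129f.TP

open Complex Metric Set Filter Topology

variable {σ c δ : ℝ} {z : ℂ}

private theorem GeoA_unit (hσc : σ ^ 2 + c ^ 2 = 1) : ((c : ℂ) + σ * I) * (c - σ * I) = 1 := by
  have h : ((σ : ℂ)) ^ 2 + (c : ℂ) ^ 2 = 1 := by exact_mod_cast hσc
  linear_combination h - (σ : ℂ) ^ 2 * I_sq

private theorem GeoA_conj : (starRingEnd ℂ) (pt σ c) = ((c : ℂ) - σ * I) ^ 2 := by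
  simp [pt, sub_eq_add_neg]

private theorem GeoA_nrm (hσc : σ ^ 2 + c ^ 2 = 1) : ‖(c : ℂ) + σ * I‖ = 1 := by
  have h : normSq ((c : ℂ) + σ * I) = 1 := by
    rw [normSq_add_mul_I]
    linarith
  rw [Complex.normSq_eq_norm_sq] at h
  nlinarith [norm_nonneg ((c : ℂ) + σ * I)]

theorem pt_norm (hσc : σ ^ 2 + c ^ 2 = 1) : ‖pt σ c‖ = 1 := by
  rw [pt, norm_pow, GeoA_nrm hσc, one_pow]

theorem pt_dist (hσ : 0 < σ) (hσc : σ ^ 2 + c ^ 2 = 1) : ‖pt σ c - 1‖ = 2 * σ := by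
  have h : pt σ c - 1 = ((2 * σ : ℝ) : ℂ) * (I * (c + σ * I)) := by
    have h := GeoA_unit hσc
    push_cast
    rw [pt]
    linear_combination h
  rw [h, norm_mul, norm_mul, GeoA_nrm hσc, norm_I, Complex.norm_real, Real.norm_eq_abs,
    abs_of_pos (by linarith)]
  ring

private theorem GeoA_one_sub (hz : z ≠ 1) : (1 : ℂ) - z ≠ 0 := fun h => hz (sub_eq_zero.1 h).symm

private theorem GeoA_form (hσc : σ ^ 2 + c ^ 2 = 1) (hz : z ≠ 1) :
    NN σ c z = I * ((c - σ * I) * (z - pt σ c)) / (1 - z) := by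
  have h1 := GeoA_one_sub hz
  rw [eq_div_iff h1, NN, pt, sub_mul, mul_assoc, div_mul_cancel₀ _ h1]
  have h := GeoA_unit hσc
  linear_combination (I * (c + σ * I)) * h + (σ * z + σ) * I_sq

theorem NN_norm (hσc : σ ^ 2 + c ^ 2 = 1) (hz : z ≠ 1) :
    ‖NN σ c z‖ = ‖z - pt σ c‖ / ‖z - 1‖ := by
  have h2 : ‖(c : ℂ) - σ * I‖ = 1 := by
    have h3 : (c : ℂ) - σ * I = (starRingEnd ℂ) ((c : ℂ) + σ * I) := by
      simp [sub_eq_add_neg]
    rw [h3, Complex.norm_conj, GeoA_nrm hσc]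
  rw [GeoA_form hσc hz, norm_div, norm_mul, norm_mul, norm_I, h2, one_mul, one_mul,
    norm_sub_rev 1 z]

theorem NN_re (hz : z ≠ 1) : (NN σ c z).re = σ * (1 - normSq z) / normSq (1 - z) := by
  have h1 := GeoA_one_sub hz
  have h2 : normSq (1 - z) ≠ 0 := fun h => h1 (normSq_eq_zero.1 h)
  have h3 : ((1 + z) / (1 - z)).re = (1 - normSq z) / normSq (1 - z) := by
    rw [div_re, ← add_div]
    congr 1
    simp [normSq_apply]
    ring
  rw [NN, sub_re, re_ofReal_mul, h3]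
  simp
  ring

private theorem GeoA_im (hz : z ≠ 1) : (NN σ c z).im = σ * (2 * z.im) / normSq (1 - z) - c := by
  have h1 := GeoA_one_sub hz
  have h3 : ((1 + z) / (1 - z)).im = (2 * z.im) / normSq (1 - z) := by
    rw [div_im, ← sub_div]
    congr 1
    simp
    ring
  rw [NN, sub_im, im_ofReal_mul, h3]
  simp
  ring

theorem NN_ne (hσ : 0 < σ) (hσc : σ ^ 2 + c ^ 2 = 1) (hz : z ≠ 1) (hz2 : z ≠ pt σ c) :
    NN σ c z ≠ 0 := by
  intro h
  have h1 := NN_norm hσc hz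
  rw [h, norm_zero] at h1
  have h2 : 0 < ‖z - pt σ c‖ := norm_pos_iff.2 (sub_ne_zero.2 hz2)
  have h3 : 0 < ‖z - 1‖ := norm_pos_iff.2 (sub_ne_zero.2 hz)
  have h4 : 0 < ‖z - pt σ c‖ / ‖z - 1‖ := div_pos h2 h3
  linarith

theorem NN_deriv (hz : z ≠ 1) : HasDerivAt (NN σ c) (2 * σ / (1 - z) ^ 2) z := by
  have h1 := GeoA_one_sub hz
  have h2 : HasDerivAt (fun z : ℂ => 1 + z) 1 z := (hasDerivAt_id z).const_add 1
  have h3 : HasDerivAt (fun z : ℂ => 1 - z) (-1) z := (hasDerivAt_id z).const_sub 1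
  have h4 := (((h2.div h3 h1).const_mul (σ : ℂ)).sub_const ((c : ℂ) * I))
  refine h4.congr_deriv ?_
  field_simp
  ring

private theorem GeoA_nsq (z : ℂ) : normSq (1 - z) = ‖z - 1‖ ^ 2 := by
  rw [Complex.normSq_eq_norm_sq, norm_sub_rev]

theorem NN_bdy (h1 : ‖z‖ = 1) (hz : z ≠ 1) :
    NN σ c z = ((NN σ c z).im : ℂ) * I ∧
      z * (2 * σ / (1 - z) ^ 2) = ((-(2 * σ / ‖z - 1‖ ^ 2) : ℝ) : ℂ) := by
  have hn : normSq z = 1 := by rw [Complex.normSq_eq_norm_sq, h1, one_pow]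
  have h0 := GeoA_one_sub hz
  constructor
  · apply Complex.ext
    · rw [NN_re hz, hn]
      simp
    · simp
  · have h2 : z * (starRingEnd ℂ) z = 1 := by
      rw [Complex.mul_conj, hn]
      simp
    have h3 : (1 - z) * (1 - (starRingEnd ℂ) z) = (normSq (1 - z) : ℂ) := by
      rw [← Complex.mul_conj]
      simp
    have h4 : (normSq (1 - z) : ℂ) ≠ 0 := by
      have : normSq (1 - z) ≠ 0 := fun h => h0 (normSq_eq_zero.1 h)
      exact_mod_cast this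
    rw [← GeoA_nsq]
    push_cast
    have h5 : z * (normSq (1 - z) : ℂ) = -(1 - z) ^ 2 := by
      rw [← h3]
      linear_combination (-(1 - z)) * h2
    rw [← neg_div, mul_div_assoc', div_eq_div_iff (pow_ne_zero 2 h0) h4]
    linear_combination (2 * (σ : ℂ)) * h5

private theorem GeoA_near (hσ : 0 < σ) (hσc : σ ^ 2 + c ^ 2 = 1) (h1 : ‖z‖ = 1) (hz : z ≠ 1)
    (hlt : ‖z - 1‖ < σ) : 0 < (NN σ c z).im * z.im := by
  have hn : normSq z = 1 := by rw [Complex.normSq_eq_norm_sq, h1, one_pow]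
  have hD : 0 < ‖z - 1‖ := norm_pos_iff.2 (sub_ne_zero.2 hz)
  have hσ1 : σ ≤ 1 := by nlinarith [sq_nonneg c]
  have hc1 : |c| ≤ 1 := by
    rw [abs_le]
    constructor <;> nlinarith [sq_nonneg σ]
  have hy : |z.im| ≤ ‖z - 1‖ := by
    have := Complex.abs_im_le_norm (z - 1)
    simpa using this
  have hq : z.im ^ 2 = ‖z - 1‖ ^ 2 * (1 - ‖z - 1‖ ^ 2 / 4) := by
    rw [← GeoA_nsq]
    rw [normSq_apply] at hn
    have e : normSq (1 - z) = 2 - 2 * z.re := by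
      rw [normSq_apply]
      simp
      nlinarith
    rw [e]
    nlinarith
  have hci : c * z.im ≤ ‖z - 1‖ := by
    calc c * z.im ≤ |c * z.im| := le_abs_self _
      _ = |c| * |z.im| := abs_mul _ _
      _ ≤ 1 * ‖z - 1‖ := mul_le_mul hc1 hy (abs_nonneg _) zero_le_one
      _ = ‖z - 1‖ := one_mul _
  have e2 : (NN σ c z).im * z.im = 2 * σ * (1 - ‖z - 1‖ ^ 2 / 4) - c * z.im := by
    rw [GeoA_im hz, GeoA_nsq, sub_mul]
    congr 1
    rw [div_mul_eq_mul_div, div_eq_iff (pow_pos hD 2).ne']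
    linear_combination (2 * σ) * hq
  rw [e2]
  have h5 : ‖z - 1‖ ^ 2 ≤ 1 := by nlinarith
  nlinarith

private theorem GeoA_inv (hσc : σ ^ 2 + c ^ 2 = 1) (hz : z ≠ 1) (hz2 : z ≠ pt σ c) :
    NN σ c z * NN σ (-c) (z * (starRingEnd ℂ) (pt σ c)) = 1 := by
  have h := GeoA_unit hσc
  have hw : z * (starRingEnd ℂ) (pt σ c) ≠ 1 := by
    intro h2
    apply hz2
    rw [GeoA_conj] at h2
    rw [pt]
    have e : z = (z * ((c : ℂ) - σ * I) ^ 2) * ((c : ℂ) + σ * I) ^ 2 := by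
      have e2 : ((c : ℂ) - σ * I) ^ 2 * ((c : ℂ) + σ * I) ^ 2 = 1 := by
        rw [← mul_pow, mul_comm, h, one_pow]
      rw [mul_assoc, e2, mul_one]
    rw [e, h2, one_mul]
  have hσc' : σ ^ 2 + (-c) ^ 2 = 1 := by rw [neg_sq]; exact hσc
  have h0 := GeoA_one_sub hz
  have hw0 := GeoA_one_sub hw
  rw [GeoA_form hσc hz, GeoA_form hσc' hw]
  rw [div_mul_div_comm, div_eq_one_iff_eq (mul_ne_zero h0 hw0)]
  rw [GeoA_conj, pt, pt]
  push_cast
  linear_combination (z - 1) * (((c : ℂ) - σ * I) ^ 2 * z - (((c : ℂ) + σ * I) ^ 2 *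
    ((c : ℂ) - σ * I) ^ 2 + ((c : ℂ) + σ * I) * ((c : ℂ) - σ * I) + 1)) * h -
    ((c : ℂ) + σ * I) * ((c : ℂ) - σ * I) ^ 3 * (z - ((c : ℂ) + σ * I) ^ 2) * (z - 1) * I_sq

/-- the sign of `Im NN` on the circle near the two points -/
theorem NN_im_near (hσ : 0 < σ) (hσc : σ ^ 2 + c ^ 2 = 1) (h1 : ‖z‖ = 1) (hz : z ≠ 1)
    (hz2 : z ≠ pt σ c) :
    (‖z - 1‖ < σ → 0 < (NN σ c z).im * z.im) ∧
    (‖z - pt σ c‖ < σ → (NN σ c z).im * (z * (starRingEnd ℂ) (pt σ c)).im < 0) := by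
  refine ⟨GeoA_near hσ hσc h1 hz, fun hlt => ?_⟩
  set w := z * (starRingEnd ℂ) (pt σ c) with hw
  have hpn : ‖(starRingEnd ℂ) (pt σ c)‖ = 1 := by rw [Complex.norm_conj, pt_norm hσc]
  have hpp : pt σ c * (starRingEnd ℂ) (pt σ c) = 1 := by
    rw [Complex.mul_conj, Complex.normSq_eq_norm_sq, pt_norm hσc]
    simp
  have hw1 : ‖w‖ = 1 := by rw [hw, norm_mul, h1, hpn, one_mul]
  have hwd : ‖w - 1‖ = ‖z - pt σ c‖ := by
    have e : w - 1 = (z - pt σ c) * (starRingEnd ℂ) (pt σ c) := by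
      rw [hw, sub_mul, hpp]
    rw [e, norm_mul, hpn, mul_one]
  have hwne : w ≠ 1 := by
    intro h
    rw [h, sub_self, norm_zero] at hwd
    exact hz2 (sub_eq_zero.1 (norm_eq_zero.1 hwd.symm))
  have hσc' : σ ^ 2 + (-c) ^ 2 = 1 := by rw [neg_sq]; exact hσc
  have h2 := GeoA_near hσ hσc' hw1 hwne (by rw [hwd]; exact hlt)
  have h3 := GeoA_inv hσc hz hz2
  rw [← hw] at h3
  have e1 := (NN_bdy (σ := σ) (c := c) h1 hz).1
  have e2 := (NN_bdy (σ := σ) (c := -c) hw1 hwne).1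
  rw [e1, e2] at h3
  have h4 : (NN σ c z).im * (NN σ (-c) w).im = -1 := by
    have h5 : (((NN σ c z).im * (NN σ (-c) w).im : ℝ) : ℂ) = ((-1 : ℝ) : ℂ) := by
      push_cast
      linear_combination -h3 + ((NN σ c z).im : ℂ) * (NN σ (-c) w).im * I_sq
    exact_mod_cast h5
  have h6 : (NN σ (-c) w).im ≠ 0 := by
    intro h
    rw [h, mul_zero] at h4
    linarith
  have h7 : 0 < (NN σ (-c) w).im ^ 2 := by positivity
  have h8 : (NN σ c z).im * w.im * (NN σ (-c) w).im ^ 2 < 0 := by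
    have : (NN σ c z).im * w.im * (NN σ (-c) w).im ^ 2 =
        ((NN σ c z).im * (NN σ (-c) w).im) * ((NN σ (-c) w).im * w.im) := by ring
    rw [this, h4]
    linarith
  by_contra hcon
  push Not at hcon
  have := mul_nonneg hcon h7.le
  linarith

end Pool.Agent.MP07129f.TP
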