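import Pool.Agent.Lib.MP_07129f_an.TP.Defs

/-!
TP-Help: `Q = exp (α l)` near a point of the circle where `ω` is continuous and not real.

PROOF.  `p₀ = (1 + ω ζ) / (1 - ω ζ)` (`ω ζ ≠ 1` as `Im (ω ζ) ≠ 0`): `Re p₀ = (1 - ‖ω ζ‖ ^ 2) / ‖1 - ω ζ‖ ^ 2 ≥ 0`, `Im p₀ = 2 Im (ω ζ) / ‖1 - ω ζ‖ ^ 2`,
`‖p₀‖ ≥ 1 / ‖1 - ω ζ‖ ≥ c₀ / m`.  In the disc `l z = log ((1 + ω z) / (1 - ω z))` (`Lg.exp`, `Lg.im_lt`; `Complex.log_exp`), `p₀` is in the slit plane, so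
`exp (α l z) → q₀ = exp (α log p₀)` as `z → ζ` in the disc; `‖q₀‖ = ‖p₀‖ ^ α`, `exp (i a) q₀ = ‖q₀‖ exp (i (a + α arg p₀))`.
`Im (ω ζ) > 0`: `0 < arg p₀ ≤ π / 2`, `a ≤ a + α arg p₀ ≤ 2 a = π - δ π`, and `sin x ≥ sin (δ π)` on `[a, 2 a]`: for `x ≤ π / 2`
`sin x ≥ sin a = cos (δ π / 2) ≥ 2 sin (δ π / 2) cos (δ π / 2)` (`sin (δ π / 2) ≤ 1 / 2`, `δ ≤ 1 / 4 < 1 / 3`), for `x ≥ π / 2` `sin` is decreasing,
`sin (π - δ π) = sin (δ π)`.  So `Im (exp (i a) q₀) ≥ (c₀ / m) ^ α sin (δ π)`.  `Im (ω ζ) < 0`: the same with the conjugates.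
-/

namespace Pool.Agent.MP07129f.TP

open Complex Metric Set Filter Topology

private theorem help_tendsto {ω l : ℂ → ℂ} (hL : Lg ω l) (α : ℝ) {ζ : ℂ}
    (hc : ContinuousAt ω ζ) (him : (ω ζ).im ≠ 0) :
    Tendsto (fun z => exp (α * l z)) (𝓝[ball (0 : ℂ) 1] ζ)
      (𝓝 (exp (α * log ((1 + ω ζ) / (1 - ω ζ))))) := by
  have h1 : (1 : ℂ) - ω ζ ≠ 0 := by
    intro h
    have := congrArg Complex.im h
    simp at this
    exact him this
  have hn : 0 < normSq (1 - ω ζ) := normSq_pos.mpr h1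
  have hp : (((1 + ω ζ) / (1 - ω ζ)) : ℂ).im ≠ 0 := by
    rw [div_im]
    have e : (1 + ω ζ).im * (1 - ω ζ).re / normSq (1 - ω ζ) -
        (1 + ω ζ).re * (1 - ω ζ).im / normSq (1 - ω ζ) = 2 * (ω ζ).im / normSq (1 - ω ζ) := by
      simp only [add_im, sub_im, add_re, sub_re, one_im, one_re]
      ring
    rw [e]
    positivity
  have hs : (((1 + ω ζ) / (1 - ω ζ)) : ℂ) ∈ slitPlane := Or.inr hp
  have hcd : ContinuousAt (fun z => (1 + ω z) / (1 - ω z)) ζ :=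
    (continuousAt_const.add hc).div (continuousAt_const.sub hc) h1
  have hcl : ContinuousAt (fun z => exp (α * log ((1 + ω z) / (1 - ω z)))) ζ :=
    (continuousAt_const.mul (hcd.clog hs)).cexp
  have ht : Tendsto (fun z => exp (α * log ((1 + ω z) / (1 - ω z)))) (𝓝[ball (0 : ℂ) 1] ζ)
      (𝓝 (exp (α * log ((1 + ω ζ) / (1 - ω ζ))))) := hcl.tendsto.mono_left nhdsWithin_le_nhds
  refine ht.congr' ?_
  filter_upwards [self_mem_nhdsWithin] with z hz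
  have hi := hL.im_lt z hz
  rw [abs_lt] at hi
  rw [← hL.exp z hz, Complex.log_exp (by linarith [Real.pi_pos]) (by linarith [Real.pi_pos])]

private theorem help_val {p : ℂ} (hp : p ≠ 0) (a α : ℝ) :
    (exp (a * I) * exp (α * log p)).im = ‖p‖ ^ α * Real.sin (a + α * arg p) := by
  have e : exp (a * I) * exp (α * log p) =
      ((‖p‖ ^ α : ℝ) : ℂ) * exp ((a + α * arg p : ℝ) * I) := by
    rw [← Complex.exp_add]
    have hn : 0 < ‖p‖ := norm_pos_iff.mpr hp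
    have e1 : ((‖p‖ ^ α : ℝ) : ℂ) = exp ((α * Real.log ‖p‖ : ℝ)) := by
      rw [Real.rpow_def_of_pos hn, mul_comm, ofReal_exp]
    rw [e1, ← Complex.exp_add]
    congr 1
    rw [Complex.log]
    push_cast
    ring
  rw [e, Complex.im_ofReal_mul, Complex.exp_ofReal_mul_I_im]

private theorem help_sin {δ x : ℝ} (hδ : 0 < δ) (hδ1 : δ ≤ 1 / 4)
    (h1 : (1 - δ) * Real.pi / 2 ≤ x) (h2 : x ≤ (1 - δ) * Real.pi) :
    Real.sin (δ * Real.pi) ≤ Real.sin x := by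
  have hpi := Real.pi_pos
  have hx1 : δ * Real.pi ≤ x := by nlinarith
  have hd : 0 < δ * Real.pi := by positivity
  have e := Real.sin_sub_sin x (δ * Real.pi)
  have s1 : 0 ≤ Real.sin ((x - δ * Real.pi) / 2) :=
    Real.sin_nonneg_of_nonneg_of_le_pi (by linarith) (by nlinarith)
  have s2 : 0 ≤ Real.cos ((x + δ * Real.pi) / 2) :=
    Real.cos_nonneg_of_neg_pi_div_two_le_of_le (by linarith) (by nlinarith)
  have := mul_nonneg s1 s2
  nlinarith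

/-- the estimate for the value at the point -/
private theorem help_est {w : ℂ} {α δ a : ℝ} (hδ : 0 < δ) (hδ1 : δ ≤ 1 / 4)
    (hα : α = 1 - δ) (ha : a = (1 - δ) * Real.pi / 2) (h1 : ‖w‖ ≤ 1) (h2 : 1 ≤ ‖1 + w‖)
    {m c₀ : ℝ} (hm : 0 < m) (hc₀ : 0 < c₀) (h3 : c₀ * ‖1 - w‖ ≤ m) (him : w.im ≠ 0) {s : ℝ}
    (hs : 0 ≤ s) (hs' : s ≤ Real.pi / 2) :
    (c₀ / m) ^ α * Real.sin (δ * Real.pi) ≤
      ‖(1 + w) / (1 - w)‖ ^ α * Real.sin (a + α * s) := by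
  have hpi := Real.pi_pos
  have hn : (1 : ℂ) - w ≠ 0 := by
    intro h
    have := congrArg Complex.im h
    simp at this
    exact him this
  have hn' : 0 < ‖1 - w‖ := norm_pos_iff.mpr hn
  have hq : c₀ / m ≤ ‖(1 + w) / (1 - w)‖ := by
    rw [norm_div, div_le_div_iff₀ hm hn']
    nlinarith
  have hα0 : 0 ≤ α := by rw [hα]; linarith
  have hp : (c₀ / m) ^ α ≤ ‖(1 + w) / (1 - w)‖ ^ α :=
    Real.rpow_le_rpow (by positivity) hq hα0
  have hs0 : 0 ≤ Real.sin (δ * Real.pi) :=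
    Real.sin_nonneg_of_nonneg_of_le_pi (by positivity) (by nlinarith)
  have hsn : Real.sin (δ * Real.pi) ≤ Real.sin (a + α * s) := by
    apply help_sin hδ hδ1
    · rw [ha]
      have := mul_nonneg hα0 hs
      linarith
    · rw [ha, hα]
      have : (1 - δ) * s ≤ (1 - δ) * (Real.pi / 2) :=
        mul_le_mul_of_nonneg_left hs' (by linarith)
      linarith
  exact mul_le_mul hp hsn hs0 (by positivity)

private theorem help_re {w : ℂ} (h1 : ‖w‖ ≤ 1) : 0 ≤ ((1 + w) / (1 - w)).re := by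
  rw [div_re, ← add_div]
  apply div_nonneg _ (normSq_nonneg _)
  have h : normSq w ≤ 1 := by
    rw [normSq_eq_norm_sq]
    nlinarith [norm_nonneg w]
  rw [normSq_apply] at h
  simp only [add_im, sub_im, add_re, sub_re, one_im, one_re]
  nlinarith

private theorem help_im (w : ℂ) : ((1 + w) / (1 - w)).im = 2 * w.im / normSq (1 - w) := by
  rw [div_im]
  simp only [add_im, sub_im, add_re, sub_re, one_im, one_re]
  ring

theorem help_pos {ω l : ℂ → ℂ} (hL : Lg ω l) {α δ a : ℝ} (hδ : 0 < δ) (hδ1 : δ ≤ 1 / 4)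
    (hα : α = 1 - δ) (ha : a = (1 - δ) * Real.pi / 2) {ζ : ℂ} (hζ : ‖ζ‖ = 1) (hc : ContinuousAt ω ζ)
    (h1 : ‖ω ζ‖ ≤ 1) (h2 : 1 ≤ ‖1 + ω ζ‖) {m c₀ : ℝ} (hm : 0 < m) (hc₀ : 0 < c₀)
    (h3 : c₀ * ‖1 - ω ζ‖ ≤ m) (him : 0 < (ω ζ).im) {κ : ℝ} (hκ : 0 < κ) :
    ∀ᶠ z in 𝓝[ball (0 : ℂ) 1] ζ,
      (c₀ / m) ^ α * Real.sin (δ * Real.pi) - κ ≤ (exp (a * I) * exp (α * l z)).im := by
  have hn : (1 : ℂ) - ω ζ ≠ 0 := by
    intro h
    have := congrArg Complex.im h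
    simp at this
    exact him.ne' this
  have hnn : 0 < normSq (1 - ω ζ) := normSq_pos.mpr hn
  have hpi : 0 < (((1 + ω ζ) / (1 - ω ζ)) : ℂ).im := by
    rw [help_im]
    positivity
  have hp0 : (((1 + ω ζ) / (1 - ω ζ)) : ℂ) ≠ 0 := by
    intro h
    rw [h] at hpi
    simp at hpi
  have ht := help_tendsto hL α hc him.ne'
  have ht2 : Tendsto (fun z => (exp (a * I) * exp (α * l z)).im) (𝓝[ball (0 : ℂ) 1] ζ)
      (𝓝 (exp (a * I) * exp (α * log ((1 + ω ζ) / (1 - ω ζ)))).im) :=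
    (Complex.continuous_im.tendsto _).comp (ht.const_mul _)
  rw [help_val hp0] at ht2
  have harg0 : 0 ≤ arg ((1 + ω ζ) / (1 - ω ζ)) := arg_nonneg_iff.mpr hpi.le
  have harg1 : arg ((1 + ω ζ) / (1 - ω ζ)) ≤ Real.pi / 2 :=
    (arg_le_pi_div_two_iff.mpr (Or.inl (help_re h1)))
  have he := help_est hδ hδ1 hα ha h1 h2 hm hc₀ h3 him.ne' harg0 harg1
  have hlt : (c₀ / m) ^ α * Real.sin (δ * Real.pi) - κ <
      ‖(1 + ω ζ) / (1 - ω ζ)‖ ^ α * Real.sin (a + α * arg ((1 + ω ζ) / (1 - ω ζ))) := by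
    linarith
  filter_upwards [ht2.eventually (lt_mem_nhds hlt)] with z hz
  exact hz.le

theorem help_neg {ω l : ℂ → ℂ} (hL : Lg ω l) {α δ a : ℝ} (hδ : 0 < δ) (hδ1 : δ ≤ 1 / 4)
    (hα : α = 1 - δ) (ha : a = (1 - δ) * Real.pi / 2) {ζ : ℂ} (hζ : ‖ζ‖ = 1) (hc : ContinuousAt ω ζ)
    (h1 : ‖ω ζ‖ ≤ 1) (h2 : 1 ≤ ‖1 + ω ζ‖) {m c₀ : ℝ} (hm : 0 < m) (hc₀ : 0 < c₀)
    (h3 : c₀ * ‖1 - ω ζ‖ ≤ m) (him : (ω ζ).im < 0) {κ : ℝ} (hκ : 0 < κ) :
    ∀ᶠ z in 𝓝[ball (0 : ℂ) 1] ζ,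
      (exp (-(a * I)) * exp (α * l z)).im ≤ -((c₀ / m) ^ α * Real.sin (δ * Real.pi)) + κ := by
  have hn : (1 : ℂ) - ω ζ ≠ 0 := by
    intro h
    have := congrArg Complex.im h
    simp at this
    exact him.ne this
  have hnn : 0 < normSq (1 - ω ζ) := normSq_pos.mpr hn
  have hpi : (((1 + ω ζ) / (1 - ω ζ)) : ℂ).im < 0 := by
    rw [help_im]
    exact div_neg_of_neg_of_pos (by linarith) hnn
  have hp0 : (((1 + ω ζ) / (1 - ω ζ)) : ℂ) ≠ 0 := by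
    intro h
    rw [h] at hpi
    simp at hpi
  have ht := help_tendsto hL α hc him.ne
  have ht2 : Tendsto (fun z => (exp (-(a * I)) * exp (α * l z)).im) (𝓝[ball (0 : ℂ) 1] ζ)
      (𝓝 (exp (-(a * I)) * exp (α * log ((1 + ω ζ) / (1 - ω ζ)))).im) :=
    (Complex.continuous_im.tendsto _).comp (ht.const_mul _)
  have hea : exp (-(a * I)) = exp (((-a : ℝ) : ℂ) * I) := by
    congr 1
    push_cast
    ring
  rw [hea, help_val hp0, ← hea] at ht2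
  have harg0 : 0 ≤ -arg ((1 + ω ζ) / (1 - ω ζ)) := by
    have := arg_neg_iff.mpr hpi
    linarith
  have harg1 : -arg ((1 + ω ζ) / (1 - ω ζ)) ≤ Real.pi / 2 := by
    have := neg_pi_div_two_le_arg_iff.mpr (Or.inl (help_re h1))
    linarith
  have he := help_est hδ hδ1 hα ha h1 h2 hm hc₀ h3 him.ne harg0 harg1
  have hsn : Real.sin (-a + α * arg ((1 + ω ζ) / (1 - ω ζ))) =
      -Real.sin (a + α * -arg ((1 + ω ζ) / (1 - ω ζ))) := by
    rw [← Real.sin_neg]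
    congr 1
    ring
  rw [hsn] at ht2
  have hlt : ‖(1 + ω ζ) / (1 - ω ζ)‖ ^ α * -Real.sin (a + α * -arg ((1 + ω ζ) / (1 - ω ζ))) <
      -((c₀ / m) ^ α * Real.sin (δ * Real.pi)) + κ := by
    linarith
  filter_upwards [ht2.eventually (gt_mem_nhds hlt)] with z hz
  exact hz.le

end Pool.Agent.MP07129f.TP
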