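import Pool.Agent.Lib.MP_07129f_an.TP.Defs

/-!
TP-LocA: a Schwarz function which is analytic at a point `w` of the circle with the value `1`: the derivative.

PROOF.  `a = w ω'(w)`, `ω (w (1 + x)) = 1 + a x + o(x)`.
(1) `Re (a v) ≥ 0` for all `v` with `Re v > 0`: `w (1 - s v)` is in the disc for small `s > 0`
(`‖1 - s v‖ ^ 2 = 1 - 2 s Re v + s ^ 2 ‖v‖ ^ 2`), `‖ω‖ < 1` there, so `1 ≥ Re ω = 1 - s Re (a v) + o(s)`.  With `v = 1 + i τ`, `τ` any real
number: `Re a - τ Im a ≥ 0`, so `Im a = 0`.  (2) `Re a ≥ 1`: the Schwarz lemma `‖ω z‖ ≤ ‖z‖`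
(`Complex.norm_le_norm_of_mapsTo_ball`-type, as in `Dat.norm_l_le` in `Dat.lean`) at `z = (1 - s) w`: `1 - s Re a + o(s) = Re ω ≤ 1 - s`.
-/

namespace Pool.Agent.MP07129f.TP

open Complex Metric Set Filter Topology

private theorem LocA_der {ω : ℂ → ℂ} {w : ℂ} (ha : AnalyticAt ℂ ω w) (h1 : ω w = 1) {v : ℂ} {C : ℝ}
    (h : ∀ᶠ s : ℝ in 𝓝[>] 0, (ω (w * (1 - s * v))).re ≤ 1 - C * s) : C ≤ (w * deriv ω w * v).re := by
  have e0 : w * (1 - ((0 : ℝ) : ℂ) * v) = w := by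
    rw [ofReal_zero, zero_mul, sub_zero, mul_one]
  have hi : HasDerivAt (fun z : ℂ => w * (1 - z * v)) (w * (-(1 * v))) ((0 : ℝ) : ℂ) :=
    (((hasDerivAt_id ((0 : ℝ) : ℂ)).mul_const v).const_sub 1).const_mul w
  have ho : HasDerivAt ω (deriv ω w) (w * (1 - ((0 : ℝ) : ℂ) * v)) := by
    rw [e0]
    exact ha.differentiableAt.hasDerivAt
  have hc := (HasDerivAt.comp ((0 : ℝ) : ℂ) ho hi).real_of_complex
  have hs := (hasDerivAt_iff_tendsto_slope.1 hc).mono_left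
    (nhdsWithin_mono (0 : ℝ) (s := Ioi 0) fun x (hx : (0 : ℝ) < x) => (ne_of_gt hx : x ≠ 0))
  have hle : (deriv ω w * (w * (-(1 * v)))).re ≤ -C := by
    refine le_of_tendsto hs ?_
    filter_upwards [h, self_mem_nhdsWithin] with s h2 h3
    have h3' : (0 : ℝ) < s := h3
    rw [slope_def_field]
    simp only [Function.comp_apply]
    rw [e0, h1, one_re, sub_zero, div_le_iff₀ h3']
    linarith
  have e1 : deriv ω w * (w * (-(1 * v))) = -(w * deriv ω w * v) := by ring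
  rw [e1, neg_re] at hle
  linarith

private theorem LocA_mem {w v : ℂ} (hw : ‖w‖ = 1) (hv : 0 < v.re) :
    ∀ᶠ s : ℝ in 𝓝[>] 0, w * (1 - s * v) ∈ ball (0 : ℂ) 1 := by
  have h1 : Tendsto (fun s : ℝ => s * ‖v‖ ^ 2) (𝓝[>] 0) (𝓝 (0 * ‖v‖ ^ 2)) :=
    ((continuous_id.mul continuous_const).tendsto 0).mono_left nhdsWithin_le_nhds
  rw [zero_mul] at h1
  filter_upwards [h1.eventually_lt_const (show (0 : ℝ) < 2 * v.re by linarith), self_mem_nhdsWithin]
    with s h2 h3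
  have h3' : (0 : ℝ) < s := h3
  rw [mem_ball_zero_iff, norm_mul, hw, one_mul]
  have h4 : ‖1 - (s : ℂ) * v‖ ^ 2 < 1 ^ 2 := by
    rw [← normSq_eq_norm_sq, normSq_apply]
    have h5 : ‖v‖ ^ 2 = v.re * v.re + v.im * v.im := by rw [← normSq_eq_norm_sq, normSq_apply]
    rw [h5] at h2
    simp only [sub_re, one_re, mul_re, ofReal_re, ofReal_im, sub_im, one_im, mul_im]
    nlinarith [mul_lt_mul_of_pos_left h2 h3']
  exact lt_of_pow_lt_pow_left₀ 2 zero_le_one h4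

/-- `w ω'(w)` is a real number, at least `1` -/
theorem ang_deriv {ω : ℂ → ℂ} (hω : IsSchwarz ω) {w : ℂ} (hw : ‖w‖ = 1) (ha : AnalyticAt ℂ ω w)
    (h1 : ω w = 1) : 1 ≤ (w * deriv ω w).re ∧ (w * deriv ω w).im = 0 := by
  obtain ⟨hd, h0, hlt⟩ := hω
  constructor
  · have h2 : 1 ≤ (w * deriv ω w * 1).re := by
      refine LocA_der ha h1 ?_
      filter_upwards [LocA_mem (v := 1) hw (by simp), self_mem_nhdsWithin,
        (eventually_lt_nhds (show (0 : ℝ) < 1 by norm_num)).filter_mono nhdsWithin_le_nhds] with s h2 h3 h4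
      have h3' : (0 : ℝ) < s := h3
      have h5 : ‖ω (w * (1 - s * 1))‖ ≤ ‖w * (1 - s * 1)‖ :=
        norm_le_norm_of_mapsTo_ball hd (fun z hz => mem_closedBall_zero_iff.2 (hlt z hz).le) h0
          (mem_ball_zero_iff.1 h2)
      have h6 : ‖w * (1 - (s : ℂ) * 1)‖ = 1 - s := by
        rw [norm_mul, hw, one_mul, mul_one, show (1 : ℂ) - s = ((1 - s : ℝ) : ℂ) by push_cast; ring,
          norm_real, Real.norm_eq_abs, abs_of_pos (by linarith)]
      have h7 := re_le_norm (ω (w * (1 - s * 1)))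
      linarith
    rwa [mul_one] at h2
  · by_contra hne
    have h2 : 0 ≤ (w * deriv ω w * ⟨1, ((w * deriv ω w).re + 1) / (w * deriv ω w).im⟩).re := by
      refine LocA_der ha h1 ?_
      filter_upwards [LocA_mem (v := ⟨1, ((w * deriv ω w).re + 1) / (w * deriv ω w).im⟩) hw (by simp)]
        with s h2
      have h7 := re_le_norm (ω (w * (1 - s * ⟨1, ((w * deriv ω w).re + 1) / (w * deriv ω w).im⟩)))
      have h8 := hlt _ h2
      linarith
    rw [mul_re (w * deriv ω w)] at h2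
    simp only at h2
    rw [mul_div_cancel₀ _ hne] at h2
    linarith

end Pool.Agent.MP07129f.TP
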