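import Pool.Agent.Lib.MP_07129f_an.TP.LocA

/-!
TP-LocB: a Schwarz function near a point `w` of the circle where it is analytic with the value `1`.

PROOF.  `a = w ω'(w) ≥ 1` (real, `ang_deriv`), `ω (w (1 + x)) = 1 + a x + o(x)`.
For `ζ` in the circle, `ζ = w (1 + x)`, `‖1 + x‖ = 1`: `2 Re x = - ‖x‖ ^ 2`, so `|Im x| ≥ ‖x‖ / 2` for `‖x‖ ≤ 1`; `Im (ζ conj w) = Im x`, `‖ζ - w‖ = ‖x‖`,
`ω ζ = 1 + a x + o(x)`: `Im (ω ζ) Im x ≥ a (Im x) ^ 2 - o(‖x‖) ‖x‖ > 0` for small `x ≠ 0`, `‖1 - ω ζ‖ ≤ (a + 1) ‖x‖`, `c₀ = 1 / (a + 1)`.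
`ω` is continuous at `ζ` (analytic near `w`), `‖ω ζ‖ ≤ 1` as a limit from the disc (`r ζ`, `r → 1`), `‖1 + ω ζ‖ ≥ 1` as `ω ζ` is near `1`.
-/

namespace Pool.Agent.MP07129f.TP

open Complex Metric Set Filter Topology

theorem local_peak {ω : ℂ → ℂ} (hω : IsSchwarz ω) {w : ℂ} (hw : ‖w‖ = 1) (ha : AnalyticAt ℂ ω w)
    (h1 : ω w = 1) : ∃ ρ c₀ : ℝ, 0 < ρ ∧ 0 < c₀ ∧ c₀ ≤ 1 ∧ ∀ ζ : ℂ, ‖ζ‖ = 1 → ζ ≠ w → ‖ζ - w‖ < ρ →
      ContinuousAt ω ζ ∧ ‖ω ζ‖ ≤ 1 ∧ c₀ * ‖1 - ω ζ‖ ≤ ‖ζ - w‖ ∧ 1 ≤ ‖1 + ω ζ‖ ∧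
        0 < (ω ζ).im * (ζ * (starRingEnd ℂ) w).im := by
  obtain ⟨hA1, hA2⟩ := ang_deriv hω hw ha h1
  obtain ⟨A, hA⟩ : ∃ A : ℝ, A = (w * deriv ω w).re := ⟨_, rfl⟩
  rw [← hA] at hA1
  have hAw : w * deriv ω w = (A : ℂ) := Complex.ext (by simp [hA]) (by rw [hA2]; simp)
  have hA0 : 0 < A + 1 := by linarith
  have hd : HasDerivAt ω (deriv ω w) w := ha.differentiableAt.hasDerivAt
  have hlo := hasDerivAt_iff_isLittleO.1 hd
  have hb := hlo.def (c := 1 / 4) (by norm_num)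
  obtain ⟨ρ₁, hρ₁, hball⟩ := Metric.eventually_nhds_iff_ball.1 (hb.and ha.eventually_analyticAt)
  have hc1 : 1 / (A + 1) ≤ 1 / 2 := by
    apply one_div_le_one_div_of_le (by norm_num)
    linarith
  refine ⟨min ρ₁ (1 / (A + 1)), 1 / (A + 1), lt_min hρ₁ (by positivity), by positivity,
    by linarith, ?_⟩
  intro ζ hζ hne hdist
  have hd1 : ‖ζ - w‖ < ρ₁ := lt_of_lt_of_le hdist (min_le_left _ _)
  have hd2 : ‖ζ - w‖ < 1 / (A + 1) := lt_of_lt_of_le hdist (min_le_right _ _)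
  obtain ⟨hest, hanζ⟩ := hball ζ (by rw [mem_ball, dist_eq_norm]; exact hd1)
  have hcont : ContinuousAt ω ζ := hanζ.continuousAt
  -- the coordinate
  have hww : w * (starRingEnd ℂ) w = 1 := by
    rw [Complex.mul_conj, Complex.normSq_eq_norm_sq, hw]
    norm_num
  obtain ⟨x, hx⟩ : ∃ x : ℂ, x = (ζ - w) * (starRingEnd ℂ) w := ⟨_, rfl⟩
  have hxn : ‖x‖ = ‖ζ - w‖ := by
    rw [hx, norm_mul, RCLike.norm_conj, hw, mul_one]
  have hζx : ζ - w = w * x := by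
    rw [hx]
    linear_combination (-(ζ - w)) * hww
  have hζc : ζ * (starRingEnd ℂ) w = 1 + x := by
    rw [hx]
    linear_combination hww
  have him : (ζ * (starRingEnd ℂ) w).im = x.im := by
    rw [hζc]
    simp
  have hn1 : ‖1 + x‖ = 1 := by
    rw [← hζc, norm_mul, RCLike.norm_conj, hw, hζ, mul_one]
  have hx0 : 0 < ‖x‖ := by
    rw [hxn, norm_pos_iff]
    exact sub_ne_zero.2 hne
  have hxle : ‖x‖ ≤ 1 := by
    rw [hxn]
    linarith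
  -- the error
  obtain ⟨e, he⟩ : ∃ e : ℂ, e = ω ζ - 1 - A * x := ⟨_, rfl⟩
  have hen : ‖e‖ ≤ 1 / 4 * ‖x‖ := by
    have h2 : e = ω ζ - ω w - (ζ - w) • deriv ω w := by
      rw [he, h1, smul_eq_mul, hζx]
      linear_combination (-x) * (hAw.symm)
    rw [h2, hxn]
    exact hest
  have hωζ : ω ζ = 1 + A * x + e := by
    rw [he]
    ring
  have h1ω : ‖1 - ω ζ‖ ≤ (A + 1) * ‖x‖ := by
    have h2 : 1 - ω ζ = -(A * x + e) := by
      rw [hωζ]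
      ring
    rw [h2, norm_neg]
    calc ‖(A : ℂ) * x + e‖ ≤ ‖(A : ℂ) * x‖ + ‖e‖ := norm_add_le _ _
      _ ≤ A * ‖x‖ + 1 / 4 * ‖x‖ := by
        refine add_le_add ?_ hen
        rw [norm_mul, Complex.norm_real, Real.norm_of_nonneg (by linarith)]
      _ ≤ (A + 1) * ‖x‖ := by nlinarith
  refine ⟨hcont, ?_, ?_, ?_, ?_⟩
  · -- limit from the disc
    have ht : Tendsto (fun r : ℝ => ω ((r : ℂ) * ζ)) (𝓝[<] (1 : ℝ)) (𝓝 (ω ζ)) := by
      have h2 : Tendsto (fun r : ℝ => (r : ℂ) * ζ) (𝓝[<] (1 : ℝ)) (𝓝 ζ) := by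
        have h3 : Tendsto (fun r : ℝ => (r : ℂ) * ζ) (𝓝 (1 : ℝ)) (𝓝 (((1 : ℝ) : ℂ) * ζ)) :=
          ((Complex.continuous_ofReal.mul continuous_const).tendsto 1)
        rw [Complex.ofReal_one, one_mul] at h3
        exact h3.mono_left nhdsWithin_le_nhds
      exact hcont.tendsto.comp h2
    refine le_of_tendsto ht.norm ?_
    have h4 : ∀ᶠ r : ℝ in 𝓝[<] (1 : ℝ), 0 < r ∧ r < 1 := by
      have h5 : ∀ᶠ r : ℝ in 𝓝[<] (1 : ℝ), 0 < r :=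
        (eventually_gt_nhds (by norm_num : (0 : ℝ) < 1)).filter_mono nhdsWithin_le_nhds
      exact h5.and eventually_mem_nhdsWithin
    filter_upwards [h4] with r hr
    refine (hω.2.2 _ ?_).le
    rw [mem_ball_zero_iff, norm_mul, hζ, mul_one, Complex.norm_real, Real.norm_of_nonneg hr.1.le]
    exact hr.2
  · rw [one_div, inv_mul_le_iff₀ hA0, ← hxn]
    exact h1ω
  · have h2 : (A + 1) * ‖x‖ ≤ 1 := by
      rw [hxn]
      have := mul_le_mul_of_nonneg_left hd2.le hA0.le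
      rwa [mul_one_div_cancel hA0.ne'] at this
    have h3 : ‖(2 : ℂ)‖ ≤ ‖1 + ω ζ‖ + ‖1 - ω ζ‖ := by
      have h4 : (2 : ℂ) = (1 + ω ζ) + (1 - ω ζ) := by ring
      calc ‖(2 : ℂ)‖ = ‖(1 + ω ζ) + (1 - ω ζ)‖ := by rw [← h4]
        _ ≤ _ := norm_add_le _ _
    have h5 : ‖(2 : ℂ)‖ = 2 := by simp
    rw [h5] at h3
    linarith
  · rw [him]
    have hsq : ‖x‖ ^ 2 = x.re ^ 2 + x.im ^ 2 := by
      rw [← Complex.normSq_eq_norm_sq, Complex.normSq_apply]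
      ring
    have hsq1 : (1 + x.re) ^ 2 + x.im ^ 2 = 1 := by
      have h2 : ‖1 + x‖ ^ 2 = (1 + x.re) ^ 2 + x.im ^ 2 := by
        rw [← Complex.normSq_eq_norm_sq, Complex.normSq_apply]
        simp
        ring
      rw [← h2, hn1]
      norm_num
    have hre : 2 * x.re = -‖x‖ ^ 2 := by
      rw [hsq]
      linarith
    have him2 : (‖x‖ / 2) ^ 2 ≤ x.im ^ 2 := by
      have h2 : x.re ^ 2 = (‖x‖ ^ 2 / 2) ^ 2 := by
        have h3 : x.re = -(‖x‖ ^ 2 / 2) := by linarith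
        rw [h3]
        ring
      have h3 : ‖x‖ ^ 2 ≤ 1 := by nlinarith
      have h4 : (‖x‖ ^ 2 / 2) ^ 2 ≤ ‖x‖ ^ 2 / 4 := by nlinarith [sq_nonneg ‖x‖]
      nlinarith [sq_nonneg ‖x‖]
    have habs : ‖x‖ / 2 ≤ |x.im| := by
      have := Real.sqrt_le_sqrt him2
      rwa [Real.sqrt_sq (by positivity), Real.sqrt_sq_eq_abs] at this
    have hωim : (ω ζ).im = A * x.im + e.im := by
      rw [hωζ]
      simp
    have heim : |e.im| ≤ 1 / 4 * ‖x‖ := (Complex.abs_im_le_norm e).trans hen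
    rw [hωim]
    have h2 : -(|e.im| * |x.im|) ≤ e.im * x.im := by
      rw [← abs_mul]
      exact neg_abs_le _
    have h3 : x.im ^ 2 = |x.im| ^ 2 := (sq_abs _).symm
    have h4 : 0 < |x.im| := by linarith
    have h5 : |e.im| * |x.im| ≤ 1 / 4 * ‖x‖ * |x.im| :=
      mul_le_mul_of_nonneg_right heim h4.le
    have h6 : ‖x‖ / 2 * |x.im| ≤ |x.im| * |x.im| := mul_le_mul_of_nonneg_right habs h4.le
    have h7 : |x.im| * |x.im| ≤ A * (|x.im| * |x.im|) := by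
      have : 0 ≤ |x.im| * |x.im| := by positivity
      nlinarith
    have h8 : 0 < ‖x‖ * |x.im| := mul_pos hx0 h4
    nlinarith

end Pool.Agent.MP07129f.TP
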