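import Pool.Agent.Lib.MP_07129f_an.TP.Defs

/-!
TP-Mem: multiplying a member of the class by a factor `A`.

PROOF.  `q z = exp (α l z) + V z` is in the open sector `|arg q| < α π / 2`: with `q = x + i y`, `a = α π / 2 ∈ (0, π / 2)`, the two conditions are
`x sin a - y cos a > 0` and `x sin a + y cos a > 0`, so `x > 0`, `|y| / x < tan a`.  `V 0 = 0` (`hVA` at `0`, `A 0 = 1`).
`Dat α (F A) (α⁻¹ log q) (P + log A)` as in `perturb` (`Nec.lean`): `z (P + log A)' = exp (α l) - 1 + z A' / A = q - 1`;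
`exists_mem_of_dat`.
-/

namespace Pool.Agent.MP07129f.TP

open Complex Metric Set Filter Topology

/-- the open sector -/
private theorem sector_arg {a : ℝ} (ha : 0 < a) (ha2 : a < Real.pi / 2) {q : ℂ}
    (h1 : (exp (-(a * I)) * q).im < 0) (h2 : 0 < (exp (a * I) * q).im) :
    0 < q.re ∧ |arg q| < a := by
  have hc : 0 < Real.cos a := Real.cos_pos_of_mem_Ioo ⟨by linarith, ha2⟩
  have hs : 0 < Real.sin a := Real.sin_pos_of_pos_of_lt_pi ha (by linarith [Real.pi_pos])
  have e1 : (-(a * I) : ℂ) = ((-a : ℝ) : ℂ) * I := by push_cast; ring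
  rw [e1, mul_im, exp_ofReal_mul_I_re, exp_ofReal_mul_I_im, Real.cos_neg, Real.sin_neg] at h1
  rw [mul_im, exp_ofReal_mul_I_re, exp_ofReal_mul_I_im] at h2
  have hx : 0 < q.re := by
    have : 0 < 2 * (Real.sin a * q.re) := by linarith
    have h3 : 0 < Real.sin a * q.re := by linarith
    exact (pos_iff_pos_of_mul_pos h3).1 hs
  refine ⟨hx, ?_⟩
  have htan : Real.tan a = Real.sin a / Real.cos a := Real.tan_eq_sin_div_cos a
  have harg : |arg q| < Real.pi / 2 := abs_arg_lt_pi_div_two_iff.2 (Or.inl hx)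
  have hta : Real.tan (arg q) = q.im / q.re := tan_arg q
  have h3 := abs_lt.1 harg
  rw [abs_lt]
  constructor
  · by_contra hcon
    have h4 : Real.tan (arg q) ≤ Real.tan (-a) := by
      rcases (not_lt.1 hcon).lt_or_eq with h | h
      · exact (Real.tan_lt_tan_of_lt_of_lt_pi_div_two (by linarith) (by linarith) h).le
      · rw [h]
    rw [hta, Real.tan_neg, htan, div_le_iff₀ hx] at h4
    have h5 : -(Real.sin a / Real.cos a) * q.re = -(Real.sin a * q.re) / Real.cos a := by
      field_simp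
    rw [h5, le_div_iff₀ hc] at h4
    nlinarith
  · by_contra hcon
    have h4 : Real.tan a ≤ Real.tan (arg q) := by
      rcases (not_lt.1 hcon).lt_or_eq with h | h
      · exact (Real.tan_lt_tan_of_lt_of_lt_pi_div_two (by linarith) (by linarith) h).le
      · rw [h]
    rw [hta, htan, le_div_iff₀ hx, div_mul_eq_mul_div, div_le_iff₀ hc] at h4
    nlinarith

theorem mem_of_sector {α : ℝ} (hα : 0 < α) (hα1 : α < 1) {F l P A V : ℂ → ℂ} (h : Dat α F l P)
    (hA : DifferentiableOn ℂ A (ball 0 1)) (hA0 : A 0 = 1) (hAr : ∀ z ∈ ball (0 : ℂ) 1, 0 < (A z).re)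
    (hV : DifferentiableOn ℂ V (ball 0 1))
    (hVA : ∀ z ∈ ball (0 : ℂ) 1, V z * A z = z * deriv A z)
    (hs : ∀ z ∈ ball (0 : ℂ) 1,
      (exp (-((α * Real.pi / 2 : ℝ) * I)) * (exp (α * l z) + V z)).im < 0 ∧
      0 < (exp ((α * Real.pi / 2 : ℝ) * I) * (exp (α * l z) + V z)).im) :
    ∃ f : C(ball (0 : ℂ) 1, ℂ), f ∈ SStar α ∧ ∀ z : ball (0 : ℂ) 1, f z = F z * A z := by
  have hpi := Real.pi_pos
  set q : ℂ → ℂ := fun z => exp (α * l z) + V z with hq
  have hqd : DifferentiableOn ℂ q (ball 0 1) := ((h.l_diff.const_mul (α : ℂ)).cexp).add hV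
  have hsec : ∀ z ∈ ball (0 : ℂ) 1, 0 < (q z).re ∧ |arg (q z)| < α * Real.pi / 2 := fun z hz =>
    sector_arg (by positivity) (by nlinarith) (hs z hz).1 (hs z hz).2
  have hq0 : ∀ z ∈ ball (0 : ℂ) 1, q z ≠ 0 := by
    intro z hz h0
    have := (hsec z hz).1
    rw [h0] at this
    simp at this
  have hV0 : V 0 = 0 := by
    have := hVA 0 zero_mem_D
    rw [hA0] at this
    simpa using this
  have hα0 : (α : ℂ) ≠ 0 := by exact_mod_cast hα.ne'
  have hd : Dat α (fun z => F z * A z) (fun z => (α : ℂ)⁻¹ * log (q z))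
      (fun z => P z + log (A z)) := by
    refine ⟨(hqd.clog fun z hz => Or.inl (hsec z hz).1).const_mul _,
      h.P_diff.add (hA.clog fun z hz => Or.inl (hAr z hz)), ?_, ?_, ?_, ?_, ?_⟩
    · simp [hq, h.l_zero, hV0]
    · simp [h.P_zero, hA0]
    · intro z hz
      have h1 : ((α : ℂ)⁻¹ * log (q z)).im = α⁻¹ * arg (q z) := by
        rw [← ofReal_inv, im_ofReal_mul, log_im]
      rw [h1, abs_mul, abs_of_pos (inv_pos.2 hα), inv_mul_lt_iff₀ hα]
      have := (hsec z hz).2
      linarith
    · intro z hz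
      have hPd := (h.P_diff.differentiableAt (ball_nhds hz)).hasDerivAt
      have hAd := (hA.differentiableAt (ball_nhds hz)).hasDerivAt
      have hAne : A z ≠ 0 := by
        intro h0
        have := hAr z hz
        rw [h0] at this
        simp at this
      have h2 : HasDerivAt (fun z => P z + log (A z)) (deriv P z + deriv A z / A z) z :=
        hPd.add (hAd.clog (Or.inl (hAr z hz)))
      rw [h2.deriv, mul_inv_cancel_left₀ hα0, exp_log (hq0 z hz), mul_add z, h.eq z hz,
        ← mul_div_assoc, ← hVA z hz, mul_div_assoc, div_self hAne, mul_one]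
      simp only [hq]
      ring
    · intro z hz
      have hAne : A z ≠ 0 := by
        intro h0
        have := hAr z hz
        rw [h0] at this
        simp at this
      rw [h.F_eq z hz, exp_add, exp_log hAne]
      ring
  exact exists_mem_of_dat hα hα1 hd

end Pool.Agent.MP07129f.TP
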