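import Pool.Agent.Lib.MP_07129f_an.TP.Defs

/-!
TP-Parm: choice of the numbers.

PROOF.  `NN σ c 0 = σ - i c` has norm `1` and positive real part; let `φ = arg (σ - i c)`, `|φ| < π / 2`, so
`tt σ c δ 0 = exp (i δ φ)` and `yy σ c δ 0 = i τ`, `τ = tan (δ φ / 2)`.  With
`h = - τ (1 - τ ^ 2) / (1 + τ ^ 2) ^ 2`: `SP k h (i τ) = k (i τ - i τ ^ 3 + i h (1 + τ ^ 2) ^ 2) = 0`.
`b = (1 + 2 |φ| / π) / 2 < 1`, `k = 1000 / (1 - b)`, `lam = tan (δ π / 2) / 2`.  `|h| ≤ |τ|` for `|τ| ≤ 1`, and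
`|τ| ≤ (δ |φ| / 2) / cos (δ |φ| / 2)`, `lam ≥ δ π / 4`, so `|τ| ≤ b lam` for small `δ`.
-/

namespace Pool.Agent.MP07129f.TP

open Complex Metric Set Filter Topology

private theorem parm_log {σ c : ℝ} (hσc : σ ^ 2 + c ^ 2 = 1) :
    log ((σ : ℂ) - c * I) = (arg ((σ : ℂ) - c * I) : ℂ) * I := by
  have h1 : ‖(σ : ℂ) - c * I‖ = 1 := by
    rw [Complex.norm_def, Complex.normSq_apply]
    have e1 : ((σ : ℂ) - c * I).re = σ := by simp
    have e2 : ((σ : ℂ) - c * I).im = -c := by simp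
    rw [e1, e2, show σ * σ + -c * -c = 1 by linarith, Real.sqrt_one]
  rw [Complex.log, h1, Real.log_one, Complex.ofReal_zero, zero_add]

private theorem parm_yy {σ c : ℝ} (hσc : σ ^ 2 + c ^ 2 = 1) (δ : ℝ)
    (hcos : Real.cos (δ * arg ((σ : ℂ) - c * I) / 2) ≠ 0) :
    yy σ c δ 0 = (Real.tan (δ * arg ((σ : ℂ) - c * I) / 2) : ℝ) * I := by
  obtain ⟨φ, hφ⟩ : ∃ φ, φ = arg ((σ : ℂ) - c * I) := ⟨_, rfl⟩
  have hN : NN σ c 0 = (σ : ℂ) - c * I := by simp [NN]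
  have ht : tt σ c δ 0 = exp (((δ * φ / 2 : ℝ) : ℂ) * I) ^ 2 := by
    rw [tt, hN, parm_log hσc, ← hφ, ← Complex.exp_nat_mul]
    congr 1
    push_cast
    ring
  rw [← hφ] at hcos ⊢
  obtain ⟨x, hx⟩ : ∃ x, x = δ * φ / 2 := ⟨_, rfl⟩
  rw [← hx] at ht hcos ⊢
  rw [yy, ht]
  have hc : (Real.cos x : ℂ) ≠ 0 := by exact_mod_cast hcos
  have he : exp ((x : ℂ) * I) = Real.cos x + Real.sin x * I := by
    rw [Complex.exp_mul_I, Complex.ofReal_cos, Complex.ofReal_sin]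
  have hsc : ((Real.sin x : ℝ) : ℂ) ^ 2 + ((Real.cos x : ℝ) : ℂ) ^ 2 = 1 := by
    exact_mod_cast Real.sin_sq_add_cos_sq x
  have hI := Complex.I_sq
  have hne : exp ((x : ℂ) * I) ≠ 0 := Complex.exp_ne_zero _
  have hnum : exp ((x : ℂ) * I) ^ 2 - 1 = exp ((x : ℂ) * I) * (2 * Real.sin x * I) := by
    rw [he]
    linear_combination hsc - (Real.sin x : ℂ) ^ 2 * hI
  have hden : exp ((x : ℂ) * I) ^ 2 + 1 = exp ((x : ℂ) * I) * (2 * Real.cos x) := by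
    rw [he]
    linear_combination (-1 : ℂ) * hsc + (Real.sin x : ℂ) ^ 2 * hI
  rw [hnum, hden, Real.tan_eq_sin_div_cos, Complex.ofReal_div]
  field_simp

private theorem parm_h {τ : ℝ} (hτ : |τ| ≤ 1) :
    |-(τ * (1 - τ ^ 2)) / (1 + τ ^ 2) ^ 2| ≤ |τ| := by
  have h0 := abs_nonneg τ
  have h2 : τ ^ 2 ≤ 1 := by
    rw [← sq_abs]
    nlinarith
  have h3 := sq_nonneg τ
  rw [abs_div, abs_neg, abs_mul, abs_of_nonneg (show (0 : ℝ) ≤ 1 - τ ^ 2 by linarith),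
    abs_of_pos (show (0 : ℝ) < (1 + τ ^ 2) ^ 2 by positivity), div_le_iff₀ (by positivity)]
  refine mul_le_mul_of_nonneg_left ?_ h0
  nlinarith

private theorem parm_tan {x : ℝ} (h0 : 0 ≤ x) (h1 : x ≤ 1) :
    Real.tan x * (1 - x ^ 2 / 2) ≤ x := by
  have hpi := Real.pi_gt_three
  have hc : 0 < Real.cos x := Real.cos_pos_of_mem_Ioo ⟨by linarith, by linarith⟩
  have h2 := Real.one_sub_sq_div_two_le_cos (x := x)
  have h3 : Real.sin x ≤ x := Real.sin_le h0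
  have h4 : 0 ≤ Real.tan x := Real.tan_nonneg_of_nonneg_of_le_pi_div_two h0 (by linarith)
  calc Real.tan x * (1 - x ^ 2 / 2) ≤ Real.tan x * Real.cos x := mul_le_mul_of_nonneg_left h2 h4
    _ = Real.sin x := Real.tan_mul_cos hc.ne'
    _ ≤ x := h3

theorem exists_par {σ c : ℝ} (hσ : 0 < σ) (hσc : σ ^ 2 + c ^ 2 = 1) :
    ∃ k b : ℝ, 0 < k ∧ ∃ δ₀ > 0, ∀ δ : ℝ, 0 < δ → δ < δ₀ → ∃ h : ℝ, Par σ c δ k b h := by
  obtain ⟨φ, hφ⟩ : ∃ φ, φ = arg ((σ : ℂ) - c * I) := ⟨_, rfl⟩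
  have hpi := Real.pi_gt_three
  have hpi4 := Real.pi_lt_d2
  have hφ2 : |φ| < Real.pi / 2 := by
    rw [hφ, Complex.abs_arg_lt_pi_div_two_iff]
    left
    simpa using hσ
  obtain ⟨a, ha⟩ : ∃ a, a = |φ| := ⟨_, rfl⟩
  rw [← ha] at hφ2
  have ha0 : 0 ≤ a := by rw [ha]; exact abs_nonneg _
  obtain ⟨b, hb⟩ : ∃ b, b = (1 + 2 * a / Real.pi) / 2 := ⟨_, rfl⟩
  have hap : 2 * a / Real.pi < 1 := by
    rw [div_lt_one Real.pi_pos]
    linarith
  have hap0 : 0 ≤ 2 * a / Real.pi := by positivity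
  have hb0 : 0 ≤ b := by rw [hb]; linarith
  have hb1 : b < 1 := by rw [hb]; linarith
  have hbp : b * Real.pi / 4 = Real.pi / 8 + a / 4 := by
    rw [hb]
    field_simp
    ring
  obtain ⟨k, hk⟩ : ∃ k, k = 1000 / (1 - b) := ⟨_, rfl⟩
  have hk0 : 0 < k := by
    rw [hk]
    exact div_pos (by norm_num) (by linarith)
  have hkb : k * (1 - b) = 1000 := by
    rw [hk]
    exact div_mul_cancel₀ _ (by linarith)
  obtain ⟨r, hr⟩ : ∃ r, r = Real.pi / 8 - a / 4 := ⟨_, rfl⟩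
  have hr0 : 0 < r := by rw [hr]; linarith
  refine ⟨k, b, hk0, min (1 / 4) (min r (1 / (16 * k))), ?_, ?_⟩
  · exact lt_min (by norm_num) (lt_min hr0 (by positivity))
  intro δ hδ hδ0
  have hδ1 : δ < 1 / 4 := lt_of_lt_of_le hδ0 (min_le_left _ _)
  have hδr : δ < r := lt_of_lt_of_le hδ0 ((min_le_right _ _).trans (min_le_left _ _))
  have hδk : δ < 1 / (16 * k) := lt_of_lt_of_le hδ0 ((min_le_right _ _).trans (min_le_right _ _))
  have hδk' : k * δ < 1 / 16 := by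
    rw [lt_div_iff₀ (by positivity)] at hδk
    linarith
  -- the angle
  have hx : |δ * φ / 2| = δ * a / 2 := by
    rw [abs_div, abs_mul, ← ha, abs_of_pos hδ, abs_of_pos (by norm_num : (0 : ℝ) < 2)]
  have hx0 : 0 ≤ δ * a / 2 := by positivity
  have hx1 : δ * a / 2 ≤ δ := by
    have := mul_le_mul_of_nonneg_left (show a ≤ 2 by linarith) hδ.le
    linarith
  have hcos : Real.cos (δ * φ / 2) ≠ 0 := by
    have h1 := abs_le.1 (le_of_eq hx)
    exact (Real.cos_pos_of_mem_Ioo ⟨by linarith [h1.1], by linarith [h1.2]⟩).ne'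
  obtain ⟨τ, hτ⟩ : ∃ τ, τ = Real.tan (δ * φ / 2) := ⟨_, rfl⟩
  have hyy : yy σ c δ 0 = (τ : ℂ) * I := by
    rw [hτ, hφ]
    refine parm_yy hσc δ ?_
    rw [← hφ]
    exact hcos
  have hτa : |τ| = Real.tan (δ * a / 2) := by
    rw [hτ]
    rcases le_or_gt 0 (δ * φ / 2) with h | h
    · rw [abs_of_nonneg h] at hx
      rw [hx]
      exact abs_of_nonneg (Real.tan_nonneg_of_nonneg_of_le_pi_div_two hx0 (by linarith))
    · rw [abs_of_neg h] at hx
      rw [show δ * φ / 2 = -(δ * a / 2) by linarith, Real.tan_neg, abs_neg]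
      exact abs_of_nonneg (Real.tan_nonneg_of_nonneg_of_le_pi_div_two hx0 (by linarith))
  have hτ0 : 0 ≤ Real.tan (δ * a / 2) := by rw [← hτa]; exact abs_nonneg _
  have h5 := parm_tan hx0 (by linarith : δ * a / 2 ≤ 1)
  have hsq : (δ * a / 2) ^ 2 ≤ δ / 4 := by
    have h1 := pow_le_pow_left₀ hx0 hx1 2
    have h2 := mul_le_mul_of_nonneg_left hδ1.le hδ.le
    rw [sq δ] at h1
    linarith
  have hτ1 : |τ| ≤ 1 := by
    rw [hτa]
    have h6 := mul_le_mul_of_nonneg_left (show (1 : ℝ) / 2 ≤ 1 - (δ * a / 2) ^ 2 / 2 by linarith) hτ0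
    linarith
  -- lam
  obtain ⟨lam, hlam⟩ : ∃ lam, lam = Real.tan (δ * Real.pi / 2) / 2 := ⟨_, rfl⟩
  have hy0 : 0 < δ * Real.pi / 2 := by positivity
  have hy1 : δ * Real.pi / 2 < 1 / 2 := by
    have := mul_lt_mul_of_pos_right hδ1 Real.pi_pos
    linarith
  have hl1 : δ * Real.pi / 4 ≤ lam := by
    have h := Real.lt_tan hy0 (by linarith)
    rw [hlam]
    linarith
  have hl2 : lam ≤ δ := by
    have h := parm_tan hy0.le (by linarith : δ * Real.pi / 2 ≤ 1)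
    have h6 : (δ * Real.pi / 2) ^ 2 ≤ (1 / 2) ^ 2 := pow_le_pow_left₀ hy0.le hy1.le 2
    norm_num at h6
    have h7 : 0 ≤ lam := le_trans (by positivity) hl1
    have h8 : Real.tan (δ * Real.pi / 2) = 2 * lam := by rw [hlam]; ring
    rw [h8] at h
    have h9 := mul_le_mul_of_nonneg_left (show (7 : ℝ) / 8 ≤ 1 - (δ * Real.pi / 2) ^ 2 / 2 by linarith)
      (show (0 : ℝ) ≤ 2 * lam by linarith)
    have h10 := mul_le_mul_of_nonneg_left hpi4.le hδ.le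
    linarith
  refine ⟨-(τ * (1 - τ ^ 2)) / (1 + τ ^ 2) ^ 2, hσ, hσc, hδ, hδ1.le, ?_, ?_⟩
  · rw [← hlam]
    refine ⟨hb0, hb1, hkb, lt_of_lt_of_le (by positivity) hl1, ?_, ?_⟩
    · exact (mul_le_mul_of_nonneg_left hl2 hk0.le).trans hδk'.le
    · refine (parm_h hτ1).trans ?_
      rw [hτa]
      have h6 : Real.tan (δ * a / 2) ≤ b * (δ * Real.pi / 4) := by
        have h7 : δ * a / 2 ≤ b * (δ * Real.pi / 4) * (1 - (δ * a / 2) ^ 2 / 2) := by
          have h8 : b * (δ * Real.pi / 4) = δ * (Real.pi / 8 + a / 4) := by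
            rw [← hbp]
            ring
          rw [h8]
          have h9 : Real.pi / 8 + a / 4 ≤ 1 := by linarith
          have h10 : (Real.pi / 8 + a / 4) * ((δ * a / 2) ^ 2 / 2) ≤ δ / 8 := by
            have := mul_le_mul_of_nonneg_right h9 (show (0 : ℝ) ≤ (δ * a / 2) ^ 2 / 2 by positivity)
            linarith
          have h11 : a / 2 ≤ (Real.pi / 8 + a / 4) * (1 - (δ * a / 2) ^ 2 / 2) := by
            rw [mul_sub, mul_one]
            linarith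
          have h13 := mul_le_mul_of_nonneg_left h11 hδ.le
          linarith
        have h12 : 0 < 1 - (δ * a / 2) ^ 2 / 2 := by linarith
        exact le_of_mul_le_mul_right (h5.trans h7) h12
      exact h6.trans (mul_le_mul_of_nonneg_left hl1 hb0)
  · rw [hyy]
    have hI := Complex.I_sq
    have h1 : (1 + (τ : ℂ) ^ 2) ≠ 0 := by
      have : (0 : ℝ) < 1 + τ ^ 2 := by positivity
      exact_mod_cast this.ne'
    simp only [SP]
    have h2 : (1 - ((τ : ℂ) * I) ^ 2) = 1 + (τ : ℂ) ^ 2 := by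
      linear_combination (-(τ : ℂ) ^ 2) * hI
    have h3 : ((τ : ℂ) * I) ^ 3 = -(τ : ℂ) ^ 3 * I := by
      linear_combination ((τ : ℂ) ^ 3 * I) * hI
    rw [h2, h3]
    push_cast
    field_simp
    ring

end Pool.Agent.MP07129f.TP
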