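import Pool.Agent.Lib.MP_07129f_an.TP.Sect
import Pool.Agent.Lib.MP_07129f_an.TP.Mem
import Pool.Agent.Lib.MP_07129f_an.TP.Parm
import Pool.Agent.Lib.MP_07129f_an.TP.Blas

/-!
TP-Main: the midpoint theorem for Schwarz functions which take the value `1` at two points.
-/

namespace Pool.Agent.MP07129f.TP

open Complex Metric Set Filter Topology

/-- a square root with positive imaginary part -/
theorem exists_root {u : ℂ} (hu : ‖u‖ = 1) (hu1 : u ≠ 1) :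
    ∃ σ c : ℝ, 0 < σ ∧ σ ^ 2 + c ^ 2 = 1 ∧ pt σ c = u := by
  obtain ⟨v, hv⟩ : ∃ v : ℂ, v ^ 2 = u := IsAlgClosed.exists_pow_nat_eq u (by norm_num)
  have hvn : ‖v‖ = 1 := by
    have h1 : ‖v‖ ^ 2 = 1 := by rw [← norm_pow, hv, hu]
    exact (pow_eq_one_iff_of_nonneg (norm_nonneg _) two_ne_zero).1 h1
  have hn : v.im ^ 2 + v.re ^ 2 = 1 := by
    have h1 : normSq v = 1 := by rw [normSq_eq_norm_sq, hvn, one_pow]
    rw [normSq_apply] at h1
    nlinarith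
  have him : v.im ≠ 0 := by
    intro h0
    apply hu1
    rw [h0] at hn
    have h2 : v.re ^ 2 = 1 := by linarith
    have h3 : v = (v.re : ℂ) := Complex.ext rfl (by simp [h0])
    rw [← hv, h3, ← ofReal_pow, h2, ofReal_one]
  rcases lt_or_gt_of_ne him with h | h
  · refine ⟨-v.im, -v.re, by linarith, by nlinarith, ?_⟩
    unfold pt
    rw [← hv]
    have e : v = (v.re : ℂ) + (v.im : ℂ) * I := (re_add_im v).symm
    conv_rhs => rw [e]
    push_cast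
    ring
  · refine ⟨v.im, v.re, h, hn, ?_⟩
    unfold pt
    rw [← hv, re_add_im]

theorem mem_ball_rot {w z : ℂ} (hw : ‖w‖ = 1) (hz : z ∈ ball (0 : ℂ) 1) : w * z ∈ ball (0 : ℂ) 1 := by
  rw [mem_ball_zero_iff] at hz ⊢
  rw [norm_mul, hw, one_mul]
  exact hz

/-- a member of the class from a factor, rotated -/
theorem mem_rot {α : ℝ} (hα : 0 < α) (hα1 : α < 1) {F l P A V : ℂ → ℂ} (h : Dat α F l P) {w : ℂ}
    (hw : ‖w‖ = 1) (hA : ∀ z ∈ ball (0 : ℂ) 1, DifferentiableAt ℂ A z ∧ V z * A z = z * deriv A z ∧ 0 < (A z).re)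
    (hA0 : A 0 = 1) (hV : ∀ z ∈ ball (0 : ℂ) 1, DifferentiableAt ℂ V z)
    (hs : ∀ z ∈ ball (0 : ℂ) 1,
      (exp (-((α * Real.pi / 2 : ℝ) * I)) * (exp (α * l (w * z)) + V z)).im < 0 ∧
      0 < (exp ((α * Real.pi / 2 : ℝ) * I) * (exp (α * l (w * z)) + V z)).im) :
    ∃ f : C(ball (0 : ℂ) 1, ℂ), f ∈ SStar α ∧ ∀ z : ball (0 : ℂ) 1,
      f z = F z * A ((starRingEnd ℂ) w * z) := by
  have hw' : ‖(starRingEnd ℂ) w‖ = 1 := by rw [RCLike.norm_conj, hw]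
  have hww : w * (starRingEnd ℂ) w = 1 := by
    rw [mul_conj, normSq_eq_norm_sq, hw]; simp
  have hmap : ∀ z ∈ ball (0 : ℂ) 1, (starRingEnd ℂ) w * z ∈ ball (0 : ℂ) 1 := fun z hz =>
    mem_ball_rot hw' hz
  have hd : ∀ z ∈ ball (0 : ℂ) 1, ∀ G : ℂ → ℂ, DifferentiableAt ℂ G ((starRingEnd ℂ) w * z) →
      HasDerivAt (fun z => G ((starRingEnd ℂ) w * z)) (deriv G ((starRingEnd ℂ) w * z) *
        (starRingEnd ℂ) w) z := by
    intro z hz G hG
    have h1 : HasDerivAt (fun z => (starRingEnd ℂ) w * z) ((starRingEnd ℂ) w) z := by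
      simpa using (hasDerivAt_id z).const_mul ((starRingEnd ℂ) w)
    exact hG.hasDerivAt.comp z h1
  refine mem_of_sector hα hα1 h (A := fun z => A ((starRingEnd ℂ) w * z))
    (V := fun z => V ((starRingEnd ℂ) w * z)) ?_ ?_ ?_ ?_ ?_ ?_
  · exact fun z hz => (hd z hz A (hA _ (hmap z hz)).1).differentiableAt.differentiableWithinAt
  · simpa using hA0
  · exact fun z hz => (hA _ (hmap z hz)).2.2
  · exact fun z hz => (hd z hz V (hV _ (hmap z hz))).differentiableAt.differentiableWithinAt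
  · intro z hz
    rw [(hd z hz A (hA _ (hmap z hz)).1).deriv]
    have h1 := (hA _ (hmap z hz)).2.1
    show V ((starRingEnd ℂ) w * z) * A ((starRingEnd ℂ) w * z) = _
    rw [h1]
    ring
  · intro z hz
    have h1 := hs _ (hmap z hz)
    rw [← mul_assoc w, hww, one_mul] at h1
    exact h1

/-- the midpoint theorem -/
theorem midpoint {ω : ℂ → ℂ} (hω : IsSchwarz ω) {w₁ w₂ : ℂ} (hw₁ : ‖w₁‖ = 1) (hw₂ : ‖w₂‖ = 1)
    (hne : w₁ ≠ w₂) (ha₁ : AnalyticAt ℂ ω w₁) (ha₂ : AnalyticAt ℂ ω w₂) (h₁ : ω w₁ = 1)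
    (h₂ : ω w₂ = 1) : ∃ α₀ < 1, ∀ α : ℝ, 0 < α → α₀ < α → α < 1 → ∀ f ∈ SStar α, Gen α ω f →
      ∃ f₁ ∈ SStar α, ∃ f₂ ∈ SStar α, f₁ ≠ f₂ ∧ f = (1 / 2 : ℝ) • f₁ + (1 / 2 : ℝ) • f₂ := by
  have hww : w₁ * (starRingEnd ℂ) w₁ = 1 := by
    rw [mul_conj, normSq_eq_norm_sq, hw₁]; simp
  have hww' : (starRingEnd ℂ) w₁ * w₁ = 1 := by rw [mul_comm]; exact hww
  have hu : ‖w₂ * (starRingEnd ℂ) w₁‖ = 1 := by rw [norm_mul, RCLike.norm_conj, hw₁, hw₂, one_mul]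
  have hu1 : w₂ * (starRingEnd ℂ) w₁ ≠ 1 := by
    intro h0
    apply hne
    have : w₂ * ((starRingEnd ℂ) w₁ * w₁) = w₁ := by rw [← mul_assoc, h0, one_mul]
    rw [hww', mul_one] at this
    exact this.symm
  obtain ⟨σ, c, hσ, hσc, hpt⟩ := exists_root hu hu1
  obtain ⟨k, b, hk, δ₀, hδ₀, hpar⟩ := exists_par hσ hσc
  -- the rotated function
  set ω' : ℂ → ℂ := fun z => ω (w₁ * z) with hω'
  have hω's : IsSchwarz ω' := by
    refine ⟨?_, ?_, fun z hz => hω.2.2 _ (mem_ball_rot hw₁ hz)⟩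
    · intro z hz
      have h3 := hω.1.differentiableAt (ball_nhds (mem_ball_rot hw₁ hz))
      exact (h3.comp z ((differentiableAt_id).const_mul w₁)).differentiableWithinAt
    · simp [hω', hω.2.1]
  have hlin : ∀ z : ℂ, AnalyticAt ℂ (fun z : ℂ => w₁ * z) z := fun z =>
    analyticAt_const.mul analyticAt_id
  have hA1 : AnalyticAt ℂ ω' 1 := by
    have h3 : AnalyticAt ℂ ω ((fun z : ℂ => w₁ * z) 1) := by
      simpa using ha₁
    exact h3.comp (hlin 1)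
  have hw2 : w₁ * pt σ c = w₂ := by
    rw [hpt, mul_comm w₂, ← mul_assoc, hww, one_mul]
  have hA2 : AnalyticAt ℂ ω' (pt σ c) := by
    have h3 : AnalyticAt ℂ ω ((fun z : ℂ => w₁ * z) (pt σ c)) := by
      show AnalyticAt ℂ ω (w₁ * pt σ c)
      rw [hw2]
      exact ha₂
    exact h3.comp (hlin _)
  obtain ⟨δ₁, hδ₁, hsec⟩ := sector_all hω's hσ hσc hA1 hA2 (by simp [hω', h₁])
    (by simp only [hω']; rw [hw2, h₂]) (k := k) (b := b) hk
  refine ⟨1 - min δ₀ δ₁, by have := lt_min hδ₀ hδ₁; linarith, ?_⟩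
  intro α hα0 hα hα1 f hf hg
  obtain ⟨F, l, P, hfF, hd, hl⟩ := exists_dat_gen hα0 hα1 hf hω hg
  obtain ⟨δ, hδ⟩ : ∃ δ : ℝ, δ = 1 - α := ⟨_, rfl⟩
  have hδ0 : 0 < δ := by rw [hδ]; linarith
  have hδmin : δ < min δ₀ δ₁ := by rw [hδ]; linarith
  obtain ⟨h, hP⟩ := hpar δ hδ0 (hδmin.trans_le (min_le_left _ _))
  have hLg : Lg ω' (fun z => l (w₁ * z)) := by
    refine ⟨hω's, ?_, ?_, fun z hz => hd.im_lt _ (mem_ball_rot hw₁ hz), fun z hz =>
      hl _ (mem_ball_rot hw₁ hz)⟩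
    · intro z hz
      have h3 := hd.l_diff.differentiableAt (ball_nhds (mem_ball_rot hw₁ hz))
      exact (h3.comp z ((differentiableAt_id).const_mul w₁)).differentiableWithinAt
    · simp [hd.l_zero]
  have hs := hsec δ h (hδmin.trans_le (min_le_right _ _)) hP _ hLg α (α * Real.pi / 2)
    (by rw [hδ]; ring) rfl
  have hptn := pt_norm hσc
  have hball : ∀ w ∈ ball (0 : ℂ) 1, ‖w‖ ≤ 1 ∧ w ≠ 1 ∧ w ≠ pt σ c := by
    intro w hw
    have hw1 : ‖w‖ < 1 := by simpa using hw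
    refine ⟨hw1.le, ?_, ?_⟩
    · rintro rfl
      rw [norm_one] at hw1
      exact lt_irrefl _ hw1
    · rintro rfl
      rw [hptn] at hw1
      exact lt_irrefl _ hw1
  obtain ⟨f₁, hf₁, hf₁'⟩ := mem_rot hα0 hα1 hd hw₁ (fun z hz => A1_diff hP hz) (A_zero hP).1
    (fun z hz => V1_diff hP (hball z hz).1 (hball z hz).2.1 (hball z hz).2.2)
    (fun z hz => (hs z hz).1)
  obtain ⟨f₂, hf₂, hf₂'⟩ := mem_rot hα0 hα1 hd hw₁ (fun z hz => A2_diff hP hz) (A_zero hP).2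
    (fun z hz => V2_diff hP (hball z hz).1 (hball z hz).2.1 (hball z hz).2.2)
    (fun z hz => (hs z hz).2)
  refine ⟨f₁, hf₁, f₂, hf₂, ?_, ?_⟩
  · intro heq
    obtain ⟨z₀, hz₀, hz₁⟩ := A_ne hP
    have hz00 : z₀ ≠ 0 := by
      rintro rfl
      exact hz₁ ((A_zero hP).1.trans (A_zero hP).2.symm)
    have hm := mem_ball_rot hw₁ hz₀
    have h3 := hf₁' ⟨w₁ * z₀, hm⟩
    have h4 := hf₂' ⟨w₁ * z₀, hm⟩
    simp only at h3 h4
    rw [heq, h4, ← mul_assoc, hww', one_mul] at h3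
    have hF : F (w₁ * z₀) ≠ 0 := by
      rw [hd.F_eq _ hm]
      refine mul_ne_zero (mul_ne_zero ?_ hz00) (exp_ne_zero _)
      intro h0
      rw [h0, norm_zero] at hw₁
      exact zero_ne_one hw₁
    exact hz₁ (mul_left_cancel₀ hF h3).symm
  · ext z
    simp only [ContinuousMap.coe_add, ContinuousMap.coe_smul, Pi.add_apply, Pi.smul_apply,
      real_smul]
    have hz' : (starRingEnd ℂ) w₁ * (z : ℂ) ∈ ball (0 : ℂ) 1 :=
      mem_ball_rot (by rw [RCLike.norm_conj, hw₁]) z.2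
    have h3 := A_add hP hz'
    rw [hf₁' z, hf₂' z, hfF z]
    push_cast
    linear_combination (-(1 / 2 : ℂ) * F z) * h3

end Pool.Agent.MP07129f.TP
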