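import Pool.Agent.Lib.MP_07129f_an.XP.Max

/-!
TP-PL: the maximum principle for functions of moderate growth at two points of the circle.

PROOF.  Let `a < β < 1`, `m > 0` and `g z = h z - i m ((1 - z / w₁) ^ (-β) + (1 - z / w₂) ^ (-β))` (`Complex.cpow`; `Re (1 - z / w) > 0` in the
disc).  `Re (x ^ (-β)) = ‖x‖ ^ (-β) cos (β arg x) ≥ ‖x‖ ^ (-β) cos (β π / 2) > 0` for `Re x > 0` (`Complex.cpow_ofReal_re`).  So
`Im g = Im h - m (..) ≤ Im h`, and near `w₁` `Im g ≤ C ‖z - w₁‖ ^ (-a) - m cos (β π / 2) ‖z - w₁‖ ^ (-β) ≤ 0` near `w₁`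
(the minimum in `hg` is `‖z - w₁‖` near `w₁` if `w₁ ≠ w₂`; in all cases use `min ≥ ..`: `(min x y) ^ (-a) ≤ x ^ (-a) + y ^ (-a)` and `y` is bounded below
if `w₂ ≠ w₁`; the case `w₁ = w₂` is excluded by `hne`); the same near `w₂`.  At the other points of the circle `Im g ≤ κ` eventually.  `Im g` is bounded above in the disc:
`exists_tube` for `Im g ≤ 1`, and a compact disc.  `im_le_of_bdy` (`c = 0`, no exceptional points): `Im g ≤ 0`, i.e.
`Im h z ≤ m Re (..)` for all `m > 0`; let `m → 0`.  The strict form: `im_lt_of_bdy` with `B = c = 0`.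
-/

namespace Pool.Agent.MP07129f.TP

open Complex Metric Set Filter Topology

private theorem one_sub_re {w z : ℂ} (hw : ‖w‖ = 1) (hz : ‖z‖ < 1) :
    0 < (1 - z / w).re ∧ ‖1 - z / w‖ = ‖z - w‖ := by
  have hw0 : w ≠ 0 := by
    intro h0
    rw [h0, norm_zero] at hw
    exact zero_ne_one hw
  constructor
  · have h1 : ‖z / w‖ < 1 := by rw [norm_div, hw, div_one]; exact hz
    have h2 := (re_le_norm (z / w)).trans_lt h1
    rw [sub_re, one_re]
    linarith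
  · have e : 1 - z / w = -(z - w) / w := by
      field_simp
      ring
    rw [e, norm_div, norm_neg, hw, div_one]

private theorem cpow_re_ge {β : ℝ} (hβ : 0 < β) (hβ1 : β < 1) {x : ℂ} (hx : 0 < x.re) :
    ‖x‖ ^ (-β) * Real.cos (β * (Real.pi / 2)) ≤ (x ^ ((-β : ℝ) : ℂ)).re := by
  have hpi := Real.pi_pos
  rw [cpow_ofReal_re]
  refine mul_le_mul_of_nonneg_left ?_ (Real.rpow_nonneg (norm_nonneg _) _)
  have h1 : |arg x| < Real.pi / 2 := abs_arg_lt_pi_div_two_iff.2 (Or.inl hx)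
  have h2 : Real.cos (arg x * -β) = Real.cos (β * |arg x|) := by
    rw [← Real.cos_abs, abs_mul, abs_neg, abs_of_pos hβ, mul_comm]
  rw [h2]
  apply Real.cos_le_cos_of_nonneg_of_le_pi
  · positivity
  · nlinarith
  · exact mul_le_mul_of_nonneg_left h1.le hβ.le

private theorem near_one {w w' : ℂ} (hw : ‖w‖ = 1) (hne : w ≠ w') {C a β m : ℝ} (hC : 0 ≤ C)
    (hab : a < β) (hm : 0 < m) : ∀ᶠ z in 𝓝[ball (0 : ℂ) 1] w,
      C * (min ‖z - w‖ ‖z - w'‖) ^ (-a) ≤ m * ‖z - w‖ ^ (-β) := by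
  have hd : 0 < ‖w - w'‖ := norm_pos_iff.2 (sub_ne_zero.2 hne)
  have t1 : Tendsto (fun z : ℂ => ‖z - w‖) (𝓝 w) (𝓝 0) := by
    have : Continuous fun z : ℂ => ‖z - w‖ := by fun_prop
    have h2 := this.tendsto w
    simpa using h2
  have t2 : Tendsto (fun z : ℂ => C * ‖z - w‖ ^ (β - a)) (𝓝 w) (𝓝 0) := by
    have h1 : Tendsto (fun x : ℝ => x ^ (β - a)) (𝓝 0) (𝓝 0) := by
      have h3 := (Real.continuous_rpow_const (q := β - a) (by linarith)).tendsto 0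
      rwa [Real.zero_rpow (by linarith)] at h3
    have h2 := (h1.comp t1).const_mul C
    simpa using h2
  have e1 : ∀ᶠ z in 𝓝[ball (0 : ℂ) 1] w, ‖z - w‖ < ‖w - w'‖ / 2 :=
    (t1.mono_left nhdsWithin_le_nhds).eventually_lt_const (by positivity)
  have e2 : ∀ᶠ z in 𝓝[ball (0 : ℂ) 1] w, C * ‖z - w‖ ^ (β - a) < m :=
    (t2.mono_left nhdsWithin_le_nhds).eventually_lt_const hm
  filter_upwards [e1, e2, self_mem_nhdsWithin] with z h1 h2 h3
  have hz1 : ‖z‖ < 1 := by simpa using h3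
  have hpos : 0 < ‖z - w‖ := by
    rw [norm_pos_iff, sub_ne_zero]
    rintro rfl
    rw [hw] at hz1
    exact lt_irrefl _ hz1
  have hmin : min ‖z - w‖ ‖z - w'‖ = ‖z - w‖ := by
    apply min_eq_left
    have h4 : ‖w - w'‖ ≤ ‖z - w‖ + ‖z - w'‖ := by
      have e : w - w' = -(z - w) + (z - w') := by ring
      rw [e]
      refine (norm_add_le _ _).trans ?_
      rw [norm_neg]
    linarith
  rw [hmin]
  have e3 : ‖z - w‖ ^ (-a) = ‖z - w‖ ^ (β - a) * ‖z - w‖ ^ (-β) := by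
    rw [← Real.rpow_add hpos]
    congr 1
    ring
  rw [e3, ← mul_assoc]
  exact mul_le_mul_of_nonneg_right h2.le (Real.rpow_nonneg hpos.le _)

theorem im_nonpos_of_growth {h : ℂ → ℂ} (hd : DifferentiableOn ℂ h (ball 0 1)) {w₁ w₂ : ℂ}
    (hw₁ : ‖w₁‖ = 1) (hw₂ : ‖w₂‖ = 1) (hne : w₁ ≠ w₂) {C a : ℝ} (hC : 0 ≤ C) (ha : 0 < a) (ha1 : a < 1)
    (hg : ∀ z ∈ ball (0 : ℂ) 1, (h z).im ≤ C * (min ‖z - w₁‖ ‖z - w₂‖) ^ (-a))
    (hb : ∀ ζ ∈ sphere (0 : ℂ) 1, ζ ≠ w₁ → ζ ≠ w₂ → ∀ κ > 0, ∀ᶠ z in 𝓝[ball 0 1] ζ, (h z).im ≤ κ)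
    {z : ℂ} (hz : z ∈ ball (0 : ℂ) 1) : (h z).im ≤ 0 := by
  have hpi := Real.pi_pos
  obtain ⟨β, hβ⟩ : ∃ β : ℝ, β = (a + 1) / 2 := ⟨_, rfl⟩
  have hβ0 : 0 < β := by rw [hβ]; linarith
  have hβ1 : β < 1 := by rw [hβ]; linarith
  have hab : a < β := by rw [hβ]; linarith
  obtain ⟨q, hq⟩ : ∃ q : ℝ, q = Real.cos (β * (Real.pi / 2)) := ⟨_, rfl⟩
  have hq0 : 0 < q := by
    rw [hq]
    apply Real.cos_pos_of_mem_Ioo
    constructor
    · nlinarith
    · nlinarith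
  set φ : ℂ → ℂ → ℂ := fun w z => (1 - z / w) ^ ((-β : ℝ) : ℂ) with hφ
  have hφd : ∀ w : ℂ, ‖w‖ = 1 → DifferentiableOn ℂ (φ w) (ball 0 1) := by
    intro w hw z hz
    have hz1 : ‖z‖ < 1 := by simpa using hz
    have h1 := (one_sub_re hw hz1).1
    have h2 : DifferentiableAt ℂ (fun z : ℂ => 1 - z / w) z := by fun_prop
    exact (h2.cpow (differentiableAt_const _) (Or.inl h1)).differentiableWithinAt
  have hφr : ∀ w : ℂ, ‖w‖ = 1 → ∀ z ∈ ball (0 : ℂ) 1, ‖z - w‖ ^ (-β) * q ≤ (φ w z).re := by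
    intro w hw z hz
    have hz1 : ‖z‖ < 1 := by simpa using hz
    have h1 := one_sub_re hw hz1
    have h2 := cpow_re_ge hβ0 hβ1 h1.1
    rw [h1.2, ← hq] at h2
    exact h2
  have hφ0 : ∀ w : ℂ, ‖w‖ = 1 → ∀ z ∈ ball (0 : ℂ) 1, 0 ≤ (φ w z).re := fun w hw z hz =>
    (mul_nonneg (Real.rpow_nonneg (norm_nonneg _) _) hq0.le).trans (hφr w hw z hz)
  have key : ∀ m : ℝ, 0 < m → (h z).im ≤ m * ((φ w₁ z).re + (φ w₂ z).re) := by
    intro m hm
    set g : ℂ → ℂ := fun z => h z - I * (m * (φ w₁ z + φ w₂ z)) with hgdef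
    have hgim : ∀ z, (g z).im = (h z).im - m * ((φ w₁ z).re + (φ w₂ z).re) := by
      intro z
      simp only [hgdef]
      rw [sub_im, I_mul_im, re_ofReal_mul, add_re]
    have hgd : DifferentiableOn ℂ g (ball 0 1) :=
      hd.sub ((((hφd w₁ hw₁).add (hφd w₂ hw₂)).const_mul _).const_mul _)
    have hgb : ∀ ζ ∈ sphere (0 : ℂ) 1, ∀ κ > 0, ∀ᶠ z in 𝓝[ball 0 1] ζ, (g z).im ≤ 0 + κ := by
      intro ζ hζ κ hκ
      by_cases h1 : ζ = w₁
      · subst h1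
        filter_upwards [near_one hw₁ hne hC hab (mul_pos hm hq0), self_mem_nhdsWithin] with z h2 h3
        rw [hgim]
        have h4 := hφr ζ hw₁ z h3
        have h5 := hφ0 w₂ hw₂ z h3
        have h6 := hg z h3
        have h7 := mul_le_mul_of_nonneg_left h4 hm.le
        have h8 := mul_nonneg hm.le h5
        nlinarith
      · by_cases h1' : ζ = w₂
        · subst h1'
          filter_upwards [near_one hw₂ (Ne.symm hne) hC hab (mul_pos hm hq0), self_mem_nhdsWithin]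
            with z h2 h3
          rw [min_comm] at h2
          rw [hgim]
          have h4 := hφr ζ hw₂ z h3
          have h5 := hφ0 w₁ hw₁ z h3
          have h6 := hg z h3
          have h7 := mul_le_mul_of_nonneg_left h4 hm.le
          have h8 := mul_nonneg hm.le h5
          nlinarith
        · filter_upwards [hb ζ hζ h1 h1' κ hκ, self_mem_nhdsWithin] with z h2 h3
          rw [hgim]
          have h4 := hφ0 w₁ hw₁ z h3
          have h5 := hφ0 w₂ hw₂ z h3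
          have h8 := mul_nonneg hm.le (add_nonneg h4 h5)
          linarith
    obtain ⟨r₀, hr₀, htube⟩ := exists_tube (P := fun z => (g z).im ≤ 1) (fun ζ hζ => by
      filter_upwards [hgb ζ hζ 1 one_pos] with z hz
      linarith)
    have hsub : closedBall (0 : ℂ) r₀ ⊆ ball 0 1 := closedBall_subset_ball hr₀
    have hcont : ContinuousOn (fun z => (g z).im) (closedBall (0 : ℂ) r₀) :=
      continuous_im.comp_continuousOn (hgd.continuousOn.mono hsub)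
    obtain ⟨B, hB⟩ := (isCompact_closedBall (0 : ℂ) r₀).bddAbove_image hcont
    have hbound : ∀ z ∈ ball (0 : ℂ) 1, (g z).im ≤ max B 1 := by
      intro z hz
      have hz1 : ‖z‖ < 1 := by simpa using hz
      rcases le_or_gt ‖z‖ r₀ with h1 | h1
      · have h2 : z ∈ closedBall (0 : ℂ) r₀ := by simpa using h1
        exact (hB (mem_image_of_mem _ h2)).trans (le_max_left _ _)
      · exact (htube z h1 hz1).trans (le_max_right _ _)
    have h3 := im_le_of_bdy hgd hbound (F := ∅) finite_empty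
      (fun ζ hζ κ hκ => hgb ζ hζ.1 κ hκ) hz
    rw [hgim] at h3
    linarith
  refine le_of_forall_pos_le_add fun ε hε => ?_
  obtain ⟨M, hM⟩ : ∃ M : ℝ, M = (φ w₁ z).re + (φ w₂ z).re := ⟨_, rfl⟩
  have hM0 : 0 ≤ M := by rw [hM]; exact add_nonneg (hφ0 w₁ hw₁ z hz) (hφ0 w₂ hw₂ z hz)
  have h1 := key (ε / (M + 1)) (by positivity)
  rw [← hM] at h1
  have h2 : ε / (M + 1) * M ≤ ε := by
    rw [div_mul_eq_mul_div, div_le_iff₀ (by positivity)]
    nlinarith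
  linarith

theorem im_neg_of_growth {h : ℂ → ℂ} (hd : DifferentiableOn ℂ h (ball 0 1)) {w₁ w₂ : ℂ}
    (hw₁ : ‖w₁‖ = 1) (hw₂ : ‖w₂‖ = 1) (hne : w₁ ≠ w₂) {C a : ℝ} (hC : 0 ≤ C) (ha : 0 < a) (ha1 : a < 1)
    (hg : ∀ z ∈ ball (0 : ℂ) 1, (h z).im ≤ C * (min ‖z - w₁‖ ‖z - w₂‖) ^ (-a))
    (hb : ∀ ζ ∈ sphere (0 : ℂ) 1, ζ ≠ w₁ → ζ ≠ w₂ → ∀ κ > 0, ∀ᶠ z in 𝓝[ball 0 1] ζ, (h z).im ≤ κ)
    (h0 : (h 0).im < 0) {z : ℂ} (hz : z ∈ ball (0 : ℂ) 1) : (h z).im < 0 := by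
  have hle : ∀ z ∈ ball (0 : ℂ) 1, (h z).im ≤ 0 := fun z hz =>
    im_nonpos_of_growth hd hw₁ hw₂ hne hC ha ha1 hg hb hz
  refine im_lt_of_bdy hd hle (F := ∅) finite_empty (fun ζ _ κ hκ => ?_) h0 hz
  filter_upwards [self_mem_nhdsWithin] with w hw
  have := hle w hw
  linarith

end Pool.Agent.MP07129f.TP
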