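import Pool.Agent.Lib.MP_07129f_an.TP.Defs

/-!
TP-RotA: the second coefficient as a continuous linear functional.

`Lam c x = (1 / 2 π) ∫_0^{2π} Re (conj c * 4 e^(-2 i θ) * x (e^(i θ) / 2)) dθ`.
PROOF.  `Lam_add`, `Lam_smul`: linearity of the integral (the integrands are continuous in `θ`).
`Lam_cont`: the map `x ↦ x ∘ γ`, `γ : C(ℝ, ball 0 1)`, is continuous (`ContinuousMap.continuous_precomp`), the restriction to the compact set
`Icc 0 (2 π)` is continuous, and the integral is bounded by the supremum: for instance with `exists_close`-type arguments: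
`continuous_iff_continuousAt`; for `ε > 0` the set of `y` with `‖y z - x z‖ < ε` for all `‖z‖ = 1 / 2` is a neighbourhood of `x` (compact-open topology,
`ContinuousMap.tendsto_iff_forall_isCompact_tendstoUniformlyOn` or `ContinuousMap.dist_lt_iff` on the compact circle), and there
`|Lam c y - Lam c x| ≤ 4 ε`.
`Lam_val`: `G z = z exp (P z)`, so with `z = e^(i θ) / 2`: `4 e^(-2 i θ) G z = e^(-i θ) 2 exp (P z)`, and the mean over `θ` of `exp (P z) / z` is the derivative of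
`exp ∘ P` at `0`, i.e. `P' (0)` (Cauchy formula for the first derivative on the circle of radius `1 / 2`:
`Complex.two_pi_I_inv_smul_circleIntegral_sub_sq_inv_smul_of_differentiable` or `Complex.deriv_eq_smul_circleIntegral`; `circleIntegral` unfolds to an integral over `θ`).
`P' (0) = α l' (0)`: the derivative at `0` of `z P' (z) = exp (α l z) - 1` (`Dat.eq`), `l 0 = 0`.
-/

namespace Pool.Agent.MP07129f.TP

open Complex Metric Set Filter Topology

/-- the circle of radius `1 / 2` -/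
noncomputable def gam (θ : ℝ) : ball (0 : ℂ) 1 :=
  ⟨exp (θ * I) / 2, by rw [mem_ball_zero_iff, norm_div, norm_exp_ofReal_mul_I]; norm_num⟩

/-- `Re (conj c * a₂)` -/
noncomputable def Lam (c : ℂ) (x : C(ball (0 : ℂ) 1, ℂ)) : ℝ :=
  (2 * Real.pi)⁻¹ *
    ∫ θ in (0 : ℝ)..(2 * Real.pi), ((starRingEnd ℂ) c * (4 * exp (-(2 * θ * I))) * x (gam θ)).re

private theorem RotA_gam : Continuous gam := by
  unfold gam
  refine Continuous.subtype_mk ?_ _
  fun_prop

private theorem RotA_ctsC (c : ℂ) (x : C(ball (0 : ℂ) 1, ℂ)) :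
    Continuous fun θ : ℝ => (starRingEnd ℂ) c * (4 * exp (-(2 * θ * I))) * x (gam θ) := by
  have h1 : Continuous fun θ : ℝ => x (gam θ) := x.continuous.comp RotA_gam
  have h2 : Continuous fun θ : ℝ => (starRingEnd ℂ) c * (4 * exp (-(2 * θ * I))) := by fun_prop
  exact h2.mul h1

private theorem RotA_cts (c : ℂ) (x : C(ball (0 : ℂ) 1, ℂ)) :
    Continuous fun θ : ℝ => ((starRingEnd ℂ) c * (4 * exp (-(2 * θ * I))) * x (gam θ)).re :=
  Complex.continuous_re.comp (RotA_ctsC c x)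

theorem Lam_add (c : ℂ) (x y : C(ball (0 : ℂ) 1, ℂ)) : Lam c (x + y) = Lam c x + Lam c y := by
  unfold Lam
  rw [← mul_add, ← intervalIntegral.integral_add ((RotA_cts c x).intervalIntegrable _ _)
    ((RotA_cts c y).intervalIntegrable _ _)]
  have h1 : ∀ θ : ℝ, ((starRingEnd ℂ) c * (4 * exp (-(2 * θ * I))) * (x + y) (gam θ)).re =
      ((starRingEnd ℂ) c * (4 * exp (-(2 * θ * I))) * x (gam θ)).re +
        ((starRingEnd ℂ) c * (4 * exp (-(2 * θ * I))) * y (gam θ)).re := by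
    intro θ
    rw [ContinuousMap.add_apply, mul_add, Complex.add_re]
  simp only [h1]

theorem Lam_smul (c : ℂ) (r : ℝ) (x : C(ball (0 : ℂ) 1, ℂ)) : Lam c (r • x) = r * Lam c x := by
  unfold Lam
  have h1 : ∀ θ : ℝ, ((starRingEnd ℂ) c * (4 * exp (-(2 * θ * I))) * (r • x) (gam θ)).re =
      r * ((starRingEnd ℂ) c * (4 * exp (-(2 * θ * I))) * x (gam θ)).re := by
    intro θ
    rw [ContinuousMap.smul_apply, Complex.real_smul, mul_left_comm, Complex.re_ofReal_mul]
  simp only [h1]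
  rw [intervalIntegral.integral_const_mul]
  ring

private theorem RotA_bound (c : ℂ) (x y : C(ball (0 : ℂ) 1, ℂ)) (δ : ℝ)
    (h : ∀ θ ∈ Icc (0 : ℝ) (2 * Real.pi), dist (x (gam θ)) (y (gam θ)) ≤ δ) :
    |Lam c y - Lam c x| ≤ 4 * ‖c‖ * δ := by
  unfold Lam
  rw [← mul_sub, ← intervalIntegral.integral_sub ((RotA_cts c y).intervalIntegrable _ _)
    ((RotA_cts c x).intervalIntegrable _ _), abs_mul]
  have hpi : (0 : ℝ) < 2 * Real.pi := Real.two_pi_pos
  have h1 : ‖∫ θ in (0 : ℝ)..(2 * Real.pi),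
      (((starRingEnd ℂ) c * (4 * exp (-(2 * θ * I))) * y (gam θ)).re -
        ((starRingEnd ℂ) c * (4 * exp (-(2 * θ * I))) * x (gam θ)).re)‖ ≤
      (4 * ‖c‖ * δ) * |2 * Real.pi - 0| := by
    refine intervalIntegral.norm_integral_le_of_norm_le_const fun θ hθ => ?_
    rw [uIoc_of_le hpi.le] at hθ
    rw [← Complex.sub_re, ← mul_sub, Real.norm_eq_abs]
    refine (Complex.abs_re_le_norm _).trans ?_
    have h2 := h θ ⟨hθ.1.le, hθ.2⟩
    rw [dist_comm, dist_eq_norm] at h2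
    have h3 : ‖exp (-(2 * (θ : ℂ) * I))‖ = 1 := by
      have : -(2 * (θ : ℂ) * I) = ((-(2 * θ) : ℝ) : ℂ) * I := by push_cast; ring
      rw [this, Complex.norm_exp_ofReal_mul_I]
    rw [norm_mul, norm_mul, norm_mul, h3, RCLike.norm_conj, mul_one]
    have h4 : ‖(4 : ℂ)‖ = 4 := by norm_num
    rw [h4, mul_comm ‖c‖ 4]
    exact mul_le_mul_of_nonneg_left h2 (by positivity)
  rw [Real.norm_eq_abs, sub_zero, abs_of_pos hpi] at h1
  calc |(2 * Real.pi)⁻¹| * |∫ θ in (0 : ℝ)..(2 * Real.pi),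
      (((starRingEnd ℂ) c * (4 * exp (-(2 * θ * I))) * y (gam θ)).re -
        ((starRingEnd ℂ) c * (4 * exp (-(2 * θ * I))) * x (gam θ)).re)|
      ≤ (2 * Real.pi)⁻¹ * ((4 * ‖c‖ * δ) * (2 * Real.pi)) := by
        rw [abs_of_pos (inv_pos.2 hpi)]
        exact mul_le_mul_of_nonneg_left h1 (inv_pos.2 hpi).le
    _ = 4 * ‖c‖ * δ := by
        field_simp

theorem Lam_cont (c : ℂ) : Continuous (Lam c) := by
  rw [continuous_iff_continuousAt]
  intro x
  rw [ContinuousAt, Metric.tendsto_nhds]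
  intro ε hε
  have hK : IsCompact (gam '' Icc (0 : ℝ) (2 * Real.pi)) := isCompact_Icc.image RotA_gam
  have h1 : Tendsto (fun y : C(ball (0 : ℂ) 1, ℂ) => y) (𝓝 x) (𝓝 x) := tendsto_id
  rw [ContinuousMap.tendsto_iff_forall_isCompact_tendstoUniformlyOn] at h1
  have h2 := h1 _ hK
  rw [Metric.tendstoUniformlyOn_iff] at h2
  have hδ : 0 < ε / (4 * ‖c‖ + 1) := by positivity
  filter_upwards [h2 _ hδ] with y hy
  rw [Real.dist_eq]
  refine (RotA_bound c x y (ε / (4 * ‖c‖ + 1)) fun θ hθ => (hy _ ⟨θ, hθ, rfl⟩).le).trans_lt ?_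
  rw [← mul_div_assoc, div_lt_iff₀ (by positivity)]
  nlinarith [norm_nonneg c]

private theorem RotA_deriv {α : ℝ} {G l P : ℂ → ℂ} (h : Dat α G l P) :
    deriv P 0 = α * deriv l 0 := by
  have h0 : (0 : ℂ) ∈ ball (0 : ℂ) 1 := mem_ball_self one_pos
  have hn : ball (0 : ℂ) 1 ∈ 𝓝 (0 : ℂ) := isOpen_ball.mem_nhds h0
  have hP' : DifferentiableAt ℂ (deriv P) 0 :=
    (h.P_diff.deriv isOpen_ball).differentiableAt hn
  have hl : DifferentiableAt ℂ l 0 := h.l_diff.differentiableAt hn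
  have d1 : HasDerivAt (fun z : ℂ => z * deriv P z) (deriv P 0) 0 := by
    have := (hasDerivAt_id' (0 : ℂ)).mul hP'.hasDerivAt
    have e : (1 : ℂ) * deriv P 0 + 0 * deriv (deriv P) 0 = deriv P 0 := by ring
    rw [e] at this
    exact this
  have d2 : HasDerivAt (fun z : ℂ => exp (α * l z) - 1) (α * deriv l 0) 0 := by
    have := ((hl.hasDerivAt.const_mul (α : ℂ)).cexp).sub_const 1
    simpa [h.l_zero] using this
  have he : (fun z : ℂ => z * deriv P z) =ᶠ[𝓝 0] fun z : ℂ => exp (α * l z) - 1 := by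
    filter_upwards [hn] with z hz
    exact h.eq z hz
  exact d1.unique (d2.congr_of_eventuallyEq he)

private theorem RotA_circ (f : ℂ → ℂ) (hf : DifferentiableOn ℂ f (ball 0 1)) :
    ∫ θ in (0 : ℝ)..(2 * Real.pi), 4 * exp (-(2 * θ * I)) * (exp (θ * I) / 2 * f (exp (θ * I) / 2)) =
      2 * Real.pi * deriv f 0 := by
  have h1 : DifferentiableOn ℂ f (closedBall 0 (1 / 2)) :=
    hf.mono (closedBall_subset_ball (by norm_num))
  have h2 := h1.deriv_eq_smul_circleIntegral (by norm_num : (0 : ℝ) < 1 / 2)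
  rw [circleIntegral] at h2
  have h3 : ∀ θ : ℝ, deriv (circleMap 0 (1 / 2)) θ • (1 / (circleMap 0 (1 / 2) θ - 0) ^ 2) •
      f (circleMap 0 (1 / 2) θ) =
      I * (4 * exp (-(2 * θ * I)) * (exp (θ * I) / 2 * f (exp (θ * I) / 2))) := by
    intro θ
    have e1 : circleMap 0 (1 / 2) θ = exp (θ * I) / 2 := by
      rw [circleMap_zero]
      push_cast
      ring
    have e2 : exp (-(2 * (θ : ℂ) * I)) = (exp (θ * I) ^ 2)⁻¹ := by
      rw [← Complex.exp_nat_mul, ← Complex.exp_neg]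
      congr 1
      push_cast
      ring
    rw [deriv_circleMap, e1, e2, smul_eq_mul, smul_eq_mul, sub_zero]
    have h4 : exp ((θ : ℂ) * I) ≠ 0 := Complex.exp_ne_zero _
    field_simp
    ring
  simp only [h3] at h2
  rw [intervalIntegral.integral_const_mul, smul_eq_mul] at h2
  have h5 : I * (∫ θ in (0 : ℝ)..(2 * Real.pi), 4 * exp (-(2 * θ * I)) *
      (exp (θ * I) / 2 * f (exp (θ * I) / 2))) = I * (2 * Real.pi * deriv f 0) := by
    rw [h2]
    ring
  exact mul_left_cancel₀ Complex.I_ne_zero h5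

theorem Lam_val {α : ℝ} {G l P : ℂ → ℂ} (h : Dat α G l P) {g : C(ball (0 : ℂ) 1, ℂ)}
    (hg : ∀ z : ball (0 : ℂ) 1, g z = G z) (c : ℂ) :
    Lam c g = ((starRingEnd ℂ) c * (α * deriv l 0)).re := by
  have h0 : (0 : ℂ) ∈ ball (0 : ℂ) 1 := mem_ball_self one_pos
  have hn : ball (0 : ℂ) 1 ∈ 𝓝 (0 : ℂ) := isOpen_ball.mem_nhds h0
  have hP : DifferentiableAt ℂ P 0 := h.P_diff.differentiableAt hn
  have hd : deriv (fun z => exp (P z)) 0 = deriv P 0 := by
    have := hP.hasDerivAt.cexp.deriv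
    rw [this, h.P_zero, Complex.exp_zero, one_mul]
  have h1 : ∀ θ : ℝ, (starRingEnd ℂ) c * (4 * exp (-(2 * θ * I))) * g (gam θ) =
      (starRingEnd ℂ) c * (4 * exp (-(2 * θ * I)) *
        (exp (θ * I) / 2 * exp (P (exp (θ * I) / 2)))) := by
    intro θ
    rw [hg, h.F_eq _ (gam θ).2]
    have : ((gam θ : ball (0 : ℂ) 1) : ℂ) = exp (θ * I) / 2 := rfl
    rw [this]
    ring
  have h2 : ∫ θ in (0 : ℝ)..(2 * Real.pi),
      ((starRingEnd ℂ) c * (4 * exp (-(2 * θ * I))) * g (gam θ)).re =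
      (∫ θ in (0 : ℝ)..(2 * Real.pi),
        (starRingEnd ℂ) c * (4 * exp (-(2 * θ * I))) * g (gam θ)).re :=
    Complex.reCLM.intervalIntegral_comp_comm ((RotA_ctsC c g).intervalIntegrable _ _)
  unfold Lam
  rw [h2]
  simp only [h1]
  rw [intervalIntegral.integral_const_mul, RotA_circ _ (h.P_diff.cexp), hd, RotA_deriv h]
  have h3 : (starRingEnd ℂ) c * (2 * Real.pi * (α * deriv l 0)) =
      ((2 * Real.pi : ℝ) : ℂ) * ((starRingEnd ℂ) c * (α * deriv l 0)) := by
    push_cast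
    ring
  rw [h3, Complex.re_ofReal_mul, ← mul_assoc, inv_mul_cancel₀ Real.two_pi_pos.ne', one_mul]

end Pool.Agent.MP07129f.TP
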