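import Pool.Agent.Lib.MP_07129f_an.TP.Defs

/-!
TP-RotB: unique maximum of a functional, in a quantitative form, gives an extreme point.

PROOF.  For `z₀`, `ε > 0` and the constant `K ≥ 0` the set `{x | ‖x z₀ - f z₀‖ ≤ ε + K (Λ f - Λ x)}` is convex (`x ↦ ‖x z₀ - f z₀‖ + K Λ x` is a convex function)
and closed (`ContinuousMap.continuous_eval_const`), so it contains `closure (convexHull ℝ S)` (`convexHull_min`, `closure_minimal`); the same for
`{x | Λ x ≤ Λ f}`.  Let `f = a x₁ + b x₂` (`a, b > 0`, `a + b = 1`) with `x₁, x₂` in the closure: `Λ f = a Λ x₁ + b Λ x₂`, `Λ xᵢ ≤ Λ f`, so `Λ xᵢ = Λ f`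
and `‖xᵢ z₀ - f z₀‖ ≤ ε` for all `ε > 0`: `xᵢ = f`.
-/

namespace Pool.Agent.MP07129f.TP

open Complex Metric Set Filter Topology

private theorem RotB_sub {S : Set C(ball (0 : ℂ) 1, ℂ)} {c : ℝ} {q : C(ball (0 : ℂ) 1, ℂ) → ℝ}
    (hq : Continuous q) (hconv : ∀ x y : C(ball (0 : ℂ) 1, ℂ), ∀ a b : ℝ, 0 ≤ a → 0 ≤ b → a + b = 1 →
      q (a • x + b • y) ≤ a * q x + b * q y) (hS : ∀ g ∈ S, q g ≤ c) :
    ∀ x ∈ closure (convexHull ℝ S), q x ≤ c := by
  have h1 : convexHull ℝ S ⊆ {x | q x ≤ c} := by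
    refine convexHull_min hS ?_
    intro x hx y hy a b ha hb hab
    have hx' : q x ≤ c := hx
    have hy' : q y ≤ c := hy
    show q (a • x + b • y) ≤ c
    refine (hconv x y a b ha hb hab).trans ?_
    calc a * q x + b * q y ≤ a * c + b * c :=
          add_le_add (mul_le_mul_of_nonneg_left hx' ha) (mul_le_mul_of_nonneg_left hy' hb)
      _ = c := by rw [← add_mul, hab, one_mul]
  have h2 : closure (convexHull ℝ S) ⊆ {x | q x ≤ c} :=
    closure_minimal h1 (isClosed_le hq continuous_const)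
  exact fun x hx => h2 hx

theorem extreme_of_functional {S : Set C(ball (0 : ℂ) 1, ℂ)} {f : C(ball (0 : ℂ) 1, ℂ)} (hf : f ∈ S)
    {Λ : C(ball (0 : ℂ) 1, ℂ) → ℝ} (hadd : ∀ x y, Λ (x + y) = Λ x + Λ y)
    (hsmul : ∀ (r : ℝ) x, Λ (r • x) = r * Λ x) (hcont : Continuous Λ) (hmax : ∀ g ∈ S, Λ g ≤ Λ f)
    (hst : ∀ z₀ : ball (0 : ℂ) 1, ∀ ε > 0, ∃ K : ℝ, 0 ≤ K ∧
      ∀ g ∈ S, ‖g z₀ - f z₀‖ ≤ ε + K * (Λ f - Λ g)) :
    f ∈ (closure (convexHull ℝ S)).extremePoints ℝ := by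
  have hΛ : ∀ x ∈ closure (convexHull ℝ S), Λ x ≤ Λ f := by
    refine RotB_sub hcont ?_ hmax
    intro x y a b _ _ _
    rw [hadd, hsmul, hsmul]
  have hval : ∀ x ∈ closure (convexHull ℝ S), Λ x = Λ f → x = f := by
    intro x hx hxf
    ext z₀
    have h1 : ∀ ε > 0, ‖x z₀ - f z₀‖ ≤ ε := by
      intro ε hε
      obtain ⟨K, hK, hg⟩ := hst z₀ ε hε
      have h2 : ∀ y ∈ closure (convexHull ℝ S), ‖y z₀ - f z₀‖ + K * Λ y ≤ ε + K * Λ f := by
        refine RotB_sub (q := fun y => ‖y z₀ - f z₀‖ + K * Λ y) ?_ ?_ ?_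
        · exact ((continuous_eval_const z₀).sub continuous_const).norm.add
            (continuous_const.mul hcont)
        · intro y y' a b ha hb hab
          have h3 : (a • y + b • y') z₀ - f z₀ = a • (y z₀ - f z₀) + b • (y' z₀ - f z₀) := by
            have h4 : (a • y + b • y') z₀ = a • y z₀ + b • y' z₀ := rfl
            have h5 : f z₀ = (a + b) • f z₀ := by rw [hab, one_smul]
            rw [h4]
            nth_rewrite 1 [h5]
            rw [add_smul, smul_sub, smul_sub]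
            ring
          have h6 : ‖(a • y + b • y') z₀ - f z₀‖ ≤ a * ‖y z₀ - f z₀‖ + b * ‖y' z₀ - f z₀‖ := by
            rw [h3]
            refine (norm_add_le _ _).trans ?_
            rw [norm_smul, norm_smul, Real.norm_of_nonneg ha, Real.norm_of_nonneg hb]
          show ‖(a • y + b • y') z₀ - f z₀‖ + K * Λ (a • y + b • y') ≤
            a * (‖y z₀ - f z₀‖ + K * Λ y) + b * (‖y' z₀ - f z₀‖ + K * Λ y')
          rw [hadd, hsmul, hsmul]
          nlinarith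
        · intro g hgS
          have := hg g hgS
          show ‖g z₀ - f z₀‖ + K * Λ g ≤ ε + K * Λ f
          nlinarith
      have h7 := h2 x hx
      rw [hxf] at h7
      linarith
    have h8 : ‖x z₀ - f z₀‖ ≤ 0 := le_of_forall_pos_le_add fun ε hε => by
      rw [zero_add]; exact h1 ε hε
    exact sub_eq_zero.1 (norm_le_zero_iff.1 h8)
  rw [mem_extremePoints]
  refine ⟨subset_closure (subset_convexHull ℝ S hf), ?_⟩
  rintro x₁ hx₁ x₂ hx₂ ⟨a, b, ha, hb, hab, hfx⟩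
  have h1 := hΛ x₁ hx₁
  have h2 := hΛ x₂ hx₂
  have h3 : Λ f = a * Λ x₁ + b * Λ x₂ := by
    rw [← hfx, hadd, hsmul, hsmul]
  have h4 : Λ x₁ = Λ f := by
    refine le_antisymm h1 ?_
    by_contra hcon
    push Not at hcon
    have h5 : a * Λ x₁ < a * Λ f := mul_lt_mul_of_pos_left hcon ha
    have h6 : b * Λ x₂ ≤ b * Λ f := mul_le_mul_of_nonneg_left h2 hb.le
    have h7 : a * Λ f + b * Λ f = Λ f := by rw [← add_mul, hab, one_mul]
    linarith
  have h5 : Λ x₂ = Λ f := by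
    refine le_antisymm h2 ?_
    by_contra hcon
    push Not at hcon
    have h5 : b * Λ x₂ < b * Λ f := mul_lt_mul_of_pos_left hcon hb
    have h6 : a * Λ x₁ ≤ a * Λ f := mul_le_mul_of_nonneg_left h1 ha.le
    have h7 : a * Λ f + b * Λ f = Λ f := by rw [← add_mul, hab, one_mul]
    linarith
  exact ⟨hval x₁ hx₁ h4, hval x₂ hx₂ h5⟩

end Pool.Agent.MP07129f.TP
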