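import Pool.Agent.Lib.MP_07129f_an.TP.Defs

/-!
TP-RotC: functions whose Schwarz function is almost a rotation.

PROOF.  `carath`: `Re h ≥ 0` in the disc; for `ε > 0` let `k = h + ε`, `Re k > 0`; `ψ = (k - k 0) / (k + conj (k 0))` maps the disc into itself
(`‖ψ‖ < 1`: `‖k + conj k₀‖ ^ 2 - ‖k - k₀‖ ^ 2 = 4 Re k Re k₀ > 0`), `ψ 0 = 0`, so `‖k z - k 0‖ ≤ ‖z‖ ‖k z + conj (k 0)‖ ≤ ‖z‖ (‖k z - k 0‖ + 2 Re (k 0))`,
`‖k z - k 0‖ ≤ 2 ‖z‖ Re (k 0) / (1 - ‖z‖)`; `ε → 0`.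
`near_rot`: `ω = sch l` (`Dat.lean`) is a Schwarz function (as in `Dat.norm_l_le`), `φ = dslope ω 0`, `‖φ‖ ≤ 1` in the disc (the Schwarz lemma `‖ω z‖ ≤ ‖z‖` and the maximum principle, or
the values of `dslope` at `z ≠ 0` and continuity), `ω z = z φ z`, `φ 0 = ω' (0) = l' (0) / 2` (`sch l = (e^l - 1) / (e^l + 1)`, `l 0 = 0`).
With `τ = 1 - Re (conj c φ 0)`: `h = 1 - conj c φ`, `Re h ≥ 0`, `Re (h 0) = τ`, `‖h 0‖ ^ 2 = ‖c - φ 0‖ ^ 2 ≤ 2 τ`; `carath`: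
`‖φ z - c‖ = ‖h z‖ ≤ √(2 τ) + 2 τ / (1 - ‖z‖) ≤ 5 √τ / (1 - ‖z‖)` (`τ ≤ 2`, so `τ ≤ √2 √τ`).
-/

namespace Pool.Agent.MP07129f.TP

open Complex Metric Set Filter Topology

private lemma RotC_cayley {a b : ℂ} (ha : 0 < a.re) (hb : 0 < b.re) :
    a + (starRingEnd ℂ) b ≠ 0 ∧ ‖(a - b) / (a + (starRingEnd ℂ) b)‖ < 1 := by
  have h1 : a + (starRingEnd ℂ) b ≠ 0 := by
    intro h
    have := congrArg Complex.re h
    rw [add_re, conj_re, zero_re] at this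
    linarith
  refine ⟨h1, ?_⟩
  rw [norm_div, div_lt_one (norm_pos_iff.2 h1)]
  have h2 : ‖a - b‖ ^ 2 < ‖a + (starRingEnd ℂ) b‖ ^ 2 := by
    rw [← normSq_eq_norm_sq, ← normSq_eq_norm_sq, normSq_apply, normSq_apply]
    rw [sub_re, sub_im, add_re, add_im, conj_re, conj_im]
    nlinarith [mul_pos ha hb]
  exact lt_of_pow_lt_pow_left₀ 2 (norm_nonneg _) h2

theorem carath {h : ℂ → ℂ} (hd : DifferentiableOn ℂ h (ball 0 1))
    (hre : ∀ z ∈ ball (0 : ℂ) 1, 0 ≤ (h z).re) {z : ℂ} (hz : z ∈ ball (0 : ℂ) 1) :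
    ‖h z - h 0‖ ≤ 2 * (h 0).re / (1 - ‖z‖) := by
  have hz1 : ‖z‖ < 1 := mem_ball_zero_iff.1 hz
  have hz0 := norm_nonneg z
  rw [le_div_iff₀ (by linarith)]
  refine le_of_forall_pos_le_add fun ε hε => ?_
  obtain ⟨k, hk⟩ : ∃ k : ℂ → ℂ, k = fun w => h w + ((ε / 2 : ℝ) : ℂ) := ⟨_, rfl⟩
  have hkd : DifferentiableOn ℂ k (ball 0 1) := by
    rw [hk]
    exact hd.add_const _
  have hkre : ∀ w ∈ ball (0 : ℂ) 1, 0 < (k w).re := by
    intro w hw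
    have h1 := hre w hw
    rw [hk]
    simp only [add_re, ofReal_re]
    linarith
  have hk0 := hkre 0 (mem_ball_self one_pos)
  have hψd : DifferentiableOn ℂ (fun w => (k w - k 0) / (k w + (starRingEnd ℂ) (k 0))) (ball 0 1) :=
    (hkd.sub_const _).div (hkd.add_const _) fun w hw => (RotC_cayley (hkre w hw) hk0).1
  have h1 : ‖(k z - k 0) / (k z + (starRingEnd ℂ) (k 0))‖ ≤ ‖z‖ :=
    norm_le_norm_of_mapsTo_ball hψd
      (fun w hw => mem_closedBall_zero_iff.2 (RotC_cayley (hkre w hw) hk0).2.le) (by simp) hz1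
  have h2 := (RotC_cayley (hkre z hz) hk0).1
  rw [norm_div, div_le_iff₀ (norm_pos_iff.2 h2)] at h1
  have h3 : k z - k 0 = h z - h 0 := by
    rw [hk]
    ring
  have h4 : k z + (starRingEnd ℂ) (k 0) = (k z - k 0) + ((2 * (k 0).re : ℝ) : ℂ) := by
    have h5 := add_conj (k 0)
    linear_combination h5
  have h6 : ‖k z + (starRingEnd ℂ) (k 0)‖ ≤ ‖k z - k 0‖ + 2 * (k 0).re := by
    rw [h4]
    refine (norm_add_le _ _).trans ?_
    rw [norm_real, Real.norm_eq_abs, abs_of_pos (by linarith)]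
  have h7 : (k 0).re = (h 0).re + ε / 2 := by
    rw [hk]
    simp only [add_re, ofReal_re]
  rw [h3] at h1 h6
  rw [h7] at h6
  have h8 := norm_nonneg (h z - h 0)
  have h9 : ‖z‖ * ‖k z + (starRingEnd ℂ) (k 0)‖ ≤ ‖z‖ * (‖h z - h 0‖ + 2 * ((h 0).re + ε / 2)) :=
    mul_le_mul_of_nonneg_left h6 hz0
  have h10 : 0 ≤ (h 0).re := hre 0 (mem_ball_self one_pos)
  have h11 : ‖z‖ * (2 * ((h 0).re + ε / 2)) ≤ 1 * (2 * ((h 0).re + ε / 2)) :=
    mul_le_mul_of_nonneg_right hz1.le (by linarith)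
  nlinarith [h1, h9, h11]

theorem near_rot {l : ℂ → ℂ} (hl : DifferentiableOn ℂ l (ball 0 1)) (hl0 : l 0 = 0)
    (him : ∀ z ∈ ball (0 : ℂ) 1, |(l z).im| < Real.pi / 2) {c : ℂ} (hc : ‖c‖ = 1) {τ : ℝ}
    (hτ : τ = 1 - ((starRingEnd ℂ) c * (deriv l 0 / 2)).re) :
    0 ≤ τ ∧ τ ≤ 2 ∧ ∀ z ∈ ball (0 : ℂ) 1, ‖sch l z - c * z‖ ≤ 5 * √τ / (1 - ‖z‖) * ‖z‖ := by
  have hre : ∀ z ∈ ball (0 : ℂ) 1, 0 < (exp (l z)).re := fun z hz => re_exp_pos (him z hz)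
  have hne : ∀ z ∈ ball (0 : ℂ) 1, exp (l z) + 1 ≠ 0 := by
    intro z hz h0
    have := congrArg Complex.re h0
    rw [add_re, one_re, zero_re] at this
    linarith [hre z hz]
  have hlt : ∀ z ∈ ball (0 : ℂ) 1, ‖sch l z‖ < 1 := fun z hz => norm_cayley_lt (hre z hz)
  have hsd : DifferentiableOn ℂ (sch l) (ball 0 1) :=
    (hl.cexp.sub_const 1).div (hl.cexp.add_const 1) hne
  have h0 : sch l 0 = 0 := by simp [sch, hl0]
  have hmem : (0 : ℂ) ∈ ball (0 : ℂ) 1 := mem_ball_self one_pos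
  obtain ⟨φ, hφ⟩ : ∃ φ : ℂ → ℂ, φ = dslope (sch l) 0 := ⟨_, rfl⟩
  have hφd : DifferentiableOn ℂ φ (ball 0 1) := by
    rw [hφ]
    exact (differentiableOn_dslope (isOpen_ball.mem_nhds hmem)).2 hsd
  have hφ1 : ∀ z ∈ ball (0 : ℂ) 1, ‖φ z‖ ≤ 1 := by
    intro z hz
    have h1 := norm_dslope_le_div_of_mapsTo_ball (R₂ := 1) hsd
      (fun w hw => by rw [h0]; exact mem_closedBall_zero_iff.2 (hlt w hw).le) hz
    rw [hφ]
    simpa using h1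
  have hφz : ∀ z, sch l z = z * φ z := by
    intro z
    have h1 := sub_smul_dslope (sch l) 0 z
    rw [h0, sub_zero, sub_zero, smul_eq_mul] at h1
    rw [hφ]
    exact h1.symm
  have hder : HasDerivAt (sch l) (deriv l 0 / 2) 0 := by
    have h1 : HasDerivAt l (deriv l 0) 0 := (hl.differentiableAt (isOpen_ball.mem_nhds hmem)).hasDerivAt
    have h2 := (h1.cexp.sub_const 1).div (h1.cexp.add_const 1) (hne 0 hmem)
    have h3 : (exp (l 0) * deriv l 0 * (exp (l 0) + 1) - (exp (l 0) - 1) * (exp (l 0) * deriv l 0)) /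
        (exp (l 0) + 1) ^ 2 = deriv l 0 / 2 := by
      rw [hl0, exp_zero]
      ring
    rw [← h3]
    exact h2
  have hφ0 : φ 0 = deriv l 0 / 2 := by
    rw [hφ, dslope_same]
    exact hder.deriv
  rw [← hφ0] at hτ
  obtain ⟨h, hh⟩ : ∃ h : ℂ → ℂ, h = fun z => 1 - (starRingEnd ℂ) c * φ z := ⟨_, rfl⟩
  have hhd : DifferentiableOn ℂ h (ball 0 1) := by
    rw [hh]
    exact (hφd.const_mul _).const_sub _
  have hcn : ∀ z ∈ ball (0 : ℂ) 1, ‖(starRingEnd ℂ) c * φ z‖ ≤ 1 := by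
    intro z hz
    rw [norm_mul, RCLike.norm_conj, hc, one_mul]
    exact hφ1 z hz
  have hhre : ∀ z ∈ ball (0 : ℂ) 1, 0 ≤ (h z).re := by
    intro z hz
    have h1 := (abs_le.1 ((abs_re_le_norm _).trans (hcn z hz))).2
    rw [hh]
    simp only [sub_re, one_re]
    linarith
  have hτh : (h 0).re = τ := by
    rw [hτ, hh]
    simp only [sub_re, one_re]
  have hτ0 : 0 ≤ τ := by
    rw [← hτh]
    exact hhre 0 hmem
  have hτ2 : τ ≤ 2 := by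
    have h1 := (abs_le.1 ((abs_re_le_norm _).trans (hcn 0 hmem))).1
    rw [hτ]
    linarith
  refine ⟨hτ0, hτ2, fun z hz => ?_⟩
  have hz1 : ‖z‖ < 1 := mem_ball_zero_iff.1 hz
  have hz0 := norm_nonneg z
  have hs0 := Real.sqrt_nonneg τ
  have hss : √τ * √τ = τ := Real.mul_self_sqrt hτ0
  have hh0 : ‖h 0‖ ^ 2 ≤ 2 * τ := by
    have h1 := hcn 0 hmem
    have h2 : ‖(starRingEnd ℂ) c * φ 0‖ ^ 2 ≤ 1 := by
      nlinarith [norm_nonneg ((starRingEnd ℂ) c * φ 0)]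
    rw [← normSq_eq_norm_sq, normSq_apply] at h2
    rw [hτ, hh, ← normSq_eq_norm_sq, normSq_apply]
    simp only [sub_re, sub_im, one_re, one_im]
    nlinarith
  have hs2 : √τ ≤ 3 / 2 := by
    rw [Real.sqrt_le_left (by norm_num)]
    linarith
  have hh0' : ‖h 0‖ ≤ 3 / 2 * √τ := by
    refine (pow_le_pow_iff_left₀ (norm_nonneg _) (by positivity) (two_ne_zero)).1 ?_
    nlinarith
  have hcar := carath hhd hhre hz
  rw [hτh] at hcar
  have h1z : 0 < 1 - ‖z‖ := by linarith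
  have hhz : ‖h z‖ ≤ 5 * √τ / (1 - ‖z‖) := by
    have h1 : ‖h z‖ ≤ ‖h z - h 0‖ + ‖h 0‖ := by
      have := norm_add_le (h z - h 0) (h 0)
      rwa [sub_add_cancel] at this
    have h2 : ‖h 0‖ ≤ 3 / 2 * √τ / (1 - ‖z‖) := by
      rw [le_div_iff₀ h1z]
      nlinarith [norm_nonneg (h 0)]
    calc ‖h z‖ ≤ 2 * τ / (1 - ‖z‖) + 3 / 2 * √τ / (1 - ‖z‖) := h1.trans (add_le_add hcar h2)
      _ = (2 * τ + 3 / 2 * √τ) / (1 - ‖z‖) := by ring
      _ ≤ 5 * √τ / (1 - ‖z‖) := by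
        apply div_le_div_of_nonneg_right _ h1z.le
        nlinarith
  have hcc : c * (starRingEnd ℂ) c = 1 := by
    rw [mul_conj, normSq_eq_norm_sq, hc]
    norm_num
  have hfin : sch l z - c * z = -(c * z) * h z := by
    rw [hφz z, hh]
    linear_combination (-(z * φ z)) * hcc
  rw [hfin, norm_mul, norm_neg, norm_mul, hc, one_mul, mul_comm]
  exact mul_le_mul_of_nonneg_right hhz hz0

end Pool.Agent.MP07129f.TP
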