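import Pool.Agent.Lib.MP_07129f_an.TP.RotC

/-!
TP-RotD: stability at the rotations.

PROOF.  `l z = log (1 + ω) - log (1 - ω)`, `ω = sch l z`, `‖ω‖ ≤ ‖z‖` (see `Dat.norm_l_le` in `Dat.lean`, `h1`, `h2` there).  The same for `l'`, where
`sch l' z = c z` (`hl'`).  Let `‖z‖ ≤ r < 1`.
(1) `‖l z - l' z‖ ≤ (2 / (1 - r ^ 2)) ‖sch l z - c z‖` (the derivative of `log (1 + w) - log (1 - w)` is `2 / (1 - w ^ 2)`, on the convex set
`closedBall 0 r`: `Convex.norm_image_sub_le_of_norm_hasDerivWithin_le`), so by `near_rot` `‖l z - l' z‖ ≤ C₁ √τ ‖z‖`.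
(2) `‖exp (α l z) - exp (α l' z)‖ ≤ C₂ √τ ‖z‖` (`‖α l‖`, `‖α l'‖` are bounded by `Dat.norm_l_le`; `‖e^u - e^v‖ ≤ e^M ‖u - v‖` for `‖u‖, ‖v‖ ≤ M`).
(3) `R = P - P'`: `z R' (z) = exp (α l z) - exp (α l' z)`, so `‖R' (z)‖ ≤ C₂ √τ` for `0 < ‖z‖ ≤ r`, and for `z = 0` by continuity (`R'` is analytic);
`R 0 = 0`, so `‖R z‖ ≤ C₂ √τ`.
(4) `F z - F' z = z (e^(P z) - e^(P' z)) = z e^(P' z) (e^(R z) - 1)`, `‖e^R - 1‖ ≤ ‖R‖ e^‖R‖`, `‖R‖ ≤ C₂ √2`, and `e^(P')` is bounded on `closedBall 0 r` (continuity; it does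
not depend on `F`).
-/

namespace Pool.Agent.MP07129f.TP

open Complex Metric Set Filter Topology

/-- the exponential function is Lipschitz on a disc -/
private lemma rotD_exp {M : ℝ} {u v : ℂ} (hu : ‖u‖ ≤ M) (hv : ‖v‖ ≤ M) :
    ‖exp u - exp v‖ ≤ Real.exp M * ‖u - v‖ := by
  refine Convex.norm_image_sub_le_of_norm_hasDerivWithin_le (f := exp) (f' := exp)
    (s := closedBall (0 : ℂ) M) (fun w _ => (hasDerivAt_exp w).hasDerivWithinAt) ?_
    (convex_closedBall _ _) (mem_closedBall_zero_iff.2 hv) (mem_closedBall_zero_iff.2 hu)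
  intro w hw
  rw [norm_exp]
  exact Real.exp_le_exp.2 ((re_le_norm w).trans (mem_closedBall_zero_iff.1 hw))

/-- the function `log (1 + w) - log (1 - w)` is Lipschitz on a disc of radius less than one -/
private lemma rotD_log {r : ℝ} (hr1 : r < 1) {a b : ℂ} (ha : ‖a‖ ≤ r) (hb : ‖b‖ ≤ r) :
    ‖(log (1 + a) - log (1 - a)) - (log (1 + b) - log (1 - b))‖ ≤ 2 / (1 - r) * ‖a - b‖ := by
  have h1r : 0 < 1 - r := by linarith
  refine Convex.norm_image_sub_le_of_norm_hasDerivWithin_le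
    (f := fun w : ℂ => log (1 + w) - log (1 - w)) (f' := fun w => 1 / (1 + w) - (-1) / (1 - w))
    (s := closedBall (0 : ℂ) r) ?_ ?_ (convex_closedBall _ _) (mem_closedBall_zero_iff.2 hb)
    (mem_closedBall_zero_iff.2 ha)
  · intro w hw
    have hw' := mem_closedBall_zero_iff.1 hw
    have hre := abs_le.1 ((abs_re_le_norm w).trans hw')
    have h1 : 1 + w ∈ slitPlane := Or.inl (by rw [add_re, one_re]; linarith)
    have h2 : 1 - w ∈ slitPlane := Or.inl (by rw [sub_re, one_re]; linarith)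
    have d1 : HasDerivAt (fun w : ℂ => 1 + w) 1 w := (hasDerivAt_id w).const_add 1
    have d2 : HasDerivAt (fun w : ℂ => 1 - w) (-1) w := (hasDerivAt_id w).const_sub 1
    exact ((d1.clog h1).sub (d2.clog h2)).hasDerivWithinAt
  · intro w hw
    have hw' := mem_closedBall_zero_iff.1 hw
    have h1 : 1 - r ≤ ‖1 + w‖ := by
      have h3 : ‖(1 : ℂ)‖ ≤ ‖1 + w‖ + ‖w‖ := by
        calc ‖(1 : ℂ)‖ = ‖(1 + w) - w‖ := by ring_nf
          _ ≤ ‖1 + w‖ + ‖w‖ := norm_sub_le _ _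
      rw [norm_one] at h3
      linarith
    have h2 : 1 - r ≤ ‖1 - w‖ := by
      have h3 : ‖(1 : ℂ)‖ ≤ ‖1 - w‖ + ‖w‖ := by
        calc ‖(1 : ℂ)‖ = ‖(1 - w) + w‖ := by ring_nf
          _ ≤ ‖1 - w‖ + ‖w‖ := norm_add_le _ _
      rw [norm_one] at h3
      linarith
    refine (norm_sub_le _ _).trans ?_
    rw [norm_div, norm_div, norm_neg, norm_one]
    have h3 : 1 / ‖1 + w‖ ≤ 1 / (1 - r) := one_div_le_one_div_of_le h1r h1
    have h4 : 1 / ‖1 - w‖ ≤ 1 / (1 - r) := one_div_le_one_div_of_le h1r h2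
    have h5 : 2 / (1 - r) = 1 / (1 - r) + 1 / (1 - r) := by ring
    linarith

/-- the Schwarz function -/
private lemma rotD_sch {α : ℝ} {F l P : ℂ → ℂ} (h : Dat α F l P) {z : ℂ}
    (hz : z ∈ ball (0 : ℂ) 1) :
    ‖sch l z‖ ≤ ‖z‖ ∧ l z = log (1 + sch l z) - log (1 - sch l z) := by
  have hre : ∀ z ∈ ball (0 : ℂ) 1, 0 < (exp (l z)).re := fun z hz => re_exp_pos (h.im_lt z hz)
  have hne : ∀ z ∈ ball (0 : ℂ) 1, exp (l z) + 1 ≠ 0 := by
    intro z hz h0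
    have := congrArg Complex.re h0
    rw [add_re, one_re, zero_re] at this
    linarith [hre z hz]
  have hlt : ∀ z ∈ ball (0 : ℂ) 1, ‖sch l z‖ < 1 := fun z hz => norm_cayley_lt (hre z hz)
  have hsd : DifferentiableOn ℂ (sch l) (ball 0 1) :=
    (h.l_diff.cexp.sub_const 1).div (h.l_diff.cexp.add_const 1) hne
  have h0 : sch l 0 = 0 := by simp [sch, h.l_zero]
  have hz' := mem_ball_zero_iff.1 hz
  have h1 : ‖sch l z‖ ≤ ‖z‖ := norm_le_norm_of_mapsTo_ball hsd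
    (fun w hw => mem_closedBall_zero_iff.2 (hlt w hw).le) h0 hz'
  have hs := hlt z hz
  refine ⟨h1, ?_⟩
  have ha : 0 < (1 + sch l z).re := by
    rw [add_re, one_re]
    have := (abs_re_le_norm (sch l z)).trans_lt hs
    rw [abs_lt] at this
    linarith
  have hb : 0 < (1 - sch l z).re := by
    rw [sub_re, one_re]
    have := (abs_re_le_norm (sch l z)).trans_lt hs
    rw [abs_lt] at this
    linarith
  have ha0 : 1 + sch l z ≠ 0 := by
    intro h; rw [h] at ha; simp at ha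
  have hb0 : 1 - sch l z ≠ 0 := by
    intro h; rw [h] at hb; simp at hb
  have ha1 : |(log (1 + sch l z)).im| < Real.pi / 2 := by
    rw [log_im]; exact abs_arg_lt_pi_div_two_iff.2 (Or.inl ha)
  have hb1 : |(log (1 - sch l z)).im| < Real.pi / 2 := by
    rw [log_im]; exact abs_arg_lt_pi_div_two_iff.2 (Or.inl hb)
  have hc := abs_lt.1 (h.im_lt z hz)
  rw [abs_lt] at ha1 hb1
  apply exp_inj_of_neg_pi_lt_of_le_pi
  · linarith
  · linarith
  · rw [sub_im]; linarith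
  · rw [sub_im]; linarith
  · rw [exp_sub, exp_log ha0, exp_log hb0]
    have := hne z hz
    rw [eq_div_iff hb0]
    unfold sch
    field_simp
    ring

theorem stab_rot {α : ℝ} (hα : 0 < α) (hα1 : α < 1) {c : ℂ} (hc : ‖c‖ = 1) {F' l' P' : ℂ → ℂ}
    (h' : Dat α F' l' P') (hl' : ∀ z ∈ ball (0 : ℂ) 1, exp (l' z) = (1 + c * z) / (1 - c * z))
    {r : ℝ} (hr : 0 < r) (hr1 : r < 1) : ∃ C : ℝ, 0 ≤ C ∧ ∀ F l P : ℂ → ℂ, Dat α F l P →
      ∀ τ : ℝ, τ = 1 - ((starRingEnd ℂ) c * (deriv l 0 / 2)).re →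
      ∀ z : ℂ, ‖z‖ ≤ r → ‖F z - F' z‖ ≤ C * √τ := by
  have h1r : 0 < 1 - r := by linarith
  obtain ⟨M, hM⟩ : ∃ M : ℝ, M = Real.log (1 + r) - Real.log (1 - r) := ⟨_, rfl⟩
  obtain ⟨C₂, hC₂⟩ : ∃ C₂ : ℝ, C₂ = Real.exp M * (10 / (1 - r) ^ 2) := ⟨_, rfl⟩
  have hC₂0 : 0 ≤ C₂ := by
    rw [hC₂]
    positivity
  have hsub : closedBall (0 : ℂ) r ⊆ ball (0 : ℂ) 1 := closedBall_subset_ball hr1
  obtain ⟨B, hB⟩ : ∃ B : ℝ, ∀ z ∈ closedBall (0 : ℂ) r, ‖P' z‖ ≤ B :=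
    (isCompact_closedBall (0 : ℂ) r).exists_bound_of_continuousOn (h'.P_diff.continuousOn.mono hsub)
  have hB0 : 0 ≤ B := (norm_nonneg _).trans (hB 0 (mem_closedBall_self hr.le))
  refine ⟨Real.exp (B + C₂ * √2) * C₂, mul_nonneg (Real.exp_pos _).le hC₂0, ?_⟩
  intro F l P h τ hτ z hz
  obtain ⟨hτ0, hτ2, hnear⟩ := near_rot h.l_diff h.l_zero h.im_lt hc hτ
  have hsτ : 0 ≤ √τ := Real.sqrt_nonneg _
  have hball : ∀ w : ℂ, ‖w‖ ≤ r → w ∈ ball (0 : ℂ) 1 := fun w hw =>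
    mem_ball_zero_iff.2 (lt_of_le_of_lt hw hr1)
  -- the norms of `l`
  have hlM : ∀ {G m Q : ℂ → ℂ}, Dat α G m Q → ∀ w : ℂ, ‖w‖ ≤ r → ‖(α : ℂ) * m w‖ ≤ M := by
    intro G m Q hG w hw
    have h2 := hG.norm_l_le (hball w hw)
    have h3 : Real.log (1 + ‖w‖) ≤ Real.log (1 + r) :=
      Real.log_le_log (by have := norm_nonneg w; linarith) (by linarith)
    have h4 : Real.log (1 - r) ≤ Real.log (1 - ‖w‖) := Real.log_le_log h1r (by linarith)
    rw [norm_mul, norm_real, Real.norm_eq_abs, abs_of_pos hα, hM]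
    have h5 : ‖m w‖ ≤ Real.log (1 + r) - Real.log (1 - r) := by linarith
    have h6 := norm_nonneg (m w)
    nlinarith
  -- the Schwarz function of `l'`
  have hsch' : ∀ w ∈ ball (0 : ℂ) 1, sch l' w = c * w := by
    intro w hw
    have hcw : ‖c * w‖ < 1 := by
      rw [norm_mul, hc, one_mul]
      exact mem_ball_zero_iff.1 hw
    have h2 : 1 - c * w ≠ 0 := by
      intro h3
      have h4 : c * w = 1 := by linear_combination -h3
      rw [h4, norm_one] at hcw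
      exact lt_irrefl _ hcw
    unfold sch
    rw [hl' w hw]
    field_simp
    ring
  -- (1)
  have step1 : ∀ w : ℂ, ‖w‖ ≤ r → ‖l w - l' w‖ ≤ 10 / (1 - r) ^ 2 * √τ * ‖w‖ := by
    intro w hw
    obtain ⟨ha, hb⟩ := rotD_sch h (hball w hw)
    obtain ⟨ha', hb'⟩ := rotD_sch h' (hball w hw)
    rw [hb, hb']
    refine (rotD_log hr1 (ha.trans hw) (ha'.trans hw)).trans ?_
    rw [hsch' w (hball w hw)]
    have h2 := hnear w (hball w hw)
    have h3 : 5 * √τ / (1 - ‖w‖) ≤ 5 * √τ / (1 - r) :=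
      div_le_div_of_nonneg_left (by positivity) h1r (by linarith)
    calc 2 / (1 - r) * ‖sch l w - c * w‖ ≤ 2 / (1 - r) * (5 * √τ / (1 - r) * ‖w‖) := by
          apply mul_le_mul_of_nonneg_left _ (by positivity)
          exact h2.trans (mul_le_mul_of_nonneg_right h3 (norm_nonneg _))
      _ = 10 / (1 - r) ^ 2 * √τ * ‖w‖ := by
          field_simp
          ring
  -- (2)
  have step2 : ∀ w : ℂ, ‖w‖ ≤ r → ‖exp (α * l w) - exp (α * l' w)‖ ≤ C₂ * √τ * ‖w‖ := by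
    intro w hw
    refine (rotD_exp (hlM h w hw) (hlM h' w hw)).trans ?_
    have h2 : ‖(α : ℂ) * l w - α * l' w‖ ≤ 10 / (1 - r) ^ 2 * √τ * ‖w‖ := by
      rw [← mul_sub, norm_mul, norm_real, Real.norm_eq_abs, abs_of_pos hα]
      have h3 := step1 w hw
      have h4 := norm_nonneg (l w - l' w)
      nlinarith
    calc Real.exp M * ‖(α : ℂ) * l w - α * l' w‖ ≤ Real.exp M * (10 / (1 - r) ^ 2 * √τ * ‖w‖) :=
          mul_le_mul_of_nonneg_left h2 (Real.exp_pos _).le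
      _ = C₂ * √τ * ‖w‖ := by
          rw [hC₂]
          ring
  -- (3)
  have hder : ∀ w ∈ ball (0 : ℂ) 1, HasDerivAt (fun z => P z - P' z) (deriv P w - deriv P' w) w := by
    intro w hw
    exact ((h.P_diff.differentiableAt (ball_nhds hw)).hasDerivAt).sub
      ((h'.P_diff.differentiableAt (ball_nhds hw)).hasDerivAt)
  have step3 : ∀ w : ℂ, ‖w‖ ≤ r → w ≠ 0 → ‖deriv P w - deriv P' w‖ ≤ C₂ * √τ := by
    intro w hw hw0
    have h2 := step2 w hw
    have h3 : exp (α * l w) - exp (α * l' w) = w * (deriv P w - deriv P' w) := by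
      have h4 := h.eq w (hball w hw)
      have h5 := h'.eq w (hball w hw)
      linear_combination h5 - h4
    rw [h3, norm_mul, mul_comm ‖w‖] at h2
    exact le_of_mul_le_mul_right h2 (norm_pos_iff.2 hw0)
  have step3' : ∀ w : ℂ, ‖w‖ ≤ r → ‖deriv P w - deriv P' w‖ ≤ C₂ * √τ := by
    intro w hw
    by_cases hw0 : w = 0
    · subst hw0
      have hcont : ContinuousAt (fun z => ‖deriv P z - deriv P' z‖) 0 := by
        have h2 : ContinuousOn (deriv P) (ball 0 1) := (h.P_diff.deriv isOpen_ball).continuousOn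
        have h3 : ContinuousOn (deriv P') (ball 0 1) := (h'.P_diff.deriv isOpen_ball).continuousOn
        exact ((h2.sub h3).norm).continuousAt (ball_nhds zero_mem_D)
      have htend : Tendsto (fun z => ‖deriv P z - deriv P' z‖) (𝓝[≠] 0)
          (𝓝 ‖deriv P 0 - deriv P' 0‖) := hcont.tendsto.mono_left nhdsWithin_le_nhds
      refine le_of_tendsto htend ?_
      have h4 : ∀ᶠ z in 𝓝[≠] (0 : ℂ), z ∈ closedBall (0 : ℂ) r :=
        nhdsWithin_le_nhds (closedBall_mem_nhds 0 hr)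
      filter_upwards [h4, self_mem_nhdsWithin] with z hz1 hz2
      exact step3 z (mem_closedBall_zero_iff.1 hz1) hz2
    · exact step3 w hw hw0
  have hR : ‖P z - P' z‖ ≤ C₂ * √τ := by
    have h2 := Convex.norm_image_sub_le_of_norm_hasDerivWithin_le (f := fun z => P z - P' z)
      (f' := fun w => deriv P w - deriv P' w) (s := closedBall (0 : ℂ) r) (x := 0) (y := z)
      (C := C₂ * √τ) (fun w hw => (hder w (hsub hw)).hasDerivWithinAt)
      (fun w hw => step3' w (mem_closedBall_zero_iff.1 hw)) (convex_closedBall _ _)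
      (mem_closedBall_self hr.le) (mem_closedBall_zero_iff.2 hz)
    simp only [h.P_zero, h'.P_zero, sub_zero] at h2
    have h3 : 0 ≤ C₂ * √τ := mul_nonneg hC₂0 hsτ
    have h4 := norm_nonneg z
    nlinarith
  -- (4)
  have hP' := hB z (mem_closedBall_zero_iff.2 hz)
  have hR2 : ‖P z - P' z‖ ≤ C₂ * √2 :=
    hR.trans (mul_le_mul_of_nonneg_left (Real.sqrt_le_sqrt hτ2) hC₂0)
  have hPn : ‖P z‖ ≤ B + C₂ * √2 := by
    calc ‖P z‖ = ‖P' z + (P z - P' z)‖ := by ring_nf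
      _ ≤ ‖P' z‖ + ‖P z - P' z‖ := norm_add_le _ _
      _ ≤ B + C₂ * √2 := add_le_add hP' hR2
  have hP'n : ‖P' z‖ ≤ B + C₂ * √2 := by
    have : 0 ≤ C₂ * √2 := by positivity
    linarith
  rw [h.F_eq z (hball z hz), h'.F_eq z (hball z hz), ← mul_sub, norm_mul]
  have h5 := rotD_exp hPn hP'n
  have h6 : ‖exp (P z) - exp (P' z)‖ ≤ Real.exp (B + C₂ * √2) * (C₂ * √τ) :=
    h5.trans (mul_le_mul_of_nonneg_left hR (Real.exp_pos _).le)
  have h7 : ‖z‖ ≤ 1 := hz.trans hr1.le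
  calc ‖z‖ * ‖exp (P z) - exp (P' z)‖ ≤ 1 * (Real.exp (B + C₂ * √2) * (C₂ * √τ)) :=
        mul_le_mul h7 h6 (norm_nonneg _) zero_le_one
    _ = Real.exp (B + C₂ * √2) * C₂ * √τ := by ring

end Pool.Agent.MP07129f.TP
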