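import Pool.Agent.Lib.MP_07129f_an.TP.RotA
import Pool.Agent.Lib.MP_07129f_an.TP.RotB
import Pool.Agent.Lib.MP_07129f_an.TP.RotD

/-!
TP-RotE: the function generated by a rotation is an extreme point for all `α`.
-/

namespace Pool.Agent.MP07129f.TP

open Complex Metric Set Filter Topology

/-- the derivative of `l` at `0` for a rotation -/
theorem deriv_l_rot {l : ℂ → ℂ} (hl : DifferentiableOn ℂ l (ball 0 1)) (hl0 : l 0 = 0) {c : ℂ}
    (hexp : ∀ z ∈ ball (0 : ℂ) 1, exp (l z) = (1 + c * z) / (1 - c * z)) : deriv l 0 = 2 * c := by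
  have h1 : HasDerivAt l (deriv l 0) 0 := (hl.differentiableAt (ball_nhds zero_mem_D)).hasDerivAt
  have h2 : HasDerivAt (fun z => exp (l z)) (exp (l 0) * deriv l 0) 0 := h1.cexp
  rw [hl0, exp_zero, one_mul] at h2
  have h3 : HasDerivAt (fun z : ℂ => (1 + c * z) / (1 - c * z)) (2 * c) 0 := by
    have e1 : HasDerivAt (fun z : ℂ => 1 + c * z) c 0 := by
      simpa using ((hasDerivAt_id (0 : ℂ)).const_mul c).const_add 1
    have e2 : HasDerivAt (fun z : ℂ => 1 - c * z) (-c) 0 := by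
      simpa using ((hasDerivAt_id (0 : ℂ)).const_mul c).const_sub 1
    refine (e1.div e2 (by simp)).congr_deriv ?_
    rw [mul_zero, sub_zero, add_zero]
    ring
  have h4 : HasDerivAt (fun z => exp (l z)) (2 * c) 0 := by
    refine h3.congr_of_eventuallyEq ?_
    filter_upwards [ball_nhds zero_mem_D] with z hz using hexp z hz
  exact h2.unique h4

theorem rot_extreme {α : ℝ} (hα : 0 < α) (hα1 : α < 1) {c : ℂ} (hc : ‖c‖ = 1)
    {f : C(ball (0 : ℂ) 1, ℂ)} (hf : f ∈ SStar α) (hg : Gen α (fun z => c * z) f) :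
    f ∈ (closure (convexHull ℝ (SStar α))).extremePoints ℝ := by
  have hω : IsSchwarz (fun z => c * z) := by
    refine ⟨(differentiable_id.const_mul c).differentiableOn, by simp, fun z hz => ?_⟩
    rw [norm_mul, hc, one_mul]
    simpa using hz
  obtain ⟨F, l, P, hfF, hd, hl⟩ := exists_dat_gen hα hα1 hf hω hg
  have hl' : ∀ z ∈ ball (0 : ℂ) 1, exp (l z) = (1 + c * z) / (1 - c * z) := hl
  have hval : Lam c f = 2 * α := by
    rw [Lam_val hd hfF, deriv_l_rot hd.l_diff hd.l_zero hl']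
    have e : (starRingEnd ℂ) c * (α * (2 * c)) = ((2 * α : ℝ) : ℂ) * (c * (starRingEnd ℂ) c) := by
      push_cast
      ring
    rw [e, mul_conj, normSq_eq_norm_sq, hc]
    simp
  -- data of the members
  have hdat : ∀ g ∈ SStar α, ∃ G l' P' : ℂ → ℂ, (∀ z : ball (0 : ℂ) 1, g z = G z) ∧
      Dat α G l' P' := by
    rintro g ⟨G, hgG, hG, hinj, hG0, hG1, hq⟩
    obtain ⟨l', P', hd'⟩ := exists_dat hα hG hinj hG0 hG1 hq
    exact ⟨G, l', P', hgG, hd'⟩
  have hgap : ∀ g ∈ SStar α, ∀ G l' P' : ℂ → ℂ, (∀ z : ball (0 : ℂ) 1, g z = G z) → Dat α G l' P' →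
      Lam c f - Lam c g = 2 * α * (1 - ((starRingEnd ℂ) c * (deriv l' 0 / 2)).re) := by
    intro g _ G l' P' hgG hd'
    rw [hval, Lam_val hd' hgG]
    have e : (starRingEnd ℂ) c * (α * deriv l' 0) =
        ((2 * α : ℝ) : ℂ) * ((starRingEnd ℂ) c * (deriv l' 0 / 2)) := by
      push_cast
      ring
    rw [e, re_ofReal_mul]
    ring
  refine extreme_of_functional hf (Λ := Lam c) (Lam_add c) (Lam_smul c) (Lam_cont c) ?_ ?_
  · intro g hgS
    obtain ⟨G, l', P', hgG, hd'⟩ := hdat g hgS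
    have h1 := hgap g hgS G l' P' hgG hd'
    have h2 := (near_rot hd'.l_diff hd'.l_zero hd'.im_lt hc rfl).1
    nlinarith
  · intro z₀ ε hε
    have hz₀ : ‖(z₀ : ℂ)‖ < 1 := mem_ball_zero_iff.1 z₀.2
    obtain ⟨r, hr1, hr2⟩ := exists_between (max_lt hz₀ one_pos)
    have hr0 : 0 < r := lt_of_le_of_lt (le_max_right _ _) hr1
    have hzr : ‖(z₀ : ℂ)‖ ≤ r := ((le_max_left _ _).trans_lt hr1).le
    obtain ⟨C, hC, hst⟩ := stab_rot hα hα1 hc hd hl' hr0 hr2
    refine ⟨C ^ 2 / (4 * ε) / (2 * α), by positivity, fun g hgS => ?_⟩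
    obtain ⟨G, l', P', hgG, hd'⟩ := hdat g hgS
    obtain ⟨τ, hτ⟩ : ∃ τ : ℝ, τ = 1 - ((starRingEnd ℂ) c * (deriv l' 0 / 2)).re := ⟨_, rfl⟩
    have h1 := hgap g hgS G l' P' hgG hd'
    rw [← hτ] at h1
    have h2 := near_rot hd'.l_diff hd'.l_zero hd'.im_lt hc hτ
    have h3 := hst G l' P' hd' τ hτ z₀ hzr
    rw [h1, hgG z₀, hfF z₀]
    refine h3.trans ?_
    have h4 : C ^ 2 / (4 * ε) / (2 * α) * (2 * α * τ) = C ^ 2 * τ / (4 * ε) := by
      field_simp
    rw [h4]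
    have h5 : √τ ^ 2 = τ := Real.sq_sqrt h2.1
    have h6 : C * √τ - ε ≤ C ^ 2 * τ / (4 * ε) := by
      rw [le_div_iff₀ (by positivity)]
      have h7 : C ^ 2 * τ = (C * √τ) ^ 2 := by rw [mul_pow, h5]
      rw [h7]
      nlinarith [sq_nonneg (C * √τ - 2 * ε)]
    linarith

end Pool.Agent.MP07129f.TP
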