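import Pool.Agent.Lib.MP_07129f_an.TP.BdyV
import Pool.Agent.Lib.MP_07129f_an.TP.Help
import Pool.Agent.Lib.MP_07129f_an.TP.LocB
import Pool.Agent.Lib.MP_07129f_an.TP.PL

/-!
TP-Sect: the perturbed functions have values in the sector.
-/

namespace Pool.Agent.MP07129f.TP

open Complex Metric Set Filter Topology

/-- `Im (e ^ (i a) V) ≥ 0` gives `Im (e ^ (- i a) V) ≤ ‖V‖ sin (δ π)` -/
theorem rot_le {δ a : ℝ} (hδ : 0 < δ) (hδ1 : δ ≤ 1 / 4) (ha : a = (1 - δ) * Real.pi / 2) {V : ℂ}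
    (hV : 0 ≤ (exp (a * I) * V).im) : (exp (-(a * I)) * V).im ≤ ‖V‖ * Real.sin (δ * Real.pi) := by
  have hpi := Real.pi_pos
  have e1 : exp (-(a * I)) * V = -(exp ((δ * Real.pi : ℝ) * I) * (exp (a * I) * V)) := by
    rw [← mul_assoc, ← exp_add]
    have e2 : ((δ * Real.pi : ℝ) : ℂ) * I + a * I = Real.pi * I + -(a * I) := by
      rw [ha]
      push_cast
      ring
    rw [e2, exp_add, exp_pi_mul_I]
    ring
  have e3 : (exp ((δ * Real.pi : ℝ) * I)).re = Real.cos (δ * Real.pi) := exp_ofReal_mul_I_re _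
  have e4 : (exp ((δ * Real.pi : ℝ) * I)).im = Real.sin (δ * Real.pi) := exp_ofReal_mul_I_im _
  rw [e1, neg_im, mul_im, e3, e4]
  have hc : 0 ≤ Real.cos (δ * Real.pi) := by
    apply Real.cos_nonneg_of_mem_Icc
    constructor
    · nlinarith
    · nlinarith
  have hs : 0 ≤ Real.sin (δ * Real.pi) := by
    apply Real.sin_nonneg_of_nonneg_of_le_pi
    · positivity
    · nlinarith
  have hn : ‖exp (a * I) * V‖ = ‖V‖ := by
    rw [norm_mul, norm_exp_ofReal_mul_I, one_mul]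
  have hre := (abs_le.1 ((abs_re_le_norm (exp (a * I) * V)).trans hn.le)).1
  nlinarith [mul_nonneg hc hV, mul_le_mul_of_nonneg_left hre hs]

/-- `Im (e ^ (- i a) V) ≤ 0` gives `- Im (e ^ (i a) V) ≤ ‖V‖ sin (δ π)` -/
theorem rot_le' {δ a : ℝ} (hδ : 0 < δ) (hδ1 : δ ≤ 1 / 4) (ha : a = (1 - δ) * Real.pi / 2) {V : ℂ}
    (hV : (exp (-(a * I)) * V).im ≤ 0) :
    -(exp (a * I) * V).im ≤ ‖V‖ * Real.sin (δ * Real.pi) := by
  have h1 : (exp (a * I) * (starRingEnd ℂ) V) = (starRingEnd ℂ) (exp (-(a * I)) * V) := by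
    rw [map_mul, ← exp_conj]
    congr 2
    simp
  have h2 : (exp (-(a * I)) * (starRingEnd ℂ) V) = (starRingEnd ℂ) (exp (a * I) * V) := by
    rw [map_mul, ← exp_conj]
    congr 2
    simp
  have h3 := rot_le hδ hδ1 ha (V := (starRingEnd ℂ) V) (by rw [h1, conj_im]; linarith)
  rw [h2, conj_im, RCLike.norm_conj] at h3
  exact h3

/-- `Q` is in the closed sector -/
theorem Q_sector {ω l : ℂ → ℂ} (hL : Lg ω l) {α a : ℝ} (hα : 0 < α) (hα1 : α < 1)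
    (ha : a = α * Real.pi / 2) {z : ℂ} (hz : z ∈ ball (0 : ℂ) 1) :
    (exp (-(a * I)) * exp (α * l z)).im ≤ 0 ∧ 0 ≤ (exp (a * I) * exp (α * l z)).im := by
  have hpi := Real.pi_pos
  have h1 := abs_lt.1 (hL.im_lt z hz)
  have e0 : ((α : ℂ) * l z).im = α * (l z).im := by simp
  constructor
  · rw [← exp_add, exp_im]
    have e1 : (-(a * I) + (α : ℂ) * l z).im = -a + α * (l z).im := by
      rw [add_im, e0]; simp
    rw [e1]
    apply mul_nonpos_of_nonneg_of_nonpos (Real.exp_pos _).le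
    apply Real.sin_nonpos_of_nonpos_of_neg_pi_le
    · nlinarith
    · nlinarith
  · rw [← exp_add, exp_im]
    have e1 : (a * I + (α : ℂ) * l z).im = a + α * (l z).im := by
      rw [add_im, e0]; simp
    rw [e1]
    apply mul_nonneg (Real.exp_pos _).le
    apply Real.sin_nonneg_of_nonneg_of_le_pi
    · nlinarith
    · nlinarith

/-- adding a limit -/
theorem ev_add {Q V : ℂ → ℂ} {ζ e : ℂ} {B : ℝ} (hV : ContinuousAt V ζ) (hB : (e * V ζ).im ≤ B)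
    (hQ : ∀ κ > 0, ∀ᶠ z in 𝓝[ball (0 : ℂ) 1] ζ, (e * Q z).im ≤ -B + κ) :
    ∀ κ > 0, ∀ᶠ z in 𝓝[ball (0 : ℂ) 1] ζ, (e * (Q z + V z)).im ≤ κ := by
  intro κ hκ
  have h1 : Tendsto (fun z => (e * V z).im) (𝓝 ζ) (𝓝 (e * V ζ).im) := by
    have := (continuous_im.continuousAt (x := e * V ζ)).tendsto.comp (hV.const_mul e).tendsto
    exact this
  have h2 : ∀ᶠ z in 𝓝[ball (0 : ℂ) 1] ζ, (e * V z).im < B + κ / 2 :=
    (h1.mono_left nhdsWithin_le_nhds).eventually_lt_const (by linarith)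
  filter_upwards [h2, hQ (κ / 2) (by positivity)] with z h3 h4
  rw [mul_add, add_im]
  linarith

/-- the bound near one of the two points -/
theorem V_near {σ c δ k b h : ℝ} (hP : Par σ c δ k b h) {c₀ m : ℝ} (hc₀ : 0 < c₀) (hc₁ : c₀ ≤ 1)
    (hk : 40 * δ * k / σ ≤ c₀) (hm : 0 < m) {V : ℂ}
    (hV : ‖V‖ ≤ 40 * δ * k / σ * m ^ (-(1 - δ))) : ‖V‖ * Real.sin (δ * Real.pi) ≤
      (c₀ / m) ^ (1 - δ) * Real.sin (δ * Real.pi) := by
  have hpi := Real.pi_pos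
  have hδ := hP.δ0
  have hδ1 := hP.δ1
  have hs : 0 ≤ Real.sin (δ * Real.pi) := by
    apply Real.sin_nonneg_of_nonneg_of_le_pi
    · positivity
    · nlinarith
  refine mul_le_mul_of_nonneg_right ?_ hs
  rw [Real.div_rpow hc₀.le hm.le, div_eq_mul_inv, ← Real.rpow_neg hm.le]
  refine hV.trans (mul_le_mul_of_nonneg_right (hk.trans ?_) (Real.rpow_nonneg hm.le _))
  calc c₀ = c₀ ^ (1 : ℝ) := (Real.rpow_one c₀).symm
    _ ≤ c₀ ^ (1 - δ) := Real.rpow_le_rpow_of_exponent_ge hc₀ hc₁ (by linarith)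

theorem V_zero (σ c δ k h : ℝ) : V1 σ c δ k h 0 = 0 ∧ V2 σ c δ k h 0 = 0 := by
  unfold V1 V2 W1 W2 gg
  simp

/-- the interior from the boundary -/
theorem sector_of_bdy {ω l V : ℂ → ℂ} (hL : Lg ω l) {α a C : ℝ} (hα : 0 < α) (hα1 : α < 1)
    (ha : a = α * Real.pi / 2) {w₂ : ℂ} (hw₂ : ‖w₂‖ = 1) (hne : (1 : ℂ) ≠ w₂) (hC : 0 ≤ C)
    (hV : DifferentiableOn ℂ V (ball 0 1)) (hV0 : V 0 = 0)
    (hVn : ∀ z ∈ ball (0 : ℂ) 1, ‖V z‖ ≤ C * (min ‖z - 1‖ ‖z - w₂‖) ^ (-α))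
    (hb1 : ∀ ζ ∈ sphere (0 : ℂ) 1, ζ ≠ 1 → ζ ≠ w₂ → ∀ κ > 0, ∀ᶠ z in 𝓝[ball 0 1] ζ,
      (exp (-(a * I)) * (exp (α * l z) + V z)).im ≤ κ)
    (hb2 : ∀ ζ ∈ sphere (0 : ℂ) 1, ζ ≠ 1 → ζ ≠ w₂ → ∀ κ > 0, ∀ᶠ z in 𝓝[ball 0 1] ζ,
      (-exp (a * I) * (exp (α * l z) + V z)).im ≤ κ) {z : ℂ} (hz : z ∈ ball (0 : ℂ) 1) :
    (exp (-(a * I)) * (exp (α * l z) + V z)).im < 0 ∧
      0 < (exp (a * I) * (exp (α * l z) + V z)).im := by
  have hpi := Real.pi_pos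
  have hqd : DifferentiableOn ℂ (fun z => exp (α * l z)) (ball 0 1) :=
    (hL.diff.const_mul (α : ℂ)).cexp
  have hsa : 0 < Real.sin a := Real.sin_pos_of_pos_of_lt_pi (by rw [ha]; positivity)
    (by rw [ha]; nlinarith)
  have en : ‖exp (-(a * I))‖ = 1 := by
    have : (-(a * I) : ℂ) = ((-a : ℝ) : ℂ) * I := by push_cast; ring
    rw [this, norm_exp_ofReal_mul_I]
  have ep : ‖exp (a * I)‖ = 1 := norm_exp_ofReal_mul_I a
  constructor
  · refine im_neg_of_growth (h := fun z => exp (-(a * I)) * (exp (α * l z) + V z))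
      ((hqd.add hV).const_mul _) norm_one hw₂ hne hC hα hα1 (fun w hw => ?_)
      (fun ζ hζ h1 h2 κ hκ => hb1 ζ hζ h1 h2 κ hκ) ?_ hz
    · have h1 := (Q_sector hL hα hα1 ha hw).1
      have h2 : (exp (-(a * I)) * V w).im ≤ ‖V w‖ := by
        refine (im_le_norm _).trans ?_
        rw [norm_mul, en, one_mul]
      have h3 := hVn w hw
      rw [mul_add, add_im]
      linarith
    · show (exp (-(a * I)) * (exp (α * l 0) + V 0)).im < 0
      rw [hL.zero, hV0, mul_zero, exp_zero, add_zero, mul_one]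
      have : (-(a * I) : ℂ) = ((-a : ℝ) : ℂ) * I := by push_cast; ring
      rw [this, exp_ofReal_mul_I_im, Real.sin_neg]
      linarith
  · have h4 := im_neg_of_growth (h := fun z => -exp (a * I) * (exp (α * l z) + V z))
      ((hqd.add hV).const_mul _) norm_one hw₂ hne hC hα hα1 (fun w hw => ?_)
      (fun ζ hζ h1 h2 κ hκ => hb2 ζ hζ h1 h2 κ hκ) ?_ hz
    · have h5 : (-exp (a * I) * (exp (α * l z) + V z)).im < 0 := h4
      rw [neg_mul, neg_im] at h5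
      linarith
    · have h1 := (Q_sector hL hα hα1 ha hw).2
      have h2 : -(exp (a * I) * V w).im ≤ ‖V w‖ := by
        have := (abs_le.1 (abs_im_le_norm (exp (a * I) * V w))).1
        rw [norm_mul, ep, one_mul] at this
        linarith
      have h3 := hVn w hw
      rw [neg_mul, neg_im, mul_add, add_im]
      linarith
    · show (-exp (a * I) * (exp (α * l 0) + V 0)).im < 0
      rw [hL.zero, hV0, mul_zero, exp_zero, add_zero, mul_one, neg_im, exp_ofReal_mul_I_im]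
      linarith

/-- the power tends to infinity -/
theorem exists_small {k ρ : ℝ} (hk : 0 < k) (hρ : 0 < ρ) :
    ∃ δ₁ > 0, ∀ δ : ℝ, 0 < δ → δ < δ₁ → 2 < ρ * (1 + 1 / (6 * k)) ^ (1 / (2 * δ)) := by
  have hx : 1 < 1 + 1 / (6 * k) := by
    have : 0 < 1 / (6 * k) := by positivity
    linarith
  have h1 : Tendsto (fun x : ℝ => (1 + 1 / (6 * k)) ^ x) atTop atTop :=
    tendsto_rpow_atTop_of_base_gt_one _ hx
  obtain ⟨X, hX⟩ := eventually_atTop.1 (h1.eventually_gt_atTop (2 / ρ))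
  refine ⟨1 / (2 * (|X| + 1)), by positivity, fun δ hδ hδ1 => ?_⟩
  have h2 : X ≤ 1 / (2 * δ) := by
    have h3 : |X| + 1 ≤ 1 / (2 * δ) := by
      rw [le_div_iff₀ (by positivity)]
      rw [lt_div_iff₀ (by positivity)] at hδ1
      nlinarith
    have := le_abs_self X
    linarith
  have h3 := hX _ h2
  rw [div_lt_iff₀ hρ] at h3
  linarith

theorem sector_all {ω : ℂ → ℂ} (hω : IsSchwarz ω) {σ c : ℝ} (hσ : 0 < σ) (hσc : σ ^ 2 + c ^ 2 = 1)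
    (ha1 : AnalyticAt ℂ ω 1) (ha2 : AnalyticAt ℂ ω (pt σ c)) (h1 : ω 1 = 1) (h2 : ω (pt σ c) = 1)
    {k b : ℝ} (hk : 0 < k) : ∃ δ₁ > 0, ∀ δ h : ℝ, δ < δ₁ → Par σ c δ k b h → ∀ l : ℂ → ℂ, Lg ω l →
      ∀ α a : ℝ, α = 1 - δ → a = α * Real.pi / 2 → ∀ z ∈ ball (0 : ℂ) 1,
      ((exp (-(a * I)) * (exp (α * l z) + V1 σ c δ k h z)).im < 0 ∧
        0 < (exp (a * I) * (exp (α * l z) + V1 σ c δ k h z)).im) ∧
      ((exp (-(a * I)) * (exp (α * l z) + V2 σ c δ k h z)).im < 0 ∧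
        0 < (exp (a * I) * (exp (α * l z) + V2 σ c δ k h z)).im) := by
  obtain ⟨ρ₁, c₁, hρ₁, hc₁, hc₁', hl1⟩ := local_peak hω norm_one ha1 h1
  obtain ⟨ρ₂, c₂, hρ₂, hc₂, hc₂', hl2⟩ := local_peak hω (pt_norm hσc) ha2 h2
  obtain ⟨ρ, hρ⟩ : ∃ ρ : ℝ, ρ = min (min ρ₁ ρ₂) σ := ⟨_, rfl⟩
  obtain ⟨c₀, hc₀⟩ : ∃ c₀ : ℝ, c₀ = min c₁ c₂ := ⟨_, rfl⟩
  have hρ0 : 0 < ρ := by rw [hρ]; exact lt_min (lt_min hρ₁ hρ₂) hσ
  have hρσ : ρ ≤ σ := by rw [hρ]; exact min_le_right _ _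
  have hρ1 : ρ ≤ ρ₁ := by rw [hρ]; exact (min_le_left _ _).trans (min_le_left _ _)
  have hρ2 : ρ ≤ ρ₂ := by rw [hρ]; exact (min_le_left _ _).trans (min_le_right _ _)
  have hc₀0 : 0 < c₀ := by rw [hc₀]; exact lt_min hc₁ hc₂
  have hc₀1 : c₀ ≤ c₁ := by rw [hc₀]; exact min_le_left _ _
  have hc₀2 : c₀ ≤ c₂ := by rw [hc₀]; exact min_le_right _ _
  have hc₀' : c₀ ≤ 1 := hc₀1.trans hc₁'
  obtain ⟨δ₂, hδ₂, hsm⟩ := exists_small hk hρ0
  refine ⟨min δ₂ (c₀ * σ / (40 * k)), lt_min hδ₂ (by positivity), ?_⟩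
  intro δ h hδ hP l hL α a hα ha z hz
  have hδ0 := hP.δ0
  have hδ1 := hP.δ1
  have hsmall := hsm δ hδ0 (hδ.trans_le (min_le_left _ _))
  have hkc : 40 * δ * k / σ ≤ c₀ := by
    have h3 := (hδ.trans_le (min_le_right _ _)).le
    rw [le_div_iff₀ (by positivity)] at h3
    rw [div_le_iff₀ hσ]
    linarith
  have ha' : a = (1 - δ) * Real.pi / 2 := by rw [ha, hα]
  have hα0 : 0 < α := by rw [hα]; linarith
  have hα1 : α < 1 := by rw [hα]; linarith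
  have hptn := pt_norm hσc
  have hptd := pt_dist hσ hσc
  have hne : (1 : ℂ) ≠ pt σ c := by
    intro h0
    rw [← h0, sub_self, norm_zero] at hptd
    linarith
  -- the minimum of the distances
  have hmin1 : ∀ ζ : ℂ, ‖ζ - 1‖ < ρ → min ‖ζ - 1‖ ‖ζ - pt σ c‖ = ‖ζ - 1‖ := by
    intro ζ hζ
    apply min_eq_left
    have h3 : ‖pt σ c - 1‖ ≤ ‖ζ - pt σ c‖ + ‖ζ - 1‖ := by
      have e : pt σ c - 1 = -(ζ - pt σ c) + (ζ - 1) := by ring
      rw [e]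
      refine (norm_add_le _ _).trans ?_
      rw [norm_neg]
    rw [hptd] at h3
    linarith
  have hmin2 : ∀ ζ : ℂ, ‖ζ - pt σ c‖ < ρ → min ‖ζ - 1‖ ‖ζ - pt σ c‖ = ‖ζ - pt σ c‖ := by
    intro ζ hζ
    apply min_eq_right
    have h3 : ‖pt σ c - 1‖ ≤ ‖ζ - pt σ c‖ + ‖ζ - 1‖ := by
      have e : pt σ c - 1 = -(ζ - pt σ c) + (ζ - 1) := by ring
      rw [e]
      refine (norm_add_le _ _).trans ?_
      rw [norm_neg]
    rw [hptd] at h3
    linarith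
  have hC : 0 ≤ 40 * δ * k / σ := by positivity
  -- no help
  have hQ1 : ∀ ζ : ℂ, ∀ κ > 0, ∀ᶠ z in 𝓝[ball (0 : ℂ) 1] ζ,
      (exp (-(a * I)) * exp (α * l z)).im ≤ -0 + κ := by
    intro ζ κ hκ
    filter_upwards [self_mem_nhdsWithin] with w hw
    have := (Q_sector hL hα0 hα1 ha hw).1
    linarith
  have hQ2 : ∀ ζ : ℂ, ∀ κ > 0, ∀ᶠ z in 𝓝[ball (0 : ℂ) 1] ζ,
      (-exp (a * I) * exp (α * l z)).im ≤ -0 + κ := by
    intro ζ κ hκ
    filter_upwards [self_mem_nhdsWithin] with w hw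
    have := (Q_sector hL hα0 hα1 ha hw).2
    rw [neg_mul, neg_im]
    linarith
  -- help near the two points
  have hhelp : ∀ ζ : ℂ, ‖ζ‖ = 1 → ζ ≠ 1 → ζ ≠ pt σ c →
      ∀ m : ℝ, m = min ‖ζ - 1‖ ‖ζ - pt σ c‖ →
      (‖ζ - 1‖ < ρ ∧ 0 < (NN σ c ζ).im ∨ ‖ζ - pt σ c‖ < ρ ∧ (NN σ c ζ).im < 0 →
        ∀ κ > 0, ∀ᶠ z in 𝓝[ball (0 : ℂ) 1] ζ,
          (-exp (a * I) * exp (α * l z)).im ≤ -((c₀ / m) ^ α * Real.sin (δ * Real.pi)) + κ) ∧
      (‖ζ - 1‖ < ρ ∧ (NN σ c ζ).im < 0 ∨ ‖ζ - pt σ c‖ < ρ ∧ 0 < (NN σ c ζ).im →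
        ∀ κ > 0, ∀ᶠ z in 𝓝[ball (0 : ℂ) 1] ζ,
          (exp (-(a * I)) * exp (α * l z)).im ≤ -((c₀ / m) ^ α * Real.sin (δ * Real.pi)) + κ) := by
    intro ζ hζ hζ1 hζ2 m hm
    have hm0 : 0 < m := by
      rw [hm]
      exact lt_min (norm_pos_iff.2 (sub_ne_zero.2 hζ1)) (norm_pos_iff.2 (sub_ne_zero.2 hζ2))
    have hnear := NN_im_near hσ hσc hζ hζ1 hζ2
    have hcn : ∀ x y : ℝ, c₀ ≤ x → x * ‖1 - ω ζ‖ ≤ y → c₀ * ‖1 - ω ζ‖ ≤ y := fun x y hx hy =>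
      (mul_le_mul_of_nonneg_right hx (norm_nonneg _)).trans hy
    have e1 : (ζ * (starRingEnd ℂ) 1).im = ζ.im := by rw [map_one, mul_one]
    constructor
    · rintro (⟨h3, h4⟩ | ⟨h3, h4⟩) κ hκ
      · obtain ⟨k1, k2, k3, k4, k5⟩ := hl1 ζ hζ hζ1 (h3.trans_le hρ1)
        have k6 := hnear.1 (h3.trans_le hρσ)
        have k7 : 0 < ζ.im := (pos_iff_pos_of_mul_pos k6).1 h4
        rw [e1] at k5
        have k8 : 0 < (ω ζ).im := (pos_iff_pos_of_mul_pos k5).2 k7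
        rw [hmin1 ζ h3] at hm
        have k9 := help_pos hL hδ0 hδ1 hα ha' hζ k1 k2 k4 hm0 hc₀0
          (hcn c₁ m hc₀1 (by rw [hm]; exact k3)) k8 hκ
        filter_upwards [k9] with w hw
        rw [neg_mul, neg_im]
        linarith
      · obtain ⟨k1, k2, k3, k4, k5⟩ := hl2 ζ hζ hζ2 (h3.trans_le hρ2)
        have k6 := hnear.2 (h3.trans_le hρσ)
        have k7 : 0 < (ζ * (starRingEnd ℂ) (pt σ c)).im := by
          by_contra hcon
          have := mul_nonneg_of_nonpos_of_nonpos h4.le (not_lt.1 hcon)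
          linarith
        have k8 : 0 < (ω ζ).im := (pos_iff_pos_of_mul_pos k5).2 k7
        rw [hmin2 ζ h3] at hm
        have k9 := help_pos hL hδ0 hδ1 hα ha' hζ k1 k2 k4 hm0 hc₀0
          (hcn c₂ m hc₀2 (by rw [hm]; exact k3)) k8 hκ
        filter_upwards [k9] with w hw
        rw [neg_mul, neg_im]
        linarith
    · rintro (⟨h3, h4⟩ | ⟨h3, h4⟩) κ hκ
      · obtain ⟨k1, k2, k3, k4, k5⟩ := hl1 ζ hζ hζ1 (h3.trans_le hρ1)
        have k6 := hnear.1 (h3.trans_le hρσ)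
        have k7 : ζ.im < 0 := by
          by_contra hcon
          have := mul_nonpos_of_nonpos_of_nonneg h4.le (not_lt.1 hcon)
          linarith
        rw [e1] at k5
        have k8 : (ω ζ).im < 0 := by
          by_contra hcon
          have := mul_nonpos_of_nonneg_of_nonpos (not_lt.1 hcon) k7.le
          linarith
        rw [hmin1 ζ h3] at hm
        exact help_neg hL hδ0 hδ1 hα ha' hζ k1 k2 k4 hm0 hc₀0
          (hcn c₁ m hc₀1 (by rw [hm]; exact k3)) k8 hκ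
      · obtain ⟨k1, k2, k3, k4, k5⟩ := hl2 ζ hζ hζ2 (h3.trans_le hρ2)
        have k6 := hnear.2 (h3.trans_le hρσ)
        have k7 : (ζ * (starRingEnd ℂ) (pt σ c)).im < 0 := by
          by_contra hcon
          have := mul_nonneg h4.le (not_lt.1 hcon)
          linarith
        have k8 : (ω ζ).im < 0 := by
          by_contra hcon
          have := mul_nonpos_of_nonneg_of_nonpos (not_lt.1 hcon) k7.le
          linarith
        rw [hmin2 ζ h3] at hm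
        exact help_neg hL hδ0 hδ1 hα ha' hζ k1 k2 k4 hm0 hc₀0
          (hcn c₂ m hc₀2 (by rw [hm]; exact k3)) k8 hκ
  have hball : ∀ w ∈ ball (0 : ℂ) 1, ‖w‖ ≤ 1 ∧ w ≠ 1 ∧ w ≠ pt σ c := by
    intro w hw
    have hw1 : ‖w‖ < 1 := by simpa using hw
    refine ⟨hw1.le, ?_, ?_⟩
    · rintro rfl
      rw [norm_one] at hw1
      exact lt_irrefl _ hw1
    · rintro rfl
      rw [hptn] at hw1
      exact lt_irrefl _ hw1
  have hVn : ∀ w : ℂ, ‖w‖ ≤ 1 → w ≠ 1 → w ≠ pt σ c →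
      ‖V1 σ c δ k h w‖ ≤ 40 * δ * k / σ * (min ‖w - 1‖ ‖w - pt σ c‖) ^ (-α) ∧
      ‖V2 σ c δ k h w‖ ≤ 40 * δ * k / σ * (min ‖w - 1‖ ‖w - pt σ c‖) ^ (-α) := by
    intro w h3 h4 h5
    rw [hα]
    exact V_norm hP h3 h4 h5
  -- the boundary points
  have hcase : ∀ ζ ∈ sphere (0 : ℂ) 1, ζ ≠ 1 → ζ ≠ pt σ c →
      (∀ κ > 0, ∀ᶠ z in 𝓝[ball (0 : ℂ) 1] ζ,
        (exp (-(a * I)) * (exp (α * l z) + V1 σ c δ k h z)).im ≤ κ) ∧
      (∀ κ > 0, ∀ᶠ z in 𝓝[ball (0 : ℂ) 1] ζ,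
        (-exp (a * I) * (exp (α * l z) + V1 σ c δ k h z)).im ≤ κ) ∧
      (∀ κ > 0, ∀ᶠ z in 𝓝[ball (0 : ℂ) 1] ζ,
        (exp (-(a * I)) * (exp (α * l z) + V2 σ c δ k h z)).im ≤ κ) ∧
      (∀ κ > 0, ∀ᶠ z in 𝓝[ball (0 : ℂ) 1] ζ,
        (-exp (a * I) * (exp (α * l z) + V2 σ c δ k h z)).im ≤ κ) := by
    intro ζ hζs hζ1 hζ2
    have hζ : ‖ζ‖ = 1 := by simpa using hζs
    have hc1 : ContinuousAt (V1 σ c δ k h) ζ := (V1_diff hP hζ.le hζ1 hζ2).continuousAt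
    have hc2 : ContinuousAt (V2 σ c δ k h) ζ := (V2_diff hP hζ.le hζ1 hζ2).continuousAt
    obtain ⟨m, hm⟩ : ∃ m : ℝ, m = min ‖ζ - 1‖ ‖ζ - pt σ c‖ := ⟨_, rfl⟩
    have hm0 : 0 < m := by
      rw [hm]
      exact lt_min (norm_pos_iff.2 (sub_ne_zero.2 hζ1)) (norm_pos_iff.2 (sub_ne_zero.2 hζ2))
    have hh := hhelp ζ hζ hζ1 hζ2 m hm
    have hv := hVn ζ hζ.le hζ1 hζ2
    rw [← hm, hα] at hv
    have hb1 := V_near hP hc₀0 hc₀' hkc hm0 hv.1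
    have hb2 := V_near hP hc₀0 hc₀' hkc hm0 hv.2
    rw [← hα] at hb1 hb2
    have hnp := near_pt hP hζ hζ1 hζ2 hρ0 hsmall
    have hn0 : (NN σ c ζ).im ≠ 0 := by
      intro h0
      have h3 := (NN_bdy (σ := σ) (c := c) hζ hζ1).1
      rw [h0, ofReal_zero, zero_mul] at h3
      exact NN_ne hσ hσc hζ1 hζ2 h3
    have hk6 : 0 < 1 / (6 * k) := by positivity
    rcases lt_or_gt_of_ne hn0 with hn | hn
    · obtain ⟨b1, b2, b3, b4⟩ := bdy_neg hP hζ hζ1 hn ha'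
      refine ⟨ev_add hc1 b2 (hQ1 ζ), ?_, ?_, ?_⟩
      · by_cases hy : -(1 / (6 * k)) ≤ (yy σ c δ ζ).re
        · refine ev_add hc1 (B := 0) ?_ (hQ2 ζ)
          rw [neg_mul, neg_im]
          linarith [b1 hy]
        · have h3 := hnp.2 (not_le.1 hy)
          refine ev_add hc1 ?_ (hh.1 (Or.inr ⟨h3, hn⟩))
          rw [neg_mul, neg_im]
          exact (rot_le' hδ0 hδ1 ha' b2).trans hb1
      · by_cases hy : (yy σ c δ ζ).re ≤ 1 / (6 * k)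
        · exact ev_add hc2 (b4 hy) (hQ1 ζ)
        · have h3 := hnp.1 (not_le.1 hy)
          refine ev_add hc2 ?_ (hh.2 (Or.inl ⟨h3, hn⟩))
          exact (rot_le hδ0 hδ1 ha' b3).trans hb2
      · refine ev_add hc2 (B := 0) ?_ (hQ2 ζ)
        rw [neg_mul, neg_im]
        linarith
    · obtain ⟨b1, b2, b3, b4⟩ := bdy_pos hP hζ hζ1 hn ha'
      refine ⟨?_, ?_, ev_add hc2 b3 (hQ1 ζ), ?_⟩
      · by_cases hy : -(1 / (6 * k)) ≤ (yy σ c δ ζ).re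
        · exact ev_add hc1 (b1 hy) (hQ1 ζ)
        · have h3 := hnp.2 (not_le.1 hy)
          refine ev_add hc1 ?_ (hh.2 (Or.inr ⟨h3, hn⟩))
          exact (rot_le hδ0 hδ1 ha' b2).trans hb1
      · refine ev_add hc1 (B := 0) ?_ (hQ2 ζ)
        rw [neg_mul, neg_im]
        linarith
      · by_cases hy : (yy σ c δ ζ).re ≤ 1 / (6 * k)
        · refine ev_add hc2 (B := 0) ?_ (hQ2 ζ)
          rw [neg_mul, neg_im]
          linarith [b4 hy]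
        · have h3 := hnp.1 (not_le.1 hy)
          refine ev_add hc2 ?_ (hh.1 (Or.inl ⟨h3, hn⟩))
          rw [neg_mul, neg_im]
          exact (rot_le' hδ0 hδ1 ha' b3).trans hb2
  have hd1 : DifferentiableOn ℂ (V1 σ c δ k h) (ball 0 1) := fun w hw =>
    (V1_diff hP (hball w hw).1 (hball w hw).2.1 (hball w hw).2.2).differentiableWithinAt
  have hd2 : DifferentiableOn ℂ (V2 σ c δ k h) (ball 0 1) := fun w hw =>
    (V2_diff hP (hball w hw).1 (hball w hw).2.1 (hball w hw).2.2).differentiableWithinAt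
  exact ⟨sector_of_bdy hL hα0 hα1 ha hptn hne hC hd1 (V_zero _ _ _ _ _).1
      (fun w hw => (hVn w (hball w hw).1 (hball w hw).2.1 (hball w hw).2.2).1)
      (fun ζ hζ h3 h4 => (hcase ζ hζ h3 h4).1) (fun ζ hζ h3 h4 => (hcase ζ hζ h3 h4).2.1) hz,
    sector_of_bdy hL hα0 hα1 ha hptn hne hC hd2 (V_zero _ _ _ _ _).2
      (fun w hw => (hVn w (hball w hw).1 (hball w hw).2.1 (hball w hw).2.2).2)
      (fun ζ hζ h3 h4 => (hcase ζ hζ h3 h4).2.2.1) (fun ζ hζ h3 h4 => (hcase ζ hζ h3 h4).2.2.2) hz⟩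

end Pool.Agent.MP07129f.TP
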